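import Pool.Agent.N911.L.P2

/-! Sums over projective points with sums over units; points `(1 : u)` and `(0 : 1)`. -/

namespace Pool.Agent.N911.L

open H419R2 Pool.Agent.N911 Pool.Agent.N367.LE Finset

/-- sums with the weight `g` of the form are sums over the points `(X i : Y i)`, units -/
def PU (R : Type) [CommRing R] [Fintype R] [DecidableEq R] (n : ℤ) (g : R → ℤ) {ι : Type} (s : Finset ι)
    (q : ι → ℤ) (X Y : ι → R) : Prop := ∀ h : R → R → ℤ,
  ∑ x : R, ∑ y : R, g (x ^ 2 + n * (x * y) - y ^ 2) * h x y =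
    ∑ i ∈ s, q i * ∑ v : Rˣ, h (v * X i) (v * Y i)

theorem PU.prod {R1 R2 : Type} [CommRing R1] [Fintype R1] [DecidableEq R1] [CommRing R2]
    [Fintype R2] [DecidableEq R2] {n : ℤ}
    {g1 : R1 → ℤ} {g2 : R2 → ℤ} {ι1 ι2 : Type} {s1 : Finset ι1} {s2 : Finset ι2} {q1 : ι1 → ℤ}
    {q2 : ι2 → ℤ} {X1 Y1 : ι1 → R1} {X2 Y2 : ι2 → R2} (h1 : PU R1 n g1 s1 q1 X1 Y1)
    (h2 : PU R2 n g2 s2 q2 X2 Y2) :
    PU (R1 × R2) n (fun z => g1 z.1 * g2 z.2) (s1 ×ˢ s2) (fun i => q1 i.1 * q2 i.2)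
      (fun i => (X1 i.1, X2 i.2)) (fun i => (Y1 i.1, Y2 i.2)) := by
  intro h
  rw [Fintype.sum_prod_type, Finset.sum_product]
  simp only [Fintype.sum_prod_type]
  have e1 : ∀ x1 : R1, ∀ x2 : R2, ∀ y1 : R1, ∀ y2 : R2,
      g1 ((x1, x2) ^ 2 + (n : R1 × R2) * ((x1, x2) * (y1, y2)) - (y1, y2) ^ 2 : R1 × R2).1 *
      g2 ((x1, x2) ^ 2 + (n : R1 × R2) * ((x1, x2) * (y1, y2)) - (y1, y2) ^ 2 : R1 × R2).2 *
      h (x1, x2) (y1, y2) =
      g1 (x1 ^ 2 + n * (x1 * y1) - y1 ^ 2) * (g2 (x2 ^ 2 + n * (x2 * y2) - y2 ^ 2) *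
        h (x1, x2) (y1, y2)) := by
    intro x1 x2 y1 y2
    exact mul_assoc _ _ _
  have e2 : ∀ x1 : R1, ∑ x2 : R2, ∑ y1 : R1, ∑ y2 : R2,
      g1 (x1 ^ 2 + n * (x1 * y1) - y1 ^ 2) * (g2 (x2 ^ 2 + n * (x2 * y2) - y2 ^ 2) *
        h (x1, x2) (y1, y2)) =
      ∑ y1 : R1, g1 (x1 ^ 2 + n * (x1 * y1) - y1 ^ 2) *
        ∑ j ∈ s2, q2 j * ∑ v : R2ˣ, h (x1, v * X2 j) (y1, v * Y2 j) := by
    intro x1
    rw [Finset.sum_comm]
    apply Finset.sum_congr rfl
    intro y1 _
    rw [← h2 (fun x2 y2 => h (x1, x2) (y1, y2)), Finset.mul_sum]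
    apply Finset.sum_congr rfl
    intro x2 _
    rw [Finset.mul_sum]
  simp only [e1]
  rw [Finset.sum_congr rfl (fun x1 _ => e2 x1)]
  rw [h1 (fun x1 y1 => ∑ j ∈ s2, q2 j * ∑ v : R2ˣ, h (x1, v * X2 j) (y1, v * Y2 j))]
  apply Finset.sum_congr rfl
  intro i _
  rw [Finset.sum_comm, Finset.mul_sum]
  apply Finset.sum_congr rfl
  intro j _
  rw [← Finset.mul_sum, mul_assoc]
  congr 2
  rw [← Equiv.sum_comp (MulEquiv.prodUnits (M := R1) (N := R2)).toEquiv.symm, Fintype.sum_prod_type]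
  rfl

theorem PU.equiv {R R' : Type} [CommRing R] [Fintype R] [DecidableEq R] [CommRing R'] [Fintype R']
    [DecidableEq R'] {n : ℤ}
    (e : R ≃+* R') {g : R' → ℤ} {ι : Type} {s : Finset ι} {q : ι → ℤ}
    {X Y : ι → R'} (h1 : PU R' n g s q X Y) {X' Y' : ι → R} (hX : ∀ i ∈ s, e (X' i) = X i)
    (hY : ∀ i ∈ s, e (Y' i) = Y i) {g' : R → ℤ} (hg : ∀ x, g' x = g (e x)) :
    PU R n g' s q X' Y' := by
  intro h
  have := h1 (fun x y => h (e.symm x) (e.symm y))
  rw [← Equiv.sum_comp e.toEquiv] at this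
  have e1 : ∀ x : R, ∑ y : R', g ((e.toEquiv x) ^ 2 + n * ((e.toEquiv x) * y) - y ^ 2) *
      h (e.symm (e.toEquiv x)) (e.symm y) =
      ∑ y : R, g' (x ^ 2 + n * (x * y) - y ^ 2) * h x y := by
    intro x
    rw [← Equiv.sum_comp e.toEquiv]
    apply Finset.sum_congr rfl
    intro y _
    simp only [RingEquiv.toEquiv_eq_coe, EquivLike.coe_coe, RingEquiv.symm_apply_apply]
    rw [hg]
    simp only [map_sub, map_add, map_mul, map_pow, map_intCast]
  rw [Finset.sum_congr rfl (fun x _ => e1 x)] at this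
  rw [this]
  apply Finset.sum_congr rfl
  intro i hi
  congr 1
  rw [← Equiv.sum_comp (Units.mapEquiv e.toMulEquiv).toEquiv]
  apply Finset.sum_congr rfl
  intro v _
  have hv : (((Units.mapEquiv e.toMulEquiv).toEquiv v : R'ˣ) : R') = e (v : R) := rfl
  rw [hv, ← hX i hi, ← hY i hi, ← map_mul, ← map_mul, RingEquiv.symm_apply_apply,
    RingEquiv.symm_apply_apply]

/-! ### Points for a prime -/

/-- first coordinate of the point `i` (`i = l` is the point `(0 : 1)`) -/
def ux (l i : ℕ) : ℕ := if i = l then 0 else 1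

/-- second coordinate of the point `i` -/
def uy (l i : ℕ) : ℕ := if i = l then 1 else i

/-- symbol of the form at the point `i` -/
def qu (l : ℕ) (n : ℤ) (i : ℕ) : ℤ :=
  jacobiSym ((ux l i : ℤ) ^ 2 + n * ((ux l i : ℤ) * (uy l i : ℤ)) - (uy l i : ℤ) ^ 2) l

theorem sum_units {F : Type} [Field F] [Fintype F] [DecidableEq F] (f : F → ℤ) :
    ∑ v : Fˣ, f v = ∑ x ∈ Finset.univ.erase (0 : F), f x := by
  symm
  refine Finset.sum_bij' (s := Finset.univ.erase (0 : F)) (t := (Finset.univ : Finset Fˣ))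
    (i := fun (x : F) hx => Units.mk0 x (Finset.ne_of_mem_erase hx))
    (j := fun (v : Fˣ) _ => (v : F)) ?_ ?_ ?_ ?_ ?_
  · intro x _; exact Finset.mem_univ _
  · intro v _; exact Finset.mem_erase.mpr ⟨v.ne_zero, Finset.mem_univ _⟩
  · intro x _; rfl
  · intro v _; exact Units.ext rfl
  · intro x _; rfl

theorem pu_prime {l : ℕ} [Fact l.Prime] (n : ℤ) :
    PU (ZMod l) n (fun z => quadraticChar (ZMod l) z) (range (l + 1)) (qu l n)
      (fun i => (ux l i : ZMod l)) (fun i => (uy l i : ZMod l)) := by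
  intro h
  have hl0 : l ≠ 0 := (Fact.out : l.Prime).ne_zero
  have : NeZero l := ⟨hl0⟩
  rw [Finset.sum_range_succ, ← Finset.add_sum_erase Finset.univ _ (Finset.mem_univ (0 : ZMod l)),
    add_comm]
  congr 1
  · rw [sum_range_zmod (fun i => qu l n i * ∑ v : (ZMod l)ˣ, h (v * (ux l i : ℕ)) (v * (uy l i : ℕ)))]
    have e1 : ∀ x ∈ Finset.univ.erase (0 : ZMod l),
        ∑ y : ZMod l, quadraticChar (ZMod l) (x ^ 2 + n * (x * y) - y ^ 2) * h x y =
        ∑ u : ZMod l, quadraticChar (ZMod l) (1 + n * u - u ^ 2) * h (x * 1) (x * u) := by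
      intro x hx
      have hx0 : x ≠ 0 := Finset.ne_of_mem_erase hx
      symm
      apply Fintype.sum_equiv (Equiv.mulLeft₀ x hx0)
      intro u
      simp only [Equiv.mulLeft₀_apply, mul_one]
      have : x ^ 2 + n * (x * (x * u)) - (x * u) ^ 2 = x ^ 2 * (1 + n * u - u ^ 2) := by ring
      rw [this, map_mul, map_pow, quadraticChar_sq_one hx0, one_mul]
    rw [Finset.sum_congr rfl e1, Finset.sum_comm]
    apply Finset.sum_congr rfl
    intro u _
    have h1 : u.val ≠ l := ne_of_lt (ZMod.val_lt u)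
    have hx : ux l u.val = 1 := if_neg h1
    have hy : uy l u.val = u.val := if_neg h1
    have hq : qu l n u.val = quadraticChar (ZMod l) (1 + n * u - u ^ 2) := by
      unfold qu
      rw [jac_eq, hx, hy]
      congr 1
      push_cast
      rw [ZMod.natCast_zmod_val]
      ring
    rw [hq, hx, hy, ZMod.natCast_zmod_val, ← Finset.mul_sum, sum_units (fun v => h (v * ((1 : ℕ) : ZMod l)) (v * u))]
    simp
  · have hx : ux l l = 0 := if_pos rfl
    have hy : uy l l = 1 := if_pos rfl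
    have hq : qu l n l = quadraticChar (ZMod l) (-1) := by
      unfold qu
      rw [jac_eq, hx, hy]
      congr 1
      push_cast
      ring
    beta_reduce
    rw [hq, hx, hy, sum_units (fun v => h (v * ((0 : ℕ) : ZMod l)) (v * ((1 : ℕ) : ZMod l))),
      ← Finset.add_sum_erase Finset.univ _ (Finset.mem_univ (0 : ZMod l)), Finset.mul_sum]
    have e0 : quadraticChar (ZMod l) (0 ^ 2 + n * (0 * 0) - 0 ^ 2) = 0 := by
      have : (0 : ZMod l) ^ 2 + n * (0 * 0) - 0 ^ 2 = 0 := by ring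
      rw [this]; simp
    rw [e0, zero_mul, zero_add]
    apply Finset.sum_congr rfl
    intro y hy
    have hy0 : y ≠ 0 := Finset.ne_of_mem_erase hy
    have : (0 : ZMod l) ^ 2 + n * (0 * y) - y ^ 2 = y ^ 2 * (-1) := by ring
    rw [this, map_mul, map_pow, quadraticChar_sq_one hy0, one_mul]
    simp

/-! ### Four primes -/

/-- the correlation of the weight over units -/
def WU (m X Y : ℕ) : ℤ := ∑ v ∈ (range m).filter (fun v => v.Coprime m), w m (v * X) * w m (v * Y)

theorem sum_units_range {m : ℕ} [NeZero m] (f : ZMod m → ℤ) :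
    ∑ v : (ZMod m)ˣ, f v = ∑ v ∈ (range m).filter (fun v => v.Coprime m), f v := by
  refine Finset.sum_bij' (s := (Finset.univ : Finset (ZMod m)ˣ))
    (t := (range m).filter (fun v => v.Coprime m)) (f := fun (v : (ZMod m)ˣ) => f (v : ZMod m))
    (g := fun (v : ℕ) => f (v : ZMod m)) (i := fun (v : (ZMod m)ˣ) _ => (v : ZMod m).val)
    (j := fun (v : ℕ) hv => ZMod.unitOfCoprime v (Finset.mem_filter.mp hv).2) ?_ ?_ ?_ ?_ ?_
  · intro v _
    exact Finset.mem_filter.mpr ⟨Finset.mem_range.mpr (ZMod.val_lt _), ZMod.val_coe_unit_coprime v⟩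
  · intro v _; exact Finset.mem_univ _
  · intro v _
    apply Units.ext
    simp
  · intro v hv
    simp only [ZMod.coe_unitOfCoprime]
    exact ZMod.val_cast_of_lt (Finset.mem_range.mp (Finset.mem_filter.mp hv).1)
  · intro v _
    simp

/-- **The tensor formula**, units. -/
theorem SEr_tensorU (δ : ℤ) {a b c d : ℕ} (ha : a.Prime) (hb : b.Prime) (hc : c.Prime)
    (hd : d.Prime) (ha2 : a ≠ 2) (hb2 : b ≠ 2) (hc2 : c ≠ 2) (hd2 : d ≠ 2) (hab : a ≠ b)
    (hac : a ≠ c) (had : a ≠ d) (hbc : b ≠ c) (hbd : b ≠ d) (hcd : c ≠ d) (n : ℕ)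
    {ea eb ec ed : ℕ} (hid : Idem a b c d ea eb ec ed) :
    SEr δ {a, b, c, d} n = ∑ i ∈ range (a + 1), ∑ j ∈ range (b + 1), ∑ k ∈ range (c + 1),
      ∑ t ∈ range (d + 1), qu a n i * qu b n j * qu c n k * qu d n t *
        WU (a * b * c * d) (comb ea eb ec ed (ux a i) (ux b j) (ux c k) (ux d t))
          (comb ea eb ec ed (uy a i) (uy b j) (uy c k) (uy d t)) := by
  have := Fact.mk ha
  have := Fact.mk hb
  have := Fact.mk hc
  have := Fact.mk hd
  have cab : a.Coprime b := (Nat.coprime_primes ha hb).mpr hab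
  have cabc : (a * b).Coprime c := Nat.Coprime.mul_left ((Nat.coprime_primes ha hc).mpr hac)
    ((Nat.coprime_primes hb hc).mpr hbc)
  have cabcd : (a * b * c).Coprime d := Nat.Coprime.mul_left (Nat.Coprime.mul_left
    ((Nat.coprime_primes ha hd).mpr had) ((Nat.coprime_primes hb hd).mpr hbd))
    ((Nat.coprime_primes hc hd).mpr hcd)
  set m := a * b * c * d with hm
  have hm0 : m ≠ 0 := by
    rw [hm]
    exact mul_ne_zero (mul_ne_zero (mul_ne_zero ha.ne_zero hb.ne_zero) hc.ne_zero) hd.ne_zero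
  have : NeZero m := ⟨hm0⟩
  have hcond : Pool.Agent.N367.LE.cond {a, b, c, d} = m := by
    unfold Pool.Agent.N367.LE.cond
    rw [Finset.prod_insert (by simp [hab, hac, had]), Finset.prod_insert (by simp [hbc, hbd]),
      Finset.prod_insert (by simp [hcd]), Finset.prod_singleton]
    simp only [Pool.Agent.N367.LE.cb, if_neg ha2, if_neg hb2, if_neg hc2, if_neg hd2, hm]
    ring
  have hpsi : ∀ z : ℤ, psi δ {a, b, c, d} z = jacobiSym z a * jacobiSym z b * jacobiSym z c *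
      jacobiSym z d := by
    intro z
    unfold psi
    rw [Finset.prod_insert (by simp [hab, hac, had]), Finset.prod_insert (by simp [hbc, hbd]),
      Finset.prod_insert (by simp [hcd]), Finset.prod_singleton]
    simp only [sval, if_neg ha2, if_neg hb2, if_neg hc2, if_neg hd2]
    ring
  let e : ZMod m ≃+* ((ZMod a × ZMod b) × ZMod c) × ZMod d :=
    (ZMod.chineseRemainder cabcd).trans (RingEquiv.prodCongr
      ((ZMod.chineseRemainder cabc).trans (RingEquiv.prodCongr (ZMod.chineseRemainder cab)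
        (RingEquiv.refl _))) (RingEquiv.refl _))
  have P := (((pu_prime (l := a) (n : ℤ)).prod (pu_prime (l := b) (n : ℤ))).prod
    (pu_prime (l := c) (n : ℤ))).prod (pu_prime (l := d) (n : ℤ))
  have hval : ∀ z : ZMod m, e z = ((z.val : ℕ) : ((ZMod a × ZMod b) × ZMod c) × ZMod d) := by
    intro z
    conv_lhs => rw [← ZMod.natCast_zmod_val z]
    exact map_natCast e _
  have P' := P.equiv e
    (X' := fun i => ((comb ea eb ec ed (ux a i.1.1.1) (ux b i.1.1.2) (ux c i.1.2) (ux d i.2) : ℕ) : ZMod m))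
    (Y' := fun i => ((comb ea eb ec ed (uy a i.1.1.1) (uy b i.1.1.2) (uy c i.1.2) (uy d i.2) : ℕ) : ZMod m))
    (fun i _ => by rw [map_natCast, hid.comb]) (fun i _ => by rw [map_natCast, hid.comb])
    (g' := fun z => psi δ {a, b, c, d} (z.val : ℤ)) (fun z => by
      rw [hval, hpsi, jac_eq, jac_eq, jac_eq, jac_eq]
      simp)
  have P2 := P' (fun x y => w m x.val * w m y.val)
  unfold SEr
  rw [hcond, sum2_range]
  have l1 : ∀ x y : ZMod m, psi δ {a, b, c, d} ((x.val : ℤ) ^ 2 + n * ((x.val : ℤ) * (y.val : ℤ)) -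
      (y.val : ℤ) ^ 2) * (if x.val = 0 ∨ y.val = 0 then 0 else
        (2 * (x.val : ℤ) - m) * (2 * (y.val : ℤ) - m)) =
      psi δ {a, b, c, d} ((x ^ 2 + ((n : ℤ) : ZMod m) * (x * y) - y ^ 2).val : ℤ) *
        (w m x.val * w m y.val) := by
    intro x y
    congr 1
    · apply psi_mod
      rw [hcond]
      apply (ZMod.intCast_zmod_eq_zero_iff_dvd _ m).mp
      push_cast
      simp only [ZMod.natCast_zmod_val]
      ring
    · unfold w
      rw [Nat.mod_eq_of_lt (ZMod.val_lt x), Nat.mod_eq_of_lt (ZMod.val_lt y)]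
      by_cases h1 : x.val = 0
      · simp [h1]
      · by_cases h2 : y.val = 0
        · simp [h2]
        · simp [h1, h2]
  rw [Finset.sum_congr rfl (fun x _ => Finset.sum_congr rfl (fun y _ => l1 x y)), P2]
  rw [Finset.sum_product, Finset.sum_product, Finset.sum_product]
  apply Finset.sum_congr rfl
  intro i _
  apply Finset.sum_congr rfl
  intro j _
  apply Finset.sum_congr rfl
  intro k _
  apply Finset.sum_congr rfl
  intro t _
  congr 1
  unfold WU
  have hw : ∀ X v : ℕ, w m ((v : ZMod m) * (X : ZMod m)).val = w m (v * X) := by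
    intro X v
    unfold w
    rw [← Nat.cast_mul, ZMod.val_natCast, Nat.mod_mod]
  set X := comb ea eb ec ed (ux a i) (ux b j) (ux c k) (ux d t) with hX
  set Y := comb ea eb ec ed (uy a i) (uy b j) (uy c k) (uy d t) with hY
  refine (sum_units_range (fun v : ZMod m => w m (ZMod.val (v * (X : ZMod m))) *
    w m (ZMod.val (v * (Y : ZMod m))))).trans ?_
  apply Finset.sum_congr rfl
  intro v _
  rw [hw, hw]

end Pool.Agent.N911.L
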