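import Pool.Agent.H419R2.A3

/-! Counting ideals of given norm in a quadratic Dedekind domain with multiplicative weights. -/

namespace Pool.Agent.N911.L

open H419R2 QuadraticAlgebra Module

variable {R m : ℤ}

section dd
variable [IsDedekindDomain (QA R m)]

theorem absNorm_span' (z : QA R m) :
    Ideal.absNorm (Ideal.span {z}) = (QuadraticAlgebra.norm z).natAbs := by
  rw [Ideal.absNorm_span_singleton, algebra_norm_eq]

theorem finite_norm' (n : ℕ) : {I : Ideal (QA R m) | Ideal.absNorm I = n}.Finite :=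
  Ideal.finite_setOfPred_absNorm_eq n

theorem absNorm_l (l : ℕ) : Ideal.absNorm (Ideal.span {((l : ℕ) : QA R m)}) = l * l := by
  rw [absNorm_span', norm_natCast', Int.natAbs_pow, Int.natAbs_natCast, sq]

/-- an ideal coprime to `l` has norm prime to `l` -/
theorem not_dvd_of_sup {l : ℕ} (hl : l.Prime) {I : Ideal (QA R m)} (hI : I ≠ ⊥)
    (h : I ⊔ Ideal.span {((l : ℕ) : QA R m)} = ⊤) : ¬ l ∣ Ideal.absNorm I := by
  intro hd
  have := Fact.mk hl
  have : Finite (QA R m ⧸ I) := Ideal.finiteQuotientOfFreeOfNeBot I hI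
  have hc : l ∣ Nat.card (QA R m ⧸ I) := by
    rw [← Submodule.cardQuot_apply]
    exact hd
  obtain ⟨x, hx⟩ := exists_prime_addOrderOf_dvd_card' l hc
  have h1 : (1 : QA R m) ∈ I ⊔ Ideal.span {((l : ℕ) : QA R m)} := by rw [h]; trivial
  rw [Submodule.mem_sup] at h1
  obtain ⟨i, hi, j, hj, hij⟩ := h1
  rw [Ideal.mem_span_singleton] at hj
  obtain ⟨r, rfl⟩ := hj
  have hx0 : l • x = 0 := by rw [← hx]; exact addOrderOf_nsmul_eq_zero x
  have h2 : (Ideal.Quotient.mk I) (((l : ℕ) : QA R m) * r) = 1 := by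
    rw [← map_one (Ideal.Quotient.mk I), ← hij, map_add, Ideal.Quotient.eq_zero_iff_mem.mpr hi,
      zero_add]
  have h3 : x = 0 := by
    calc x = x * 1 := (mul_one x).symm
      _ = x * (Ideal.Quotient.mk I) (((l : ℕ) : QA R m) * r) := by rw [h2]
      _ = (l • x) * (Ideal.Quotient.mk I) r := by
          rw [map_mul, map_natCast, nsmul_eq_mul]; ring
      _ = 0 := by rw [hx0, zero_mul]
  rw [h3, addOrderOf_zero] at hx
  exact hl.one_lt.ne hx

theorem ne_bot_of_absNorm {I : Ideal (QA R m)} {n : ℕ} (h : Ideal.absNorm I = n) (hn : n ≠ 0) :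
    I ≠ ⊥ := by
  rintro rfl
  rw [Ideal.absNorm_bot] at h
  exact hn h.symm

/-- weighted count -/
noncomputable def CC (θ : Ideal (QA R m) → ℤ) (n : ℕ) : ℤ := ∑ I ∈ (finite_norm' (R := R) (m := m) n).toFinset, θ I

theorem mem_fin {n : ℕ} {I : Ideal (QA R m)} :
    I ∈ (finite_norm' (R := R) (m := m) n).toFinset ↔ Ideal.absNorm I = n := by
  simp

theorem CC_one {θ : Ideal (QA R m) → ℤ} (h1 : θ ⊤ = 1) : CC θ 1 = 1 := by
  unfold CC
  have : (finite_norm' (R := R) (m := m) 1).toFinset = {⊤} := by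
    ext I; simp [Ideal.absNorm_eq_one_iff]
  rw [this]; simp [h1]

open Classical in
/-- ideals divisible by `P` -/
theorem CC_dvd {θ : Ideal (QA R m) → ℤ} (hθ : ∀ I J, I ≠ ⊥ → J ≠ ⊥ → θ (I * J) = θ I * θ J)
    (P : Ideal (QA R m)) {d : ℕ} (hP : Ideal.absNorm P = d) (hd : 0 < d) {n : ℕ} (hn : n ≠ 0) :
    ∑ I ∈ (finite_norm' (R := R) (m := m) (d * n)).toFinset with P ∣ I, θ I = θ P * CC θ n := by
  unfold CC
  have hP0 : P ≠ ⊥ := ne_bot_of_absNorm hP hd.ne'
  rw [Finset.mul_sum]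
  symm
  apply Finset.sum_bij' (i := fun J _ => P * J) (j := fun I hI => if h : P ∣ I then h.choose else ⊥)
  · intro J hJ
    rw [mem_fin] at hJ
    rw [Finset.mem_filter, mem_fin, map_mul, hP, hJ]
    exact ⟨rfl, J, rfl⟩
  · intro I hI
    rw [Finset.mem_filter, mem_fin] at hI
    have h := hI.2
    rw [dif_pos h, mem_fin]
    have h2 := h.choose_spec
    have h3 := hI.1
    rw [h2, map_mul, hP] at h3
    exact Nat.eq_of_mul_eq_mul_left hd h3
  · intro J hJ
    have h : P ∣ P * J := ⟨J, rfl⟩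
    rw [dif_pos h]
    exact (mul_left_cancel₀ hP0 h.choose_spec).symm
  · intro I hI
    rw [Finset.mem_filter, mem_fin] at hI
    have h := hI.2
    rw [dif_pos h]
    exact h.choose_spec.symm
  · intro J hJ
    rw [mem_fin] at hJ
    rw [hθ P J hP0 (ne_bot_of_absNorm hJ hn)]

open Classical in
theorem CC_dvd_zero {θ : Ideal (QA R m) → ℤ}
    (P : Ideal (QA R m)) {d : ℕ} (hP : Ideal.absNorm P = d) {N : ℕ} (h : ¬ d ∣ N) :
    ∑ I ∈ (finite_norm' (R := R) (m := m) N).toFinset with P ∣ I, θ I = 0 := by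
  apply Finset.sum_eq_zero
  intro I hI
  exfalso
  rw [Finset.mem_filter, mem_fin] at hI
  obtain ⟨h1, J, rfl⟩ := hI
  rw [map_mul, hP] at h1
  exact h ⟨_, h1.symm⟩

/-- the ideal `(l)` is maximal for `l` inert -/
theorem span_l_prime {l : ℕ} (hl : l.Prime) (hin : Inert R m l) :
    (Ideal.span {((l : ℕ) : QA R m)}).IsMaximal := by
  have hne : Ideal.span {((l : ℕ) : QA R m)} ≠ ⊥ := by
    apply ne_bot_of_absNorm (absNorm_l l)
    exact (Nat.mul_pos hl.pos hl.pos).ne'
  have hpr : (Ideal.span {((l : ℕ) : QA R m)}).IsPrime := by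
    rw [Ideal.isPrime_iff]
    constructor
    · intro h
      have := absNorm_l (R := R) (m := m) l
      rw [h, Ideal.absNorm_top] at this
      have := hl.two_le
      nlinarith
    · intro x y hxy
      rw [Ideal.mem_span_singleton] at hxy
      have h1 : (l : ℤ) ∣ QuadraticAlgebra.norm x * QuadraticAlgebra.norm y := by
        have h2 := map_dvd QuadraticAlgebra.norm hxy
        rw [map_mul, norm_natCast'] at h2
        exact (dvd_pow_self _ two_ne_zero).trans h2
      rcases (Nat.prime_iff_prime_int.mp hl).dvd_or_dvd h1 with h | h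
      · left
        rw [Ideal.mem_span_singleton, natCast_dvd_iff]
        exact hin _ _ (by rw [norm_eq] at h; exact h)
      · right
        rw [Ideal.mem_span_singleton, natCast_dvd_iff]
        exact hin _ _ (by rw [norm_eq] at h; exact h)
  exact hpr.isMaximal hne

theorem sup_of_not_dvd {P I : Ideal (QA R m)} (hP : P.IsMaximal) (h : ¬ P ∣ I) : I ⊔ P = ⊤ := by
  rw [Ideal.dvd_iff_le] at h
  rw [sup_comm]
  exact hP.1.2 _ (lt_of_le_of_ne le_sup_left (fun e => h (by rw [e]; exact le_sup_right)))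

theorem CC_inert {θ : Ideal (QA R m) → ℤ} (hθ : ∀ I J, I ≠ ⊥ → J ≠ ⊥ → θ (I * J) = θ I * θ J)
    {l : ℕ} (hl : l.Prime) (hin : Inert R m l) (hl1 : θ (Ideal.span {((l : ℕ) : QA R m)}) = 1)
    {n : ℕ} (hn : n ≠ 0) :
    CC θ (l * n) = if l ∣ n then CC θ (n / l) else 0 := by
  classical
  have hmax := span_l_prime hl hin
  have hset : CC θ (l * n) = ∑ I ∈ (finite_norm' (R := R) (m := m) (l * n)).toFinset with
      Ideal.span {((l : ℕ) : QA R m)} ∣ I, θ I := by
    unfold CC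
    rw [Finset.filter_true_of_mem]
    intro I hI
    rw [mem_fin] at hI
    by_contra h
    have h1 := sup_of_not_dvd hmax h
    exact not_dvd_of_sup hl (ne_bot_of_absNorm hI (Nat.mul_ne_zero hl.ne_zero hn)) h1
      (by rw [hI]; exact ⟨n, rfl⟩)
  rw [hset]
  have hN := absNorm_l (R := R) (m := m) l
  split_ifs with h
  · obtain ⟨k, rfl⟩ := h
    rw [Nat.mul_div_cancel_left _ hl.pos, ← mul_assoc,
      CC_dvd hθ _ hN (Nat.mul_pos hl.pos hl.pos) (by rintro rfl; simp at hn), hl1, one_mul]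
  · apply CC_dvd_zero _ hN
    rintro ⟨k, hk⟩
    apply h
    exact ⟨k, Nat.eq_of_mul_eq_mul_left hl.pos (by rw [hk]; ring)⟩

/-- existence of a prime ideal above a non-inert prime -/
theorem exists_above {l : ℕ} (hl : l.Prime) {w0 : ℤ} (hw : (l : ℤ) ∣ w0 ^ 2 + m * w0 - R) :
    ∃ P J : Ideal (QA R m), Ideal.absNorm P = l ∧ Ideal.absNorm J = l ∧
      P * J = Ideal.span {((l : ℕ) : QA R m)} ∧ P = Ideal.span {((l : ℕ) : QA R m), ⟨w0, 1⟩} := by
  set z : QA R m := ⟨w0, 1⟩ with hz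
  set P : Ideal (QA R m) := Ideal.span {((l : ℕ) : QA R m), z} with hPdef
  have hzP : z ∈ P := Ideal.subset_span (by simp)
  have hlP : ((l : ℕ) : QA R m) ∈ P := Ideal.subset_span (by simp)
  have hle : Ideal.span {((l : ℕ) : QA R m)} ≤ P := by
    rw [Ideal.span_singleton_le_iff_mem]; exact hlP
  obtain ⟨J, hJ⟩ := Ideal.dvd_iff_le.mpr hle
  have hNl := absNorm_l (R := R) (m := m) l
  have hN : Ideal.absNorm P * Ideal.absNorm J = l ^ 2 := by
    rw [← map_mul, ← hJ, hNl, sq]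
  have hPt : P ≠ ⊤ := by
    intro h
    have h1 : (1 : QA R m) ∈ P := by rw [h]; trivial
    rw [hPdef, Ideal.mem_span_pair] at h1
    obtain ⟨a, b, hab⟩ := h1
    have h2 : ((l : ℕ) : QA R m) ∣ star z := by
      have h3 : ((l : ℕ) : QA R m) ∣ z * star z := by
        rw [← QuadraticAlgebra.algebraMap_norm_eq_mul_star]
        obtain ⟨k, hk⟩ := hw
        refine ⟨(k : QA R m), ?_⟩
        rw [norm_eq, hz]
        have : w0 ^ 2 + m * w0 * 1 - R * 1 ^ 2 = l * k := by rw [← hk]; ring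
        simp only
        rw [this]
        simp
      have h4 : star z = ((l : ℕ) : QA R m) * (a * star z) + b * (z * star z) := by
        calc star z = 1 * star z := (one_mul _).symm
          _ = (a * ((l : ℕ) : QA R m) + b * z) * star z := by rw [hab]
          _ = _ := by ring
      rw [h4]
      exact dvd_add (Dvd.intro _ rfl) (h3.mul_left b)
    rw [natCast_dvd_iff] at h2
    have h3 := h2.2
    rw [hz] at h3
    simp at h3
    have := Int.eq_one_of_dvd_one (by positivity) h3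
    have := hl.two_le
    omega
  have hPl : Ideal.absNorm J ≠ 1 := by
    intro h
    rw [Ideal.absNorm_eq_one_iff] at h
    rw [h, Ideal.mul_top] at hJ
    have h1 : z ∈ Ideal.span {((l : ℕ) : QA R m)} := by rw [hJ]; exact hzP
    rw [Ideal.mem_span_singleton, natCast_dvd_iff] at h1
    have := Int.eq_one_of_dvd_one (by positivity) h1.2
    have := hl.two_le
    omega
  have hP1 : Ideal.absNorm P ≠ 1 := by
    rw [Ne, Ideal.absNorm_eq_one_iff]; exact hPt
  have h5 := (Nat.Prime.mul_eq_prime_sq_iff hl hP1 hPl).mp hN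
  exact ⟨P, J, h5.1, h5.2, hJ.symm, rfl⟩

theorem maximal_of_norm {l : ℕ} (hl : l.Prime) {P : Ideal (QA R m)} (hP : Ideal.absNorm P = l) :
    P.IsMaximal := by
  have h1 : P.IsPrime := Ideal.isPrime_of_irreducible_absNorm (by rw [hP]; exact hl)
  exact h1.isMaximal (ne_bot_of_absNorm hP hl.ne_zero)

theorem dvd_or {l : ℕ} (hl : l.Prime) {P J : Ideal (QA R m)} (hP : Ideal.absNorm P = l)
    (hJ : Ideal.absNorm J = l) (hPJ : P * J = Ideal.span {((l : ℕ) : QA R m)})
    {I : Ideal (QA R m)} {n : ℕ} (hn : n ≠ 0) (hI : Ideal.absNorm I = l * n) : P ∣ I ∨ J ∣ I := by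
  by_contra h
  push Not at h
  have h1 := sup_of_not_dvd (maximal_of_norm hl hP) h.1
  have h2 := sup_of_not_dvd (maximal_of_norm hl hJ) h.2
  have h3 : I ⊔ P * J = ⊤ := by
    rw [Ideal.sup_mul_eq_of_coprime_left h1]; exact h2
  rw [hPJ] at h3
  exact not_dvd_of_sup hl (ne_bot_of_absNorm hI (Nat.mul_ne_zero hl.ne_zero hn)) h3
    (by rw [hI]; exact ⟨n, rfl⟩)

theorem CC_ram {θ : Ideal (QA R m) → ℤ} (hθ : ∀ I J, I ≠ ⊥ → J ≠ ⊥ → θ (I * J) = θ I * θ J)
    {l : ℕ} (hl : l.Prime) {P : Ideal (QA R m)} (hP : Ideal.absNorm P = l)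
    (hPJ : P * P = Ideal.span {((l : ℕ) : QA R m)}) {n : ℕ} (hn : n ≠ 0) :
    CC θ (l * n) = θ P * CC θ n := by
  classical
  rw [← CC_dvd hθ P hP hl.pos hn]
  unfold CC
  rw [Finset.filter_true_of_mem]
  intro I hI
  rw [mem_fin] at hI
  rcases dvd_or hl hP hP hPJ hn hI with h | h <;> exact h

theorem CC_split {θ : Ideal (QA R m) → ℤ} (hθ : ∀ I J, I ≠ ⊥ → J ≠ ⊥ → θ (I * J) = θ I * θ J)
    {l : ℕ} (hl : l.Prime) {P J : Ideal (QA R m)} (hP : Ideal.absNorm P = l)
    (hJ : Ideal.absNorm J = l)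
    (hPJ : P * J = Ideal.span {((l : ℕ) : QA R m)}) (hne : P ≠ J)
    (hl1 : θ (Ideal.span {((l : ℕ) : QA R m)}) = 1) {n : ℕ} (hn : n ≠ 0) :
    CC θ (l * n) = (θ P + θ J) * CC θ n - (if l ∣ n then CC θ (n / l) else 0) := by
  classical
  have h1 := CC_dvd hθ P hP hl.pos hn
  have h2 := CC_dvd hθ J hJ hl.pos hn
  have hPm := maximal_of_norm hl hP
  have hJm := maximal_of_norm hl hJ
  have hboth : ∀ I : Ideal (QA R m), (P ∣ I ∧ J ∣ I) ↔ Ideal.span {((l : ℕ) : QA R m)} ∣ I := by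
    intro I
    rw [← hPJ]
    constructor
    · rintro ⟨⟨X, rfl⟩, h⟩
      have hJP : ¬ J ∣ P := by
        rw [Ideal.dvd_iff_le]
        intro h
        exact hne (hPm.eq_of_le hJm.ne_top h)
      have hJpr : Prime J := by
        rw [Ideal.prime_iff_isPrime (ne_bot_of_absNorm hJ hl.ne_zero)]
        exact hJm.isPrime
      rcases hJpr.dvd_or_dvd h with h3 | h3
      · exact absurd h3 hJP
      · exact mul_dvd_mul_left P h3
    · intro h
      exact ⟨(Dvd.intro _ rfl).trans h, (Dvd.intro_left _ rfl).trans h⟩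
  have h3 : ∑ I ∈ (finite_norm' (R := R) (m := m) (l * n)).toFinset with (P ∣ I ∧ J ∣ I), θ I =
      (if l ∣ n then CC θ (n / l) else 0) := by
    simp only [hboth]
    have hN := absNorm_l (R := R) (m := m) l
    split_ifs with h
    · obtain ⟨k, rfl⟩ := h
      rw [Nat.mul_div_cancel_left _ hl.pos, ← mul_assoc,
        CC_dvd hθ _ hN (Nat.mul_pos hl.pos hl.pos) (by rintro rfl; simp at hn), hl1, one_mul]
    · apply CC_dvd_zero _ hN
      rintro ⟨k, hk⟩
      apply h
      exact ⟨k, Nat.eq_of_mul_eq_mul_left hl.pos (by rw [hk]; ring)⟩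
  have h4 : CC θ (l * n) = ∑ I ∈ (finite_norm' (R := R) (m := m) (l * n)).toFinset with
      (P ∣ I ∨ J ∣ I), θ I := by
    unfold CC
    rw [Finset.filter_true_of_mem]
    intro I hI
    rw [mem_fin] at hI
    exact dvd_or hl hP hJ hPJ hn hI
  have h5 : ∑ I ∈ (finite_norm' (R := R) (m := m) (l * n)).toFinset with (P ∣ I ∨ J ∣ I), θ I +
      ∑ I ∈ (finite_norm' (R := R) (m := m) (l * n)).toFinset with (P ∣ I ∧ J ∣ I), θ I =
      ∑ I ∈ (finite_norm' (R := R) (m := m) (l * n)).toFinset with P ∣ I, θ I +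
      ∑ I ∈ (finite_norm' (R := R) (m := m) (l * n)).toFinset with J ∣ I, θ I := by
    rw [Finset.filter_or, Finset.filter_and]
    exact Finset.sum_union_inter
  rw [h4]
  rw [h3, h1, h2] at h5
  linarith

/-- ramified or split -/
theorem ram_iff {l D : ℕ} (hl : l.Prime) (hD : (D : ℤ) = m ^ 2 + 4 * R)
    {w0 : ℤ} (hw : (l : ℤ) ∣ w0 ^ 2 + m * w0 - R)
    {P J : Ideal (QA R m)} (hP : Ideal.absNorm P = l) (hJ : Ideal.absNorm J = l)
    (hPJ : P * J = Ideal.span {((l : ℕ) : QA R m)})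
    (hspan : P = Ideal.span {((l : ℕ) : QA R m), ⟨w0, 1⟩}) : P = J ↔ (l : ℤ) ∣ D := by
  set z : QA R m := ⟨w0, 1⟩ with hz
  have hzz : z * z = ⟨(2 * w0 + m) * w0 - (w0 ^ 2 + m * w0 - R), 2 * w0 + m⟩ := by
    rw [hz]
    ext
    · simp; ring
    · simp; ring
  have hdisc : (D : ℤ) = (2 * w0 + m) ^ 2 - 4 * (w0 ^ 2 + m * w0 - R) := by rw [hD]; ring
  have hlp : Prime (l : ℤ) := Nat.prime_iff_prime_int.mp hl
  constructor
  · intro h
    rw [← h] at hPJ
    have h1 : z * z ∈ P * P := Ideal.mul_mem_mul (by rw [hspan]; exact Ideal.subset_span (by simp))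
      (by rw [hspan]; exact Ideal.subset_span (by simp))
    rw [hPJ, Ideal.mem_span_singleton, hzz, natCast_dvd_iff] at h1
    rw [hdisc]
    exact dvd_sub (h1.2.trans (dvd_pow_self _ two_ne_zero)) (hw.mul_left _)
  · intro h
    have h3 : (l : ℤ) ∣ 2 * w0 + m := by
      apply hlp.dvd_of_dvd_pow (n := 2)
      have : (2 * w0 + m) ^ 2 = D + 4 * (w0 ^ 2 + m * w0 - R) := by rw [hdisc]; ring
      rw [this]
      exact dvd_add h (hw.mul_left _)
    have h4 : ((l : ℕ) : QA R m) ∣ z * z := by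
      rw [hzz, natCast_dvd_iff]
      exact ⟨dvd_sub (h3.mul_right _) hw, h3⟩
    have h5 : P * P ≤ Ideal.span {((l : ℕ) : QA R m)} := by
      rw [hspan, Ideal.span_mul_span', Ideal.span_le]
      rintro x hx
      rw [Set.mem_mul] at hx
      obtain ⟨a, ha, b, hb, rfl⟩ := hx
      simp only [Set.mem_insert_iff, Set.mem_singleton_iff] at ha hb
      rw [SetLike.mem_coe, Ideal.mem_span_singleton]
      rcases ha with rfl | rfl
      · exact Dvd.intro _ rfl
      · rcases hb with rfl | rfl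
        · exact Dvd.intro_left _ rfl
        · exact h4
    rw [← Ideal.dvd_iff_le, ← hPJ] at h5
    have hP0 : P ≠ 0 := ne_bot_of_absNorm hP hl.ne_zero
    have h6 : J ∣ P := (mul_dvd_mul_iff_left hP0).mp h5
    rw [Ideal.dvd_iff_le] at h6
    exact (maximal_of_norm hl hP).eq_of_le (maximal_of_norm hl hJ).ne_top h6

end dd

end Pool.Agent.N911.L
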