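import Pool.Agent.N367.LE.Bit0

/-! Sums of the characters of the form `x ^ 2 + n x y - y ^ 2` as sums over projective points. -/

namespace Pool.Agent.N911.L

open H419R2 Pool.Agent.N911 Pool.Agent.N367.LE Finset

/-! ### One prime -/

section one

variable {l : ℕ} [Fact l.Prime]

theorem rc (hl : l ≠ 2) : ringChar (ZMod l) ≠ 2 := by
  rw [ZMod.ringChar_zmod_n]; exact hl

theorem sum_sq (hl : l ≠ 2) (g : ZMod l → ℤ) :
    ∑ t : ZMod l, g (t ^ 2) = ∑ s : ZMod l, (1 + quadraticChar (ZMod l) s) * g s := by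
  rw [← Finset.sum_fiberwise Finset.univ (fun t : ZMod l => t ^ 2) (fun t => g (t ^ 2))]
  apply Finset.sum_congr rfl
  intro s _
  have h1 := quadraticChar_card_sqrts (rc hl) s
  have h2 : ∑ t : ZMod l with t ^ 2 = s, g (t ^ 2) = ∑ t : ZMod l with t ^ 2 = s, g s := by
    apply Finset.sum_congr rfl
    intro t ht
    rw [(Finset.mem_filter.mp ht).2]
  rw [h2, Finset.sum_const, nsmul_eq_mul]
  congr 1
  rw [add_comm, ← h1]
  congr 2
  ext t
  simp

theorem sum_shift (hl : l ≠ 2) (D : ZMod l) :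
    ∑ s : ZMod l, quadraticChar (ZMod l) (s - D) = 0 := by
  rw [← quadraticChar_sum_zero (rc hl)]
  exact Fintype.sum_equiv (Equiv.subRight D) _ _ (fun s => rfl)

theorem corr (hl : l ≠ 2) {D : ZMod l} (hD : D ≠ 0) :
    ∑ s : ZMod l, quadraticChar (ZMod l) s * quadraticChar (ZMod l) (s - D) = -1 := by
  have hc : (quadraticChar (ZMod l)) ≠ 1 := quadraticChar_ne_one (rc hl)
  have h1 := jacobiSum_nontrivial_inv hc
  have h3 : (quadraticChar (ZMod l))⁻¹ = quadraticChar (ZMod l) :=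
    (quadraticChar_isQuadratic (ZMod l)).inv
  rw [h3] at h1
  have h4 : ∑ s : ZMod l, quadraticChar (ZMod l) s * quadraticChar (ZMod l) (s - D) =
      quadraticChar (ZMod l) (-1) * jacobiSum (quadraticChar (ZMod l)) (quadraticChar (ZMod l)) := by
    unfold jacobiSum
    rw [Finset.mul_sum]
    symm
    apply Fintype.sum_equiv (Equiv.mulLeft₀ D hD)
    intro x
    simp only [Equiv.mulLeft₀_apply]
    have h5 : D * x - D = (-1) * (D * (1 - x)) := by ring
    rw [h5, map_mul, map_mul, map_mul]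
    have h6 : quadraticChar (ZMod l) D * quadraticChar (ZMod l) D = 1 := by
      rw [← map_mul, ← sq, map_pow]
      exact quadraticChar_sq_one hD
    linear_combination (-quadraticChar (ZMod l) (-1) * quadraticChar (ZMod l) x *
      quadraticChar (ZMod l) (1 - x)) * h6
  rw [h4, h1]
  have h7 : quadraticChar (ZMod l) (-1) * quadraticChar (ZMod l) (-1) = 1 := by
    rw [← map_mul]; simp
  linear_combination (-1) * h7

/-- the quadratic polynomial `u ^ 2 + n u - 1` -/
theorem sumQ (hl : l ≠ 2) {n : ZMod l} (hn : n ^ 2 + 4 ≠ 0) :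
    ∑ u : ZMod l, quadraticChar (ZMod l) (u ^ 2 + n * u - 1) = -1 := by
  have h2 : (2 : ZMod l) ≠ 0 := Ring.two_ne_zero (rc hl)
  have h4 : quadraticChar (ZMod l) 4 = 1 := by
    have : (4 : ZMod l) = 2 ^ 2 := by norm_num
    rw [this, map_pow]
    exact quadraticChar_sq_one h2
  have e1 : ∑ u : ZMod l, quadraticChar (ZMod l) (u ^ 2 + n * u - 1) =
      ∑ t : ZMod l, quadraticChar (ZMod l) (t ^ 2 - (n ^ 2 + 4)) := by
    apply Fintype.sum_equiv ((Equiv.mulLeft₀ (2 : ZMod l) h2).trans (Equiv.addRight n))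
    intro u
    simp only [Equiv.trans_apply, Equiv.mulLeft₀_apply, Equiv.coe_addRight]
    have : (2 * u + n) ^ 2 - (n ^ 2 + 4) = 4 * (u ^ 2 + n * u - 1) := by ring
    rw [this, map_mul, h4, one_mul]
  rw [e1, sum_sq hl (fun s => quadraticChar (ZMod l) (s - (n ^ 2 + 4)))]
  simp only [add_mul, one_mul, Finset.sum_add_distrib]
  rw [sum_shift hl, corr hl hn]
  norm_num

/-- sum over a line -/
theorem row_sum (hl : l ≠ 2) {n : ZMod l} (hn : n ^ 2 + 4 ≠ 0) (y : ZMod l) :
    ∑ x : ZMod l, quadraticChar (ZMod l) (x ^ 2 + n * (x * y) - y ^ 2) =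
      -1 + l * (if y = 0 then 1 else 0) := by
  by_cases hy : y = 0
  · subst hy
    rw [if_pos rfl]
    have h1 : ∀ x : ZMod l, quadraticChar (ZMod l) (x ^ 2 + n * (x * 0) - 0 ^ 2) =
        1 - (if x = 0 then 1 else 0) := by
      intro x
      have : x ^ 2 + n * (x * 0) - 0 ^ 2 = x ^ 2 := by ring
      rw [this]
      by_cases hx : x = 0
      · subst hx; simp
      · rw [if_neg hx, map_pow, quadraticChar_sq_one hx]; norm_num
    rw [Finset.sum_congr rfl (fun x _ => h1 x), Finset.sum_sub_distrib]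
    simp [ZMod.card]
    ring
  · rw [if_neg hy]
    have e1 : ∑ x : ZMod l, quadraticChar (ZMod l) (x ^ 2 + n * (x * y) - y ^ 2) =
        ∑ u : ZMod l, quadraticChar (ZMod l) (u ^ 2 + n * u - 1) := by
      symm
      apply Fintype.sum_equiv (Equiv.mulRight₀ y hy)
      intro u
      simp only [Equiv.mulRight₀_apply]
      have : (u * y) ^ 2 + n * (u * y * y) - y ^ 2 = y ^ 2 * (u ^ 2 + n * u - 1) := by ring
      rw [this, map_mul, map_pow, quadraticChar_sq_one hy, one_mul]
    rw [e1, sumQ hl hn]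
    norm_num

/-- the sum over the plane as a sum over lines -/
theorem plane (hl : l ≠ 2) {n : ZMod l} (hn : n ^ 2 + 4 ≠ 0) (h : ZMod l → ZMod l → ℤ) :
    ∑ x : ZMod l, ∑ y : ZMod l, quadraticChar (ZMod l) (x ^ 2 + n * (x * y) - y ^ 2) * h x y =
      ∑ u : ZMod l, quadraticChar (ZMod l) (u ^ 2 + n * u - 1) * ∑ v : ZMod l, h (v * u) v +
        ∑ v : ZMod l, h v 0 := by
  rw [Finset.sum_comm]
  rw [← Finset.add_sum_erase Finset.univ _ (Finset.mem_univ (0 : ZMod l))]
  have e0 : ∑ x : ZMod l, quadraticChar (ZMod l) (x ^ 2 + n * (x * 0) - 0 ^ 2) * h x 0 =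
      ∑ v : ZMod l, h v 0 - h 0 0 := by
    rw [← Finset.add_sum_erase Finset.univ _ (Finset.mem_univ (0 : ZMod l)),
      ← Finset.add_sum_erase Finset.univ (fun v => h v 0) (Finset.mem_univ (0 : ZMod l))]
    have : ∀ x ∈ Finset.univ.erase (0 : ZMod l),
        quadraticChar (ZMod l) (x ^ 2 + n * (x * 0) - 0 ^ 2) * h x 0 = h x 0 := by
      intro x hx
      have hx0 : x ≠ 0 := Finset.ne_of_mem_erase hx
      have : x ^ 2 + n * (x * 0) - 0 ^ 2 = x ^ 2 := by ring
      rw [this, map_pow, quadraticChar_sq_one hx0, one_mul]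
    rw [Finset.sum_congr rfl this]
    simp
  have e1 : ∀ y ∈ Finset.univ.erase (0 : ZMod l),
      ∑ x : ZMod l, quadraticChar (ZMod l) (x ^ 2 + n * (x * y) - y ^ 2) * h x y =
      ∑ u : ZMod l, quadraticChar (ZMod l) (u ^ 2 + n * u - 1) * h (y * u) y := by
    intro y hy
    have hy0 : y ≠ 0 := Finset.ne_of_mem_erase hy
    symm
    apply Fintype.sum_equiv (Equiv.mulLeft₀ y hy0)
    intro u
    simp only [Equiv.mulLeft₀_apply]
    have : (y * u) ^ 2 + n * (y * u * y) - y ^ 2 = y ^ 2 * (u ^ 2 + n * u - 1) := by ring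
    rw [this, map_mul, map_pow, quadraticChar_sq_one hy0, one_mul]
  rw [e0, Finset.sum_congr rfl e1, Finset.sum_comm]
  have e2 : ∀ u : ZMod l, ∑ y ∈ Finset.univ.erase (0 : ZMod l),
      quadraticChar (ZMod l) (u ^ 2 + n * u - 1) * h (y * u) y =
      quadraticChar (ZMod l) (u ^ 2 + n * u - 1) * ∑ v : ZMod l, h (v * u) v -
        quadraticChar (ZMod l) (u ^ 2 + n * u - 1) * h 0 0 := by
    intro u
    rw [← Finset.add_sum_erase Finset.univ (fun v => h (v * u) v) (Finset.mem_univ (0 : ZMod l)),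
      mul_add, Finset.mul_sum]
    simp
  rw [Finset.sum_congr rfl (fun u _ => e2 u), Finset.sum_sub_distrib, ← Finset.sum_mul, sumQ hl hn]
  ring

end one

end Pool.Agent.N911.L
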