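import Pool.Agent.N911.L.P1

/-! Sums over projective points: products of rings, four primes. -/

namespace Pool.Agent.N911.L

open H419R2 Pool.Agent.N911 Pool.Agent.N367.LE Finset

/-- sums with the weight `g` of the form are sums over the points `(X i : Y i)` -/
def PF (R : Type) [CommRing R] [Fintype R] (n : ℤ) (g : R → ℤ) {ι : Type} (s : Finset ι)
    (q : ι → ℤ) (X Y : ι → R) : Prop := ∀ h : R → R → ℤ,
  ∑ x : R, ∑ y : R, g (x ^ 2 + n * (x * y) - y ^ 2) * h x y = ∑ i ∈ s, q i * ∑ v : R, h (v * X i) (v * Y i)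

theorem PF.prod {R1 R2 : Type} [CommRing R1] [Fintype R1] [CommRing R2] [Fintype R2] {n : ℤ}
    {g1 : R1 → ℤ} {g2 : R2 → ℤ} {ι1 ι2 : Type} {s1 : Finset ι1} {s2 : Finset ι2} {q1 : ι1 → ℤ}
    {q2 : ι2 → ℤ} {X1 Y1 : ι1 → R1} {X2 Y2 : ι2 → R2} (h1 : PF R1 n g1 s1 q1 X1 Y1)
    (h2 : PF R2 n g2 s2 q2 X2 Y2) :
    PF (R1 × R2) n (fun z => g1 z.1 * g2 z.2) (s1 ×ˢ s2) (fun i => q1 i.1 * q2 i.2)
      (fun i => (X1 i.1, X2 i.2)) (fun i => (Y1 i.1, Y2 i.2)) := by
  intro h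
  rw [Fintype.sum_prod_type, Finset.sum_product]
  simp only [Fintype.sum_prod_type]
  have e1 : ∀ x1 : R1, ∀ x2 : R2, ∀ y1 : R1, ∀ y2 : R2,
      g1 ((x1, x2) ^ 2 + (n : R1 × R2) * ((x1, x2) * (y1, y2)) - (y1, y2) ^ 2 : R1 × R2).1 *
      g2 ((x1, x2) ^ 2 + (n : R1 × R2) * ((x1, x2) * (y1, y2)) - (y1, y2) ^ 2 : R1 × R2).2 *
      h (x1, x2) (y1, y2) =
      g1 (x1 ^ 2 + n * (x1 * y1) - y1 ^ 2) * (g2 (x2 ^ 2 + n * (x2 * y2) - y2 ^ 2) *
        h (x1, x2) (y1, y2)) := by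
    intro x1 x2 y1 y2
    exact mul_assoc _ _ _
  have e2 : ∀ x1 : R1, ∑ x2 : R2, ∑ y1 : R1, ∑ y2 : R2,
      g1 (x1 ^ 2 + n * (x1 * y1) - y1 ^ 2) * (g2 (x2 ^ 2 + n * (x2 * y2) - y2 ^ 2) *
        h (x1, x2) (y1, y2)) =
      ∑ y1 : R1, g1 (x1 ^ 2 + n * (x1 * y1) - y1 ^ 2) *
        ∑ j ∈ s2, q2 j * ∑ v : R2, h (x1, v * X2 j) (y1, v * Y2 j) := by
    intro x1
    rw [Finset.sum_comm]
    apply Finset.sum_congr rfl
    intro y1 _
    rw [← h2 (fun x2 y2 => h (x1, x2) (y1, y2)), Finset.mul_sum]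
    apply Finset.sum_congr rfl
    intro x2 _
    rw [Finset.mul_sum]
  simp only [e1]
  rw [Finset.sum_congr rfl (fun x1 _ => e2 x1)]
  rw [h1 (fun x1 y1 => ∑ j ∈ s2, q2 j * ∑ v : R2, h (x1, v * X2 j) (y1, v * Y2 j))]
  apply Finset.sum_congr rfl
  intro i _
  rw [Finset.sum_comm, Finset.mul_sum]
  apply Finset.sum_congr rfl
  intro j _
  rw [← Finset.mul_sum, mul_assoc]
  rfl

theorem PF.equiv {R R' : Type} [CommRing R] [Fintype R] [CommRing R'] [Fintype R'] {n : ℤ}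
    (e : R ≃+* R') {g : R' → ℤ} {ι : Type} {s : Finset ι} {q : ι → ℤ}
    {X Y : ι → R'} (h1 : PF R' n g s q X Y) {X' Y' : ι → R} (hX : ∀ i ∈ s, e (X' i) = X i)
    (hY : ∀ i ∈ s, e (Y' i) = Y i) {g' : R → ℤ} (hg : ∀ x, g' x = g (e x)) :
    PF R n g' s q X' Y' := by
  intro h
  have := h1 (fun x y => h (e.symm x) (e.symm y))
  rw [← Equiv.sum_comp e.toEquiv] at this
  have e1 : ∀ x : R, ∑ y : R', g ((e.toEquiv x) ^ 2 + n * ((e.toEquiv x) * y) - y ^ 2) *
      h (e.symm (e.toEquiv x)) (e.symm y) =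
      ∑ y : R, g' (x ^ 2 + n * (x * y) - y ^ 2) * h x y := by
    intro x
    rw [← Equiv.sum_comp e.toEquiv]
    apply Finset.sum_congr rfl
    intro y _
    simp only [RingEquiv.toEquiv_eq_coe, EquivLike.coe_coe, RingEquiv.symm_apply_apply]
    rw [hg]
    simp only [map_sub, map_add, map_mul, map_pow, map_intCast]
  rw [Finset.sum_congr rfl (fun x _ => e1 x)] at this
  rw [this]
  apply Finset.sum_congr rfl
  intro i hi
  congr 1
  rw [← Equiv.sum_comp e.toEquiv]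
  apply Finset.sum_congr rfl
  intro v _
  simp only [RingEquiv.toEquiv_eq_coe, EquivLike.coe_coe]
  rw [← hX i hi, ← hY i hi, ← map_mul, ← map_mul, RingEquiv.symm_apply_apply,
    RingEquiv.symm_apply_apply]

/-! ### Points for a prime -/

/-- first coordinate of the point `i` (`i = l` is the point `(1 : 0)`) -/
def px (l i : ℕ) : ℕ := if i = l then 1 else i

/-- second coordinate of the point `i` -/
def py (l i : ℕ) : ℕ := if i = l then 0 else 1

/-- symbol of the form at the point `i` -/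
def qv (l : ℕ) (n : ℤ) (i : ℕ) : ℤ :=
  jacobiSym ((px l i : ℤ) ^ 2 + n * ((px l i : ℤ) * (py l i : ℤ)) - (py l i : ℤ) ^ 2) l

theorem jac_eq {l : ℕ} [Fact l.Prime] (a : ℤ) : jacobiSym a l = quadraticChar (ZMod l) (a : ZMod l) := by
  rw [← jacobiSym.legendreSym.to_jacobiSym]; rfl

theorem pf_prime {l : ℕ} [Fact l.Prime] (hl : l ≠ 2) (n : ℤ) (hn : ¬ (l : ℤ) ∣ n ^ 2 + 4) :
    PF (ZMod l) n (fun z => quadraticChar (ZMod l) z) (range (l + 1)) (qv l n)
      (fun i => (px l i : ZMod l)) (fun i => (py l i : ZMod l)) := by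
  intro h
  have hn' : (n : ZMod l) ^ 2 + 4 ≠ 0 := by
    intro h0
    apply hn
    have : ((n ^ 2 + 4 : ℤ) : ZMod l) = 0 := by push_cast; exact h0
    exact (ZMod.intCast_zmod_eq_zero_iff_dvd _ l).mp this
  have hl0 : l ≠ 0 := (Fact.out : l.Prime).ne_zero
  have : NeZero l := ⟨hl0⟩
  rw [plane hl hn' h, Finset.sum_range_succ]
  congr 1
  · rw [sum_range_zmod (fun i => qv l n i * ∑ v : ZMod l, h (v * (px l i : ℕ)) (v * (py l i : ℕ)))]
    apply Finset.sum_congr rfl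
    intro u _
    have h1 : u.val ≠ l := ne_of_lt (ZMod.val_lt u)
    have hx : px l u.val = u.val := if_neg h1
    have hy : py l u.val = 1 := if_neg h1
    have hq : qv l n u.val = quadraticChar (ZMod l) (u ^ 2 + n * u - 1) := by
      unfold qv
      rw [jac_eq, hx, hy]
      congr 1
      push_cast
      rw [ZMod.natCast_zmod_val]
      ring
    rw [hq, hx, hy, ZMod.natCast_zmod_val]
    simp
  · have hx : px l l = 1 := if_pos rfl
    have hy : py l l = 0 := if_pos rfl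
    have hq : qv l n l = 1 := by
      unfold qv
      rw [hx, hy]
      simp
    beta_reduce
    rw [hq, hx, hy]
    simp

/-! ### Four primes -/

/-- the sawtooth weight -/
def w (m z : ℕ) : ℤ := if z % m = 0 then 0 else 2 * ((z % m : ℕ) : ℤ) - m

/-- the correlation of the weight -/
def WW (m X Y : ℕ) : ℤ := ∑ v ∈ range m, w m (v * X) * w m (v * Y)

/-- idempotents -/
structure Idem (a b c d ea eb ec ed : ℕ) : Prop where
  aa : (ea : ZMod a) = 1
  ab : (eb : ZMod a) = 0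
  ac : (ec : ZMod a) = 0
  ad : (ed : ZMod a) = 0
  ba : (ea : ZMod b) = 0
  bb : (eb : ZMod b) = 1
  bc : (ec : ZMod b) = 0
  bd : (ed : ZMod b) = 0
  ca : (ea : ZMod c) = 0
  cb : (eb : ZMod c) = 0
  cc : (ec : ZMod c) = 1
  cd : (ed : ZMod c) = 0
  da : (ea : ZMod d) = 0
  db : (eb : ZMod d) = 0
  dc : (ec : ZMod d) = 0
  dd : (ed : ZMod d) = 1

theorem Idem.of {a b c d ea eb ec ed : ℕ} (h : ((ea % a = 1 % a ∧ eb % a = 0 ∧ ec % a = 0 ∧ ed % a = 0) ∧
    (ea % b = 0 ∧ eb % b = 1 % b ∧ ec % b = 0 ∧ ed % b = 0)) ∧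
    ((ea % c = 0 ∧ eb % c = 0 ∧ ec % c = 1 % c ∧ ed % c = 0) ∧
    (ea % d = 0 ∧ eb % d = 0 ∧ ec % d = 0 ∧ ed % d = 1 % d))) : Idem a b c d ea eb ec ed := by
  obtain ⟨⟨⟨h1, h2, h3, h4⟩, h5, h6, h7, h8⟩, ⟨h9, h10, h11, h12⟩, h13, h14, h15, h16⟩ := h
  have one : ∀ l e : ℕ, e % l = 1 % l → (e : ZMod l) = 1 := fun l e h => by
    have := (ZMod.natCast_eq_natCast_iff e 1 l).mpr h
    simpa using this
  have zero : ∀ l e : ℕ, e % l = 0 → (e : ZMod l) = 0 := fun l e h =>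
    (ZMod.natCast_eq_zero_iff e l).mpr (Nat.dvd_of_mod_eq_zero h)
  exact ⟨one _ _ h1, zero _ _ h2, zero _ _ h3, zero _ _ h4, zero _ _ h5, one _ _ h6, zero _ _ h7,
    zero _ _ h8, zero _ _ h9, zero _ _ h10, one _ _ h11, zero _ _ h12, zero _ _ h13, zero _ _ h14,
    zero _ _ h15, one _ _ h16⟩

/-- the combination of four residues -/
def comb (ea eb ec ed x y z t : ℕ) : ℕ := ea * x + eb * y + ec * z + ed * t

theorem Idem.comb {a b c d ea eb ec ed : ℕ} (h : Idem a b c d ea eb ec ed) (x y z t : ℕ) :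
    ((comb ea eb ec ed x y z t : ℕ) : ((ZMod a × ZMod b) × ZMod c) × ZMod d) =
      (((( x : ZMod a), (y : ZMod b)), (z : ZMod c)), (t : ZMod d)) := by
  unfold Pool.Agent.N911.L.comb
  refine Prod.ext (Prod.ext (Prod.ext ?_ ?_) ?_) ?_
  · show ((ea * x + eb * y + ec * z + ed * t : ℕ) : ZMod a) = x
    push_cast
    rw [h.aa, h.ab, h.ac, h.ad]; ring
  · show ((ea * x + eb * y + ec * z + ed * t : ℕ) : ZMod b) = y
    push_cast
    rw [h.ba, h.bb, h.bc, h.bd]; ring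
  · show ((ea * x + eb * y + ec * z + ed * t : ℕ) : ZMod c) = z
    push_cast
    rw [h.ca, h.cb, h.cc, h.cd]; ring
  · show ((ea * x + eb * y + ec * z + ed * t : ℕ) : ZMod d) = t
    push_cast
    rw [h.da, h.db, h.dc, h.dd]; ring

/-- **The tensor formula.** -/
theorem SEr_tensor (δ : ℤ) {a b c d : ℕ} (ha : a.Prime) (hb : b.Prime) (hc : c.Prime)
    (hd : d.Prime) (ha2 : a ≠ 2) (hb2 : b ≠ 2) (hc2 : c ≠ 2) (hd2 : d ≠ 2) (hab : a ≠ b)
    (hac : a ≠ c) (had : a ≠ d) (hbc : b ≠ c) (hbd : b ≠ d) (hcd : c ≠ d) {n : ℕ}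
    (na : ¬ (a : ℤ) ∣ (n : ℤ) ^ 2 + 4) (nb : ¬ (b : ℤ) ∣ (n : ℤ) ^ 2 + 4)
    (nc : ¬ (c : ℤ) ∣ (n : ℤ) ^ 2 + 4) (nd : ¬ (d : ℤ) ∣ (n : ℤ) ^ 2 + 4) {ea eb ec ed : ℕ}
    (hid : Idem a b c d ea eb ec ed) :
    SEr δ {a, b, c, d} n = ∑ i ∈ range (a + 1), ∑ j ∈ range (b + 1), ∑ k ∈ range (c + 1),
      ∑ t ∈ range (d + 1), qv a n i * qv b n j * qv c n k * qv d n t *
        WW (a * b * c * d) (comb ea eb ec ed (px a i) (px b j) (px c k) (px d t))
          (comb ea eb ec ed (py a i) (py b j) (py c k) (py d t)) := by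
  have := Fact.mk ha
  have := Fact.mk hb
  have := Fact.mk hc
  have := Fact.mk hd
  have cab : a.Coprime b := (Nat.coprime_primes ha hb).mpr hab
  have cabc : (a * b).Coprime c := Nat.Coprime.mul_left ((Nat.coprime_primes ha hc).mpr hac)
    ((Nat.coprime_primes hb hc).mpr hbc)
  have cabcd : (a * b * c).Coprime d := Nat.Coprime.mul_left (Nat.Coprime.mul_left
    ((Nat.coprime_primes ha hd).mpr had) ((Nat.coprime_primes hb hd).mpr hbd))
    ((Nat.coprime_primes hc hd).mpr hcd)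
  set m := a * b * c * d with hm
  have hm0 : m ≠ 0 := by
    rw [hm]
    exact mul_ne_zero (mul_ne_zero (mul_ne_zero ha.ne_zero hb.ne_zero) hc.ne_zero) hd.ne_zero
  have : NeZero m := ⟨hm0⟩
  have hcond : Pool.Agent.N367.LE.cond {a, b, c, d} = m := by
    unfold Pool.Agent.N367.LE.cond
    rw [Finset.prod_insert (by simp [hab, hac, had]), Finset.prod_insert (by simp [hbc, hbd]),
      Finset.prod_insert (by simp [hcd]), Finset.prod_singleton]
    simp only [Pool.Agent.N367.LE.cb, if_neg ha2, if_neg hb2, if_neg hc2, if_neg hd2, hm]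
    ring
  have hpsi : ∀ z : ℤ, psi δ {a, b, c, d} z = jacobiSym z a * jacobiSym z b * jacobiSym z c *
      jacobiSym z d := by
    intro z
    unfold psi
    rw [Finset.prod_insert (by simp [hab, hac, had]), Finset.prod_insert (by simp [hbc, hbd]),
      Finset.prod_insert (by simp [hcd]), Finset.prod_singleton]
    simp only [sval, if_neg ha2, if_neg hb2, if_neg hc2, if_neg hd2]
    ring
  let e : ZMod m ≃+* ((ZMod a × ZMod b) × ZMod c) × ZMod d :=
    (ZMod.chineseRemainder cabcd).trans (RingEquiv.prodCongr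
      ((ZMod.chineseRemainder cabc).trans (RingEquiv.prodCongr (ZMod.chineseRemainder cab)
        (RingEquiv.refl _))) (RingEquiv.refl _))
  have P := (((pf_prime ha2 (n : ℤ) na).prod (pf_prime hb2 (n : ℤ) nb)).prod
    (pf_prime hc2 (n : ℤ) nc)).prod (pf_prime hd2 (n : ℤ) nd)
  have hval : ∀ z : ZMod m, e z = ((z.val : ℕ) : ((ZMod a × ZMod b) × ZMod c) × ZMod d) := by
    intro z
    conv_lhs => rw [← ZMod.natCast_zmod_val z]
    exact map_natCast e _
  have P' := P.equiv e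
    (X' := fun i => ((comb ea eb ec ed (px a i.1.1.1) (px b i.1.1.2) (px c i.1.2) (px d i.2) : ℕ) : ZMod m))
    (Y' := fun i => ((comb ea eb ec ed (py a i.1.1.1) (py b i.1.1.2) (py c i.1.2) (py d i.2) : ℕ) : ZMod m))
    (fun i _ => by rw [map_natCast, hid.comb]) (fun i _ => by rw [map_natCast, hid.comb])
    (g' := fun z => psi δ {a, b, c, d} (z.val : ℤ)) (fun z => by
      rw [hval, hpsi, jac_eq, jac_eq, jac_eq, jac_eq]
      simp)
  have P2 := P' (fun x y => w m x.val * w m y.val)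
  unfold SEr
  rw [hcond, sum2_range]
  have l1 : ∀ x y : ZMod m, psi δ {a, b, c, d} ((x.val : ℤ) ^ 2 + n * ((x.val : ℤ) * (y.val : ℤ)) -
      (y.val : ℤ) ^ 2) * (if x.val = 0 ∨ y.val = 0 then 0 else
        (2 * (x.val : ℤ) - m) * (2 * (y.val : ℤ) - m)) =
      psi δ {a, b, c, d} ((x ^ 2 + ((n : ℤ) : ZMod m) * (x * y) - y ^ 2).val : ℤ) *
        (w m x.val * w m y.val) := by
    intro x y
    congr 1
    · apply psi_mod
      rw [hcond]
      apply (ZMod.intCast_zmod_eq_zero_iff_dvd _ m).mp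
      push_cast
      simp only [ZMod.natCast_zmod_val]
      ring
    · unfold w
      rw [Nat.mod_eq_of_lt (ZMod.val_lt x), Nat.mod_eq_of_lt (ZMod.val_lt y)]
      by_cases h1 : x.val = 0
      · simp [h1]
      · by_cases h2 : y.val = 0
        · simp [h2]
        · simp [h1, h2]
  rw [Finset.sum_congr rfl (fun x _ => Finset.sum_congr rfl (fun y _ => l1 x y)), P2]
  rw [Finset.sum_product, Finset.sum_product, Finset.sum_product]
  apply Finset.sum_congr rfl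
  intro i _
  apply Finset.sum_congr rfl
  intro j _
  apply Finset.sum_congr rfl
  intro k _
  apply Finset.sum_congr rfl
  intro t _
  congr 1
  unfold WW
  rw [sum_range_zmod (fun v => w m (v * _) * w m (v * _))]
  apply Finset.sum_congr rfl
  intro v _
  have hw : ∀ X : ℕ, w m (v * (X : ZMod m)).val = w m (v.val * X) := by
    intro X
    unfold w
    rw [ZMod.val_mul, ZMod.val_natCast, Nat.mod_mod, Nat.mul_mod_mod]
  rw [hw, hw]

end Pool.Agent.N911.L
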