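import Pool.Agent.N911.L.S2
import Pool.Agent.N348.LE.Bit
import Pool.Agent.N861.LEsy
import Pool.Agent.N367.LE.Stm2

/-! From the congruences to the relations of the search. -/

namespace Pool.Agent.N911.L

open H419R2 Pool.Agent.N911 Pool.Agent.N367.LE Finset

/-- comparison of sixteen bits with the function `RT` -/
noncomputable def rtk (l1 l2 l3 l4 R : ℕ) : Bool :=
  [false, true].all fun a => [false, true].all fun b => [false, true].all fun c =>
    [false, true].all fun d => Nat.beq (@Bool.rec (fun _ => ℕ) 0 1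
      (Pool.Agent.N348.LE.RT 8 [l1, l2, l3, l4] [a, b, c, d]))
      (Nat.mod (Nat.shiftRight R (Nat.add (@Bool.rec (fun _ => ℕ) 0 8 a)
        (Nat.add (@Bool.rec (fun _ => ℕ) 0 4 b) (Nat.add (@Bool.rec (fun _ => ℕ) 0 2 c)
          (@Bool.rec (fun _ => ℕ) 0 1 d))))) 2)

theorem rtk_sound {l1 l2 l3 l4 R : ℕ} (h : rtk l1 l2 l3 l4 R = true) (a b c d : Bool) :
    (if Pool.Agent.N348.LE.RT 8 [l1, l2, l3, l4] [a, b, c, d] = true then 1 else 0) =
      (R >>> ((if a = true then 8 else 0) + ((if b = true then 1 else 0) * 4 +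
      ((if c = true then 1 else 0) * 2 + (if d = true then 1 else 0))))) % 2 := by
  have hm : ∀ x : Bool, x ∈ [false, true] := by decide
  unfold rtk at h
  have h1 := List.all_eq_true.mp (List.all_eq_true.mp (List.all_eq_true.mp
    (List.all_eq_true.mp h a (hm a)) b (hm b)) c (hm c)) d (hm d)
  have h2 := Nat.eq_of_beq_eq_true h1
  have h3 : (if Pool.Agent.N348.LE.RT 8 [l1, l2, l3, l4] [a, b, c, d] = true then 1 else 0) =
      (@Bool.rec (fun _ => ℕ) 0 1 (Pool.Agent.N348.LE.RT 8 [l1, l2, l3, l4] [a, b, c, d])) := by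
    cases Pool.Agent.N348.LE.RT 8 [l1, l2, l3, l4] [a, b, c, d] <;> rfl
  rw [h3, h2]
  cases a <;> cases b <;> cases c <;> cases d <;> rfl

theorem hol_of {n : ℕ} {e : ℕ → Bool} (hA : AllBit10 n e) {l1 l2 l3 l4 B T R : ℕ}
    (hp : ∀ l ∈ [l1, l2, l3, l4], l.Prime ∧ l ≠ 2) (hnd : [l1, l2, l3, l4].Nodup)
    (hsub : ({l1, l2, l3, l4} : Finset ℕ) ⊆ P10) (hodd : oddB (sgL 8) {l1, l2, l3, l4})
    (hsg : (if l1 % 4 = 3 then (-1 : ℤ) else 1) * ((if l2 % 4 = 3 then (-1 : ℤ) else 1) *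
      ((if l3 % 4 = 3 then (-1 : ℤ) else 1) * (if l4 % 4 = 3 then (-1 : ℤ) else 1))) = -1)
    (tr : trk T B l1 (l2 * l3 * l4) = true) (rt : rtk l1 l2 l3 l4 R = true)
    (hin : ∀ l ∈ ({l1, l2, l3, l4} : Finset ℕ), jacobiSym ((n : ℤ) ^ 2 + 4) l = -1)
    (tbm : (512 : ℤ) ∣ SEr 8 {l1, l2, l3, l4} n -
      256 * (((B >>> (((n % l1 * l2 + n % l2) * l3 + n % l3) * l4 + n % l4)) % 2 : ℕ) : ℤ)) :
    Hol n e l1 l2 l3 l4 T R := by
  have hS : ([l1, l2, l3, l4] : List ℕ).toFinset = {l1, l2, l3, l4} := by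
    simp [List.toFinset_cons]
  have hnd' := hnd
  simp only [List.nodup_cons, List.mem_cons, List.not_mem_nil, or_false, not_or, not_false_eq_true,
    List.nodup_nil, and_true] at hnd'
  obtain ⟨⟨h12, h13, h14⟩, ⟨h23, h24⟩, h34⟩ := hnd'
  have hcard : ({l1, l2, l3, l4} : Finset ℕ).card = 4 := by
    rw [← hS, List.toFinset_card_of_nodup hnd]; rfl
  have p1 := hp l1 (by simp)
  have p2 := hp l2 (by simp)
  have p3 := hp l3 (by simp)
  have p4 := hp l4 (by simp)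
  have h2n : 2 ∉ ({l1, l2, l3, l4} : Finset ℕ) := by
    simp only [Finset.mem_insert, Finset.mem_singleton, not_or]
    exact ⟨p1.2.symm, p2.2.symm, p3.2.symm, p4.2.symm⟩
  have hB := hA 8 {l1, l2, l3, l4} (Or.inl rfl) hsub (fun l hl _ => hin l hl) hodd
  unfold BitRel at hB
  have hc2 : c2 ({l1, l2, l3, l4} : Finset ℕ) = 1 := if_neg h2n
  rw [hc2, hcard] at hB
  have hpsi : psi 8 ({l1, l2, l3, l4} : Finset ℕ) (-1) = -1 := by
    unfold psi
    rw [Finset.prod_insert (by simp [h12, h13, h14]), Finset.prod_insert (by simp [h23, h24]),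
      Finset.prod_insert (by simp [h34]), Finset.prod_singleton,
      sval_neg_one 8 (Or.inl rfl) p1.1, sval_neg_one 8 (Or.inl rfl) p2.1,
      sval_neg_one 8 (Or.inl rfl) p3.1, sval_neg_one 8 (Or.inl rfl) p4.1]
    simp only [if_neg p1.2, if_neg p2.2, if_neg p3.2, if_neg p4.2]
    exact hsg
  have hSY := Pool.Agent.N861.LEsy.sy 8 {l1, l2, l3, l4} n (fun l hl => by
    simp only [Finset.mem_insert, Finset.mem_singleton] at hl
    rcases hl with rfl | rfl | rfl | rfl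
    · exact p1
    · exact p2
    · exact p3
    · exact p4) hin hpsi
  rw [hcard] at hSY
  have hbit := Pool.Agent.N348.LE.bit_RT 8 (Or.inl rfl) e [l1, l2, l3, l4] hnd
    (fun l hl => (hp l hl).1)
  rw [hS] at hbit
  have hmap : [l1, l2, l3, l4].map e = [e l1, e l2, e l3, e l4] := rfl
  rw [hmap, rtk_sound rt] at hbit
  unfold Hol
  have hlt1 : n % l1 < l1 := Nat.mod_lt n p1.1.pos
  have hx : (n % l2 * l3 + n % l3) * l4 + n % l4 < l2 * l3 * l4 := by
    have a2 : n % l2 < l2 := Nat.mod_lt n p2.1.pos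
    have a3 : n % l3 < l3 := Nat.mod_lt n p3.1.pos
    have a4 : n % l4 < l4 := Nat.mod_lt n p4.1.pos
    have b1 : n % l2 * l3 + n % l3 + 1 ≤ l2 * l3 := by
      calc n % l2 * l3 + n % l3 + 1 ≤ n % l2 * l3 + l3 := by omega
        _ = (n % l2 + 1) * l3 := by ring
        _ ≤ l2 * l3 := Nat.mul_le_mul_right _ a2
    calc (n % l2 * l3 + n % l3) * l4 + n % l4 < (n % l2 * l3 + n % l3) * l4 + l4 := by omega
      _ = (n % l2 * l3 + n % l3 + 1) * l4 := by ring
      _ ≤ l2 * l3 * l4 := Nat.mul_le_mul_right _ b1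
  rw [trk_sound tr hlt1 hx, ← hbit]
  have hidx : n % l1 * (l2 * l3 * l4) + ((n % l2 * l3 + n % l3) * l4 + n % l4) =
      ((n % l1 * l2 + n % l2) * l3 + n % l3) * l4 + n % l4 := by ring
  rw [hidx]
  set Bb := (B >>> (((n % l1 * l2 + n % l2) * l3 + n % l3) * l4 + n % l4)) % 2 with hBb
  have hB2 : Bb < 2 := Nat.mod_lt _ (by norm_num)
  set bt := bit 8 e {l1, l2, l3, l4} with hbt
  obtain ⟨u, hu⟩ := hB
  obtain ⟨v, hv⟩ := hSY
  obtain ⟨z, hz⟩ := tbm
  norm_num at hu hv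
  have key : 256 * (bt : ℤ) = 768 * (Bb : ℤ) + 512 * (3 * z + n * v - u) := by
    linear_combination (-1) * hu + (n : ℤ) * hv + 3 * hz
  omega

end Pool.Agent.N911.L
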