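import Pool.Agent.N911.L.S2

/-! Transposed tables, checks. -/

namespace Pool.Agent.N911.L

open H419R2 Pool.Agent.N911 Pool.Agent.N156.HT

theorem tr1155 : trk TT1155 BT1155 11 105 = true := by decide +kernel

theorem tr1995 : trk TT1995 BT1995 19 105 = true := by decide +kernel

theorem tr2415 : trk TT2415 BT2415 23 105 = true := by decide +kernel

theorem tr3003 : trk TT3003 BT3003 13 231 = true := by decide +kernel

theorem tr3135 : trk TT3135 BT3135 19 165 = true := by decide +kernel

theorem tr3255 : trk TT3255 BT3255 31 105 = true := by decide +kernel

theorem tr3315 : trk TT3315 BT3315 17 195 = true := by decide +kernel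

theorem tr3795 : trk TT3795 BT3795 23 165 = true := by decide +kernel

theorem tr3927 : trk TT3927 BT3927 17 231 = true := by decide +kernel

theorem tr5115 : trk TT5115 BT5115 31 165 = true := by decide +kernel

theorem tr5187 : trk TT5187 BT5187 19 273 = true := by decide +kernel

theorem tr5655 : trk TT5655 BT5655 29 195 = true := by decide +kernel

theorem tr6279 : trk TT6279 BT6279 23 273 = true := by decide +kernel

theorem tr6699 : trk TT6699 BT6699 29 231 = true := by decide +kernel

theorem tr6783 : trk TT6783 BT6783 19 357 = true := by decide +kernel

theorem tr7395 : trk TT7395 BT7395 29 255 = true := by decide +kernel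

theorem tr8151 : trk TT8151 BT8151 19 429 = true := by decide +kernel

theorem tr8211 : trk TT8211 BT8211 23 357 = true := by decide +kernel

theorem tr8463 : trk TT8463 BT8463 31 273 = true := by decide +kernel

end Pool.Agent.N911.L
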