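import Pool.Agent.N911.L.S2

/-! Transposed tables, checks. -/

namespace Pool.Agent.N911.L

open H419R2 Pool.Agent.N911 Pool.Agent.N156.HT

theorem tr8835 : trk TT8835 BT8835 31 285 = true := by decide +kernel

theorem tr8855 : trk TT8855 BT8855 23 385 = true := by decide +kernel

theorem tr9867 : trk TT9867 BT9867 23 429 = true := by decide +kernel

theorem tr10659 : trk TT10659 BT10659 19 561 = true := by decide +kernel

theorem tr10695 : trk TT10695 BT10695 31 345 = true := by decide +kernel

theorem tr11067 : trk TT11067 BT11067 31 357 = true := by decide +kernel

theorem tr11571 : trk TT11571 BT11571 29 399 = true := by decide +kernel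

theorem tr12903 : trk TT12903 BT12903 23 561 = true := by decide +kernel

end Pool.Agent.N911.L
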