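import Pool.Agent.N911.L.S2

/-! Transposed tables, checks. -/

namespace Pool.Agent.N911.L

open H419R2 Pool.Agent.N911 Pool.Agent.N156.HT

theorem tr13299 : trk TT13299 BT13299 31 429 = true := by decide +kernel

theorem tr14007 : trk TT14007 BT14007 29 483 = true := by decide +kernel

theorem tr19019 : trk TT19019 BT19019 19 1001 = true := by decide +kernel

theorem tr19227 : trk TT19227 BT19227 29 663 = true := by decide +kernel

end Pool.Agent.N911.L
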