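import Pool.Agent.N911.L.S2

/-! Transposed tables, checks. -/

namespace Pool.Agent.N911.L

open H419R2 Pool.Agent.N911 Pool.Agent.N156.HT

theorem tr22011 : trk TT22011 BT22011 29 759 = true := by decide +kernel

theorem tr22287 : trk TT22287 BT22287 23 969 = true := by decide +kernel

theorem tr24871 : trk TT24871 BT24871 19 1309 = true := by decide +kernel

end Pool.Agent.N911.L
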