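import Pool.Agent.N911.L.S2

/-! The five searches: data. -/

namespace Pool.Agent.N911.L

open H419R2 Pool.Agent.N911

/-- the inert branch -/
def VI (im : ℕ) : LVs :=
  LVs.cons 3 8 7 im true true RLL.nil (
  LVs.cons 5 32 31 12 true true RLL.nil (
  LVs.cons 7 128 127 90 true true RLL.nil (
  LVs.cons 11 2048 2047 876 true true (RLL.cons 5 3 0 6 12 TT1155 0x420
      RLL.nil) (
  LVs.cons 13 8192 8191 6678 true true (RLL.cons 7 3 0 6 18 TT3003 0x240
      RLL.nil) (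
  LVs.cons 17 131072 131071 79986 true true (RLL.cons 5 3 0 18 24 TT3315 0x1428
      (RLL.cons 7 3 6 12 24 TT3927 0xe997
      RLL.nil)) (
  LVs.cons 19 524288 524287 225516 true true (RLL.cons 5 3 18 24 30 TT1995 0xfbdf
      (RLL.cons 5 3 12 24 30 TT3135 0x0
      (RLL.cons 7 3 6 18 30 TT5187 0x0
      (RLL.cons 7 3 0 18 30 TT6783 0xeff7
      (RLL.cons 11 3 6 12 30 TT8151 0x420
      (RLL.cons 11 3 0 12 30 TT10659 0x1008
      (RLL.cons 11 7 6 12 18 TT19019 0x420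
      (RLL.cons 11 7 0 12 18 TT24871 0x0
      RLL.nil)))))))) (
  LVs.cons 23 8388608 8388607 4954578 true true (RLL.cons 5 3 24 30 36 TT2415 0xe997
      (RLL.cons 5 3 18 30 36 TT3795 0x0
      (RLL.cons 7 3 12 24 36 TT6279 0x0
      (RLL.cons 7 3 6 24 36 TT8211 0xe997
      (RLL.cons 7 5 18 24 30 TT8855 0xfbdf
      (RLL.cons 11 3 12 18 36 TT9867 0x0
      (RLL.cons 11 3 6 18 36 TT12903 0x1008
      (RLL.cons 17 3 0 6 36 TT22287 0x240
      RLL.nil)))))))) (
  LVs.cons 29 536870912 536870911 146462532 true true (RLL.cons 5 3 18 36 42 TT5655 0xebd7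
      (RLL.cons 7 3 24 30 42 TT6699 0x420
      (RLL.cons 5 3 12 36 42 TT7395 0x1248
      (RLL.cons 7 3 6 30 42 TT11571 0x0
      (RLL.cons 7 3 0 30 42 TT14007 0x0
      (RLL.cons 13 3 12 18 42 TT19227 0x0
      (RLL.cons 11 3 0 24 42 TT22011 0xeff7
      RLL.nil))))))) (
  LVs.cons 31 2147483648 2147483647 367630248 true true (RLL.cons 5 3 36 42 48 TT3255 0xfbdf
      (RLL.cons 5 3 30 42 48 TT5115 0x0
      (RLL.cons 7 3 24 36 48 TT8463 0x0
      (RLL.cons 5 3 12 42 48 TT8835 0x0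
      (RLL.cons 5 3 6 42 48 TT10695 0x0
      (RLL.cons 7 3 18 36 48 TT11067 0x1008
      (RLL.cons 11 3 24 30 48 TT13299 0xfbdf
      RLL.nil))))))) (
  LVs.nil))))))))))

/-- the branch where 5 is ramified -/
def VR5 : LVs :=
  LVs.cons 3 8 7 6 false true RLL.nil (
  LVs.cons 7 128 127 90 false true RLL.nil (
  LVs.cons 11 2048 2047 876 true false RLL.nil (
  LVs.cons 13 8192 8191 6678 false true (RLL.cons 7 3 0 6 12 TT3003 0x240
      RLL.nil) (
  LVs.cons 17 131072 131071 79986 false true (RLL.cons 7 3 6 12 18 TT3927 0xe997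
      RLL.nil) (
  LVs.cons 19 524288 524287 225516 true false (RLL.cons 7 3 6 18 24 TT5187 0x0
      (RLL.cons 7 3 0 18 24 TT6783 0xeff7
      (RLL.cons 11 3 6 12 24 TT8151 0x420
      (RLL.cons 11 3 0 12 24 TT10659 0x1008
      (RLL.cons 11 7 6 12 18 TT19019 0x420
      (RLL.cons 11 7 0 12 18 TT24871 0x0
      RLL.nil)))))) (
  LVs.cons 23 8388608 8388607 4954578 false true (RLL.cons 7 3 12 24 30 TT6279 0x0
      (RLL.cons 7 3 6 24 30 TT8211 0xe997
      (RLL.cons 11 3 12 18 30 TT9867 0x0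
      (RLL.cons 11 3 6 18 30 TT12903 0x1008
      (RLL.cons 17 3 0 6 30 TT22287 0x240
      RLL.nil))))) (
  LVs.cons 29 536870912 536870911 146462532 true false (RLL.cons 7 3 24 30 36 TT6699 0x420
      (RLL.cons 7 3 6 30 36 TT11571 0x0
      (RLL.cons 7 3 0 30 36 TT14007 0x0
      (RLL.cons 13 3 12 18 36 TT19227 0x0
      (RLL.cons 11 3 0 24 36 TT22011 0xeff7
      RLL.nil))))) (
  LVs.cons 31 2147483648 2147483647 367630248 true false (RLL.cons 7 3 24 36 42 TT8463 0x0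
      (RLL.cons 7 3 18 36 42 TT11067 0x1008
      (RLL.cons 11 3 24 30 42 TT13299 0xfbdf
      RLL.nil))) (
  LVs.nil)))))))))

/-- the branch where 13 is ramified -/
def VR13 : LVs :=
  LVs.cons 3 8 7 6 true false RLL.nil (
  LVs.cons 5 32 31 12 false true RLL.nil (
  LVs.cons 7 128 127 90 false true RLL.nil (
  LVs.cons 11 2048 2047 876 false true (RLL.cons 5 3 0 6 12 TT1155 0x420
      RLL.nil) (
  LVs.cons 17 131072 131071 79986 true false (RLL.cons 7 3 0 6 18 TT3927 0xe997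
      RLL.nil) (
  LVs.cons 19 524288 524287 225516 false true (RLL.cons 5 3 12 18 24 TT1995 0xfbdf
      (RLL.cons 5 3 6 18 24 TT3135 0x0
      (RLL.cons 7 3 0 12 24 TT6783 0xeff7
      (RLL.cons 11 3 0 6 24 TT10659 0x1008
      (RLL.cons 11 7 0 6 12 TT24871 0x0
      RLL.nil))))) (
  LVs.cons 23 8388608 8388607 4954578 true false (RLL.cons 5 3 18 24 30 TT2415 0xe997
      (RLL.cons 5 3 12 24 30 TT3795 0x0
      (RLL.cons 7 3 6 18 30 TT8211 0xe997
      (RLL.cons 7 5 12 18 24 TT8855 0xfbdf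
      (RLL.cons 11 3 6 12 30 TT12903 0x1008
      (RLL.cons 17 3 0 6 30 TT22287 0x240
      RLL.nil)))))) (
  LVs.cons 29 536870912 536870911 146462532 true false (RLL.cons 7 3 18 24 36 TT6699 0x420
      (RLL.cons 5 3 12 30 36 TT7395 0x1248
      (RLL.cons 7 3 6 24 36 TT11571 0x0
      (RLL.cons 7 3 0 24 36 TT14007 0x0
      (RLL.cons 11 3 0 18 36 TT22011 0xeff7
      RLL.nil))))) (
  LVs.cons 31 2147483648 2147483647 367630248 false true (RLL.cons 5 3 30 36 42 TT3255 0xfbdf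
      (RLL.cons 5 3 24 36 42 TT5115 0x0
      (RLL.cons 5 3 12 36 42 TT8835 0x0
      (RLL.cons 5 3 6 36 42 TT10695 0x0
      (RLL.cons 7 3 18 30 42 TT11067 0x1008
      RLL.nil))))) (
  LVs.nil)))))))))

/-- the branch where 17 is ramified -/
def VR17 : LVs :=
  LVs.cons 3 8 7 6 false true RLL.nil (
  LVs.cons 5 32 31 12 false true RLL.nil (
  LVs.cons 7 128 127 90 false true RLL.nil (
  LVs.cons 11 2048 2047 876 false true (RLL.cons 5 3 0 6 12 TT1155 0x420
      RLL.nil) (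
  LVs.cons 13 8192 8191 6678 true false (RLL.cons 7 3 0 6 18 TT3003 0x240
      RLL.nil) (
  LVs.cons 19 524288 524287 225516 true false (RLL.cons 5 3 12 18 24 TT1995 0xfbdf
      (RLL.cons 5 3 6 18 24 TT3135 0x0
      (RLL.cons 7 3 0 12 24 TT5187 0x0
      (RLL.cons 11 3 0 6 24 TT8151 0x420
      (RLL.cons 11 7 0 6 12 TT19019 0x420
      RLL.nil))))) (
  LVs.cons 23 8388608 8388607 4954578 false true (RLL.cons 5 3 18 24 30 TT2415 0xe997
      (RLL.cons 5 3 12 24 30 TT3795 0x0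
      (RLL.cons 7 3 6 18 30 TT6279 0x0
      (RLL.cons 7 5 12 18 24 TT8855 0xfbdf
      (RLL.cons 11 3 6 12 30 TT9867 0x0
      RLL.nil))))) (
  LVs.cons 29 536870912 536870911 146462532 false true (RLL.cons 5 3 12 30 36 TT5655 0xebd7
      (RLL.cons 7 3 18 24 36 TT6699 0x420
      (RLL.cons 7 3 6 24 36 TT11571 0x0
      (RLL.cons 7 3 0 24 36 TT14007 0x0
      (RLL.cons 11 3 0 18 36 TT22011 0xeff7
      RLL.nil))))) (
  LVs.cons 31 2147483648 2147483647 367630248 false true (RLL.cons 5 3 30 36 42 TT3255 0xfbdf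
      (RLL.cons 5 3 24 36 42 TT5115 0x0
      (RLL.cons 7 3 18 30 42 TT8463 0x0
      (RLL.cons 5 3 12 36 42 TT8835 0x0
      (RLL.cons 5 3 6 36 42 TT10695 0x0
      (RLL.cons 11 3 18 24 42 TT13299 0xfbdf
      RLL.nil)))))) (
  LVs.nil)))))))))

/-- the branch where 29 is ramified -/
def VR29 : LVs :=
  LVs.cons 3 8 7 6 false true RLL.nil (
  LVs.cons 5 32 31 12 true false RLL.nil (
  LVs.cons 7 128 127 90 true false RLL.nil (
  LVs.cons 11 2048 2047 876 false true (RLL.cons 5 3 0 6 12 TT1155 0x420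
      RLL.nil) (
  LVs.cons 13 8192 8191 6678 true false (RLL.cons 7 3 0 6 18 TT3003 0x240
      RLL.nil) (
  LVs.cons 17 131072 131071 79986 false true (RLL.cons 5 3 0 18 24 TT3315 0x1428
      (RLL.cons 7 3 6 12 24 TT3927 0xe997
      RLL.nil)) (
  LVs.cons 19 524288 524287 225516 false true (RLL.cons 5 3 18 24 30 TT1995 0xfbdf
      (RLL.cons 5 3 12 24 30 TT3135 0x0
      (RLL.cons 7 3 6 18 30 TT5187 0x0
      (RLL.cons 7 3 0 18 30 TT6783 0xeff7
      (RLL.cons 11 3 6 12 30 TT8151 0x420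
      (RLL.cons 11 3 0 12 30 TT10659 0x1008
      (RLL.cons 11 7 6 12 18 TT19019 0x420
      (RLL.cons 11 7 0 12 18 TT24871 0x0
      RLL.nil)))))))) (
  LVs.cons 23 8388608 8388607 4954578 true false (RLL.cons 5 3 24 30 36 TT2415 0xe997
      (RLL.cons 5 3 18 30 36 TT3795 0x0
      (RLL.cons 7 3 12 24 36 TT6279 0x0
      (RLL.cons 7 3 6 24 36 TT8211 0xe997
      (RLL.cons 7 5 18 24 30 TT8855 0xfbdf
      (RLL.cons 11 3 12 18 36 TT9867 0x0
      (RLL.cons 11 3 6 18 36 TT12903 0x1008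
      (RLL.cons 17 3 0 6 36 TT22287 0x240
      RLL.nil)))))))) (
  LVs.cons 31 2147483648 2147483647 367630248 false true (RLL.cons 5 3 30 36 42 TT3255 0xfbdf
      (RLL.cons 5 3 24 36 42 TT5115 0x0
      (RLL.cons 7 3 18 30 42 TT8463 0x0
      (RLL.cons 5 3 6 36 42 TT8835 0x0
      (RLL.cons 5 3 0 36 42 TT10695 0x0
      (RLL.cons 7 3 12 30 42 TT11067 0x1008
      (RLL.cons 11 3 18 24 42 TT13299 0xfbdf
      RLL.nil))))))) (
  LVs.nil)))))))))

end Pool.Agent.N911.L
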