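import Pool.Agent.N911.L.R1
import Pool.Agent.N911.L.S3a
import Pool.Agent.N911.L.S3b
import Pool.Agent.N911.L.S3c
import Pool.Agent.N911.L.S3d
import Pool.Agent.N911.L.S4

/-! The relations. -/

namespace Pool.Agent.N911.L

open H419R2 Pool.Agent.N911 Pool.Agent.N367.LE Pool.Agent.N156.HT Finset

/-- the sums of conductor `l1 l2 l3 l4` are given by the table `B` -/
def TBm (l1 l2 l3 l4 B : ℕ) : Prop := ∀ (d : ℤ) (n : ℕ),
  (∀ l ∈ ({l1, l2, l3, l4} : Finset ℕ), jacobiSym ((n : ℤ) ^ 2 + 4) l = -1) →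
  (512 : ℤ) ∣ SEr d {l1, l2, l3, l4} n -
    256 * (((B >>> (((n % l1 * l2 + n % l2) * l3 + n % l3) * l4 + n % l4)) % 2 : ℕ) : ℤ)

/-- all tables -/
structure AllTB : Prop where
  t1155 : TBm 11 7 5 3 BT1155
  t1995 : TBm 19 7 5 3 BT1995
  t2415 : TBm 23 7 5 3 BT2415
  t3003 : TBm 13 11 7 3 BT3003
  t3135 : TBm 19 11 5 3 BT3135
  t3255 : TBm 31 7 5 3 BT3255
  t3315 : TBm 17 13 5 3 BT3315
  t3795 : TBm 23 11 5 3 BT3795
  t3927 : TBm 17 11 7 3 BT3927
  t5115 : TBm 31 11 5 3 BT5115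
  t5187 : TBm 19 13 7 3 BT5187
  t5655 : TBm 29 13 5 3 BT5655
  t6279 : TBm 23 13 7 3 BT6279
  t6699 : TBm 29 11 7 3 BT6699
  t6783 : TBm 19 17 7 3 BT6783
  t7395 : TBm 29 17 5 3 BT7395
  t8151 : TBm 19 13 11 3 BT8151
  t8211 : TBm 23 17 7 3 BT8211
  t8463 : TBm 31 13 7 3 BT8463
  t8835 : TBm 31 19 5 3 BT8835
  t8855 : TBm 23 11 7 5 BT8855
  t9867 : TBm 23 13 11 3 BT9867
  t10659 : TBm 19 17 11 3 BT10659
  t10695 : TBm 31 23 5 3 BT10695
  t11067 : TBm 31 17 7 3 BT11067
  t11571 : TBm 29 19 7 3 BT11571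
  t12903 : TBm 23 17 11 3 BT12903
  t13299 : TBm 31 13 11 3 BT13299
  t14007 : TBm 29 23 7 3 BT14007
  t19019 : TBm 19 13 11 7 BT19019
  t19227 : TBm 29 17 13 3 BT19227
  t22011 : TBm 29 23 11 3 BT22011
  t22287 : TBm 23 19 17 3 BT22287
  t24871 : TBm 19 17 11 7 BT24871

theorem hl1155 (H : AllTB) {n : ℕ} {e : ℕ → Bool} (hA : AllBit10 n e)
    (hin : ∀ l ∈ ({11, 7, 5, 3} : Finset ℕ), jacobiSym ((n : ℤ) ^ 2 + 4) l = -1) :
    Hol n e 11 7 5 3 TT1155 0x420 :=
  hol_of hA (by
    intro l hl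
    simp only [List.mem_cons, List.not_mem_nil, or_false] at hl
    rcases hl with rfl | rfl | rfl | rfl <;> norm_num) (by decide) (by decide)
    (by unfold oddB; decide) (by norm_num) tr1155 (by decide +kernel) hin (H.t1155 8 n hin)

theorem hl1995 (H : AllTB) {n : ℕ} {e : ℕ → Bool} (hA : AllBit10 n e)
    (hin : ∀ l ∈ ({19, 7, 5, 3} : Finset ℕ), jacobiSym ((n : ℤ) ^ 2 + 4) l = -1) :
    Hol n e 19 7 5 3 TT1995 0xfbdf :=
  hol_of hA (by
    intro l hl
    simp only [List.mem_cons, List.not_mem_nil, or_false] at hl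
    rcases hl with rfl | rfl | rfl | rfl <;> norm_num) (by decide) (by decide)
    (by unfold oddB; decide) (by norm_num) tr1995 (by decide +kernel) hin (H.t1995 8 n hin)

theorem hl2415 (H : AllTB) {n : ℕ} {e : ℕ → Bool} (hA : AllBit10 n e)
    (hin : ∀ l ∈ ({23, 7, 5, 3} : Finset ℕ), jacobiSym ((n : ℤ) ^ 2 + 4) l = -1) :
    Hol n e 23 7 5 3 TT2415 0xe997 :=
  hol_of hA (by
    intro l hl
    simp only [List.mem_cons, List.not_mem_nil, or_false] at hl
    rcases hl with rfl | rfl | rfl | rfl <;> norm_num) (by decide) (by decide)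
    (by unfold oddB; decide) (by norm_num) tr2415 (by decide +kernel) hin (H.t2415 8 n hin)

theorem hl3003 (H : AllTB) {n : ℕ} {e : ℕ → Bool} (hA : AllBit10 n e)
    (hin : ∀ l ∈ ({13, 11, 7, 3} : Finset ℕ), jacobiSym ((n : ℤ) ^ 2 + 4) l = -1) :
    Hol n e 13 11 7 3 TT3003 0x240 :=
  hol_of hA (by
    intro l hl
    simp only [List.mem_cons, List.not_mem_nil, or_false] at hl
    rcases hl with rfl | rfl | rfl | rfl <;> norm_num) (by decide) (by decide)
    (by unfold oddB; decide) (by norm_num) tr3003 (by decide +kernel) hin (H.t3003 8 n hin)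

theorem hl3135 (H : AllTB) {n : ℕ} {e : ℕ → Bool} (hA : AllBit10 n e)
    (hin : ∀ l ∈ ({19, 11, 5, 3} : Finset ℕ), jacobiSym ((n : ℤ) ^ 2 + 4) l = -1) :
    Hol n e 19 11 5 3 TT3135 0x0 :=
  hol_of hA (by
    intro l hl
    simp only [List.mem_cons, List.not_mem_nil, or_false] at hl
    rcases hl with rfl | rfl | rfl | rfl <;> norm_num) (by decide) (by decide)
    (by unfold oddB; decide) (by norm_num) tr3135 (by decide +kernel) hin (H.t3135 8 n hin)

theorem hl3255 (H : AllTB) {n : ℕ} {e : ℕ → Bool} (hA : AllBit10 n e)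
    (hin : ∀ l ∈ ({31, 7, 5, 3} : Finset ℕ), jacobiSym ((n : ℤ) ^ 2 + 4) l = -1) :
    Hol n e 31 7 5 3 TT3255 0xfbdf :=
  hol_of hA (by
    intro l hl
    simp only [List.mem_cons, List.not_mem_nil, or_false] at hl
    rcases hl with rfl | rfl | rfl | rfl <;> norm_num) (by decide) (by decide)
    (by unfold oddB; decide) (by norm_num) tr3255 (by decide +kernel) hin (H.t3255 8 n hin)

theorem hl3315 (H : AllTB) {n : ℕ} {e : ℕ → Bool} (hA : AllBit10 n e)
    (hin : ∀ l ∈ ({17, 13, 5, 3} : Finset ℕ), jacobiSym ((n : ℤ) ^ 2 + 4) l = -1) :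
    Hol n e 17 13 5 3 TT3315 0x1428 :=
  hol_of hA (by
    intro l hl
    simp only [List.mem_cons, List.not_mem_nil, or_false] at hl
    rcases hl with rfl | rfl | rfl | rfl <;> norm_num) (by decide) (by decide)
    (by unfold oddB; decide) (by norm_num) tr3315 (by decide +kernel) hin (H.t3315 8 n hin)

theorem hl3795 (H : AllTB) {n : ℕ} {e : ℕ → Bool} (hA : AllBit10 n e)
    (hin : ∀ l ∈ ({23, 11, 5, 3} : Finset ℕ), jacobiSym ((n : ℤ) ^ 2 + 4) l = -1) :
    Hol n e 23 11 5 3 TT3795 0x0 :=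
  hol_of hA (by
    intro l hl
    simp only [List.mem_cons, List.not_mem_nil, or_false] at hl
    rcases hl with rfl | rfl | rfl | rfl <;> norm_num) (by decide) (by decide)
    (by unfold oddB; decide) (by norm_num) tr3795 (by decide +kernel) hin (H.t3795 8 n hin)

theorem hl3927 (H : AllTB) {n : ℕ} {e : ℕ → Bool} (hA : AllBit10 n e)
    (hin : ∀ l ∈ ({17, 11, 7, 3} : Finset ℕ), jacobiSym ((n : ℤ) ^ 2 + 4) l = -1) :
    Hol n e 17 11 7 3 TT3927 0xe997 :=
  hol_of hA (by
    intro l hl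
    simp only [List.mem_cons, List.not_mem_nil, or_false] at hl
    rcases hl with rfl | rfl | rfl | rfl <;> norm_num) (by decide) (by decide)
    (by unfold oddB; decide) (by norm_num) tr3927 (by decide +kernel) hin (H.t3927 8 n hin)

theorem hl5115 (H : AllTB) {n : ℕ} {e : ℕ → Bool} (hA : AllBit10 n e)
    (hin : ∀ l ∈ ({31, 11, 5, 3} : Finset ℕ), jacobiSym ((n : ℤ) ^ 2 + 4) l = -1) :
    Hol n e 31 11 5 3 TT5115 0x0 :=
  hol_of hA (by
    intro l hl
    simp only [List.mem_cons, List.not_mem_nil, or_false] at hl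
    rcases hl with rfl | rfl | rfl | rfl <;> norm_num) (by decide) (by decide)
    (by unfold oddB; decide) (by norm_num) tr5115 (by decide +kernel) hin (H.t5115 8 n hin)

theorem hl5187 (H : AllTB) {n : ℕ} {e : ℕ → Bool} (hA : AllBit10 n e)
    (hin : ∀ l ∈ ({19, 13, 7, 3} : Finset ℕ), jacobiSym ((n : ℤ) ^ 2 + 4) l = -1) :
    Hol n e 19 13 7 3 TT5187 0x0 :=
  hol_of hA (by
    intro l hl
    simp only [List.mem_cons, List.not_mem_nil, or_false] at hl
    rcases hl with rfl | rfl | rfl | rfl <;> norm_num) (by decide) (by decide)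
    (by unfold oddB; decide) (by norm_num) tr5187 (by decide +kernel) hin (H.t5187 8 n hin)

theorem hl5655 (H : AllTB) {n : ℕ} {e : ℕ → Bool} (hA : AllBit10 n e)
    (hin : ∀ l ∈ ({29, 13, 5, 3} : Finset ℕ), jacobiSym ((n : ℤ) ^ 2 + 4) l = -1) :
    Hol n e 29 13 5 3 TT5655 0xebd7 :=
  hol_of hA (by
    intro l hl
    simp only [List.mem_cons, List.not_mem_nil, or_false] at hl
    rcases hl with rfl | rfl | rfl | rfl <;> norm_num) (by decide) (by decide)
    (by unfold oddB; decide) (by norm_num) tr5655 (by decide +kernel) hin (H.t5655 8 n hin)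

theorem hl6279 (H : AllTB) {n : ℕ} {e : ℕ → Bool} (hA : AllBit10 n e)
    (hin : ∀ l ∈ ({23, 13, 7, 3} : Finset ℕ), jacobiSym ((n : ℤ) ^ 2 + 4) l = -1) :
    Hol n e 23 13 7 3 TT6279 0x0 :=
  hol_of hA (by
    intro l hl
    simp only [List.mem_cons, List.not_mem_nil, or_false] at hl
    rcases hl with rfl | rfl | rfl | rfl <;> norm_num) (by decide) (by decide)
    (by unfold oddB; decide) (by norm_num) tr6279 (by decide +kernel) hin (H.t6279 8 n hin)

theorem hl6699 (H : AllTB) {n : ℕ} {e : ℕ → Bool} (hA : AllBit10 n e)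
    (hin : ∀ l ∈ ({29, 11, 7, 3} : Finset ℕ), jacobiSym ((n : ℤ) ^ 2 + 4) l = -1) :
    Hol n e 29 11 7 3 TT6699 0x420 :=
  hol_of hA (by
    intro l hl
    simp only [List.mem_cons, List.not_mem_nil, or_false] at hl
    rcases hl with rfl | rfl | rfl | rfl <;> norm_num) (by decide) (by decide)
    (by unfold oddB; decide) (by norm_num) tr6699 (by decide +kernel) hin (H.t6699 8 n hin)

theorem hl6783 (H : AllTB) {n : ℕ} {e : ℕ → Bool} (hA : AllBit10 n e)
    (hin : ∀ l ∈ ({19, 17, 7, 3} : Finset ℕ), jacobiSym ((n : ℤ) ^ 2 + 4) l = -1) :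
    Hol n e 19 17 7 3 TT6783 0xeff7 :=
  hol_of hA (by
    intro l hl
    simp only [List.mem_cons, List.not_mem_nil, or_false] at hl
    rcases hl with rfl | rfl | rfl | rfl <;> norm_num) (by decide) (by decide)
    (by unfold oddB; decide) (by norm_num) tr6783 (by decide +kernel) hin (H.t6783 8 n hin)

theorem hl7395 (H : AllTB) {n : ℕ} {e : ℕ → Bool} (hA : AllBit10 n e)
    (hin : ∀ l ∈ ({29, 17, 5, 3} : Finset ℕ), jacobiSym ((n : ℤ) ^ 2 + 4) l = -1) :
    Hol n e 29 17 5 3 TT7395 0x1248 :=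
  hol_of hA (by
    intro l hl
    simp only [List.mem_cons, List.not_mem_nil, or_false] at hl
    rcases hl with rfl | rfl | rfl | rfl <;> norm_num) (by decide) (by decide)
    (by unfold oddB; decide) (by norm_num) tr7395 (by decide +kernel) hin (H.t7395 8 n hin)

theorem hl8151 (H : AllTB) {n : ℕ} {e : ℕ → Bool} (hA : AllBit10 n e)
    (hin : ∀ l ∈ ({19, 13, 11, 3} : Finset ℕ), jacobiSym ((n : ℤ) ^ 2 + 4) l = -1) :
    Hol n e 19 13 11 3 TT8151 0x420 :=
  hol_of hA (by
    intro l hl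
    simp only [List.mem_cons, List.not_mem_nil, or_false] at hl
    rcases hl with rfl | rfl | rfl | rfl <;> norm_num) (by decide) (by decide)
    (by unfold oddB; decide) (by norm_num) tr8151 (by decide +kernel) hin (H.t8151 8 n hin)

theorem hl8211 (H : AllTB) {n : ℕ} {e : ℕ → Bool} (hA : AllBit10 n e)
    (hin : ∀ l ∈ ({23, 17, 7, 3} : Finset ℕ), jacobiSym ((n : ℤ) ^ 2 + 4) l = -1) :
    Hol n e 23 17 7 3 TT8211 0xe997 :=
  hol_of hA (by
    intro l hl
    simp only [List.mem_cons, List.not_mem_nil, or_false] at hl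
    rcases hl with rfl | rfl | rfl | rfl <;> norm_num) (by decide) (by decide)
    (by unfold oddB; decide) (by norm_num) tr8211 (by decide +kernel) hin (H.t8211 8 n hin)

theorem hl8463 (H : AllTB) {n : ℕ} {e : ℕ → Bool} (hA : AllBit10 n e)
    (hin : ∀ l ∈ ({31, 13, 7, 3} : Finset ℕ), jacobiSym ((n : ℤ) ^ 2 + 4) l = -1) :
    Hol n e 31 13 7 3 TT8463 0x0 :=
  hol_of hA (by
    intro l hl
    simp only [List.mem_cons, List.not_mem_nil, or_false] at hl
    rcases hl with rfl | rfl | rfl | rfl <;> norm_num) (by decide) (by decide)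
    (by unfold oddB; decide) (by norm_num) tr8463 (by decide +kernel) hin (H.t8463 8 n hin)

theorem hl8835 (H : AllTB) {n : ℕ} {e : ℕ → Bool} (hA : AllBit10 n e)
    (hin : ∀ l ∈ ({31, 19, 5, 3} : Finset ℕ), jacobiSym ((n : ℤ) ^ 2 + 4) l = -1) :
    Hol n e 31 19 5 3 TT8835 0x0 :=
  hol_of hA (by
    intro l hl
    simp only [List.mem_cons, List.not_mem_nil, or_false] at hl
    rcases hl with rfl | rfl | rfl | rfl <;> norm_num) (by decide) (by decide)
    (by unfold oddB; decide) (by norm_num) tr8835 (by decide +kernel) hin (H.t8835 8 n hin)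

theorem hl8855 (H : AllTB) {n : ℕ} {e : ℕ → Bool} (hA : AllBit10 n e)
    (hin : ∀ l ∈ ({23, 11, 7, 5} : Finset ℕ), jacobiSym ((n : ℤ) ^ 2 + 4) l = -1) :
    Hol n e 23 11 7 5 TT8855 0xfbdf :=
  hol_of hA (by
    intro l hl
    simp only [List.mem_cons, List.not_mem_nil, or_false] at hl
    rcases hl with rfl | rfl | rfl | rfl <;> norm_num) (by decide) (by decide)
    (by unfold oddB; decide) (by norm_num) tr8855 (by decide +kernel) hin (H.t8855 8 n hin)

theorem hl9867 (H : AllTB) {n : ℕ} {e : ℕ → Bool} (hA : AllBit10 n e)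
    (hin : ∀ l ∈ ({23, 13, 11, 3} : Finset ℕ), jacobiSym ((n : ℤ) ^ 2 + 4) l = -1) :
    Hol n e 23 13 11 3 TT9867 0x0 :=
  hol_of hA (by
    intro l hl
    simp only [List.mem_cons, List.not_mem_nil, or_false] at hl
    rcases hl with rfl | rfl | rfl | rfl <;> norm_num) (by decide) (by decide)
    (by unfold oddB; decide) (by norm_num) tr9867 (by decide +kernel) hin (H.t9867 8 n hin)

theorem hl10659 (H : AllTB) {n : ℕ} {e : ℕ → Bool} (hA : AllBit10 n e)
    (hin : ∀ l ∈ ({19, 17, 11, 3} : Finset ℕ), jacobiSym ((n : ℤ) ^ 2 + 4) l = -1) :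
    Hol n e 19 17 11 3 TT10659 0x1008 :=
  hol_of hA (by
    intro l hl
    simp only [List.mem_cons, List.not_mem_nil, or_false] at hl
    rcases hl with rfl | rfl | rfl | rfl <;> norm_num) (by decide) (by decide)
    (by unfold oddB; decide) (by norm_num) tr10659 (by decide +kernel) hin (H.t10659 8 n hin)

theorem hl10695 (H : AllTB) {n : ℕ} {e : ℕ → Bool} (hA : AllBit10 n e)
    (hin : ∀ l ∈ ({31, 23, 5, 3} : Finset ℕ), jacobiSym ((n : ℤ) ^ 2 + 4) l = -1) :
    Hol n e 31 23 5 3 TT10695 0x0 :=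
  hol_of hA (by
    intro l hl
    simp only [List.mem_cons, List.not_mem_nil, or_false] at hl
    rcases hl with rfl | rfl | rfl | rfl <;> norm_num) (by decide) (by decide)
    (by unfold oddB; decide) (by norm_num) tr10695 (by decide +kernel) hin (H.t10695 8 n hin)

theorem hl11067 (H : AllTB) {n : ℕ} {e : ℕ → Bool} (hA : AllBit10 n e)
    (hin : ∀ l ∈ ({31, 17, 7, 3} : Finset ℕ), jacobiSym ((n : ℤ) ^ 2 + 4) l = -1) :
    Hol n e 31 17 7 3 TT11067 0x1008 :=
  hol_of hA (by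
    intro l hl
    simp only [List.mem_cons, List.not_mem_nil, or_false] at hl
    rcases hl with rfl | rfl | rfl | rfl <;> norm_num) (by decide) (by decide)
    (by unfold oddB; decide) (by norm_num) tr11067 (by decide +kernel) hin (H.t11067 8 n hin)

theorem hl11571 (H : AllTB) {n : ℕ} {e : ℕ → Bool} (hA : AllBit10 n e)
    (hin : ∀ l ∈ ({29, 19, 7, 3} : Finset ℕ), jacobiSym ((n : ℤ) ^ 2 + 4) l = -1) :
    Hol n e 29 19 7 3 TT11571 0x0 :=
  hol_of hA (by
    intro l hl
    simp only [List.mem_cons, List.not_mem_nil, or_false] at hl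
    rcases hl with rfl | rfl | rfl | rfl <;> norm_num) (by decide) (by decide)
    (by unfold oddB; decide) (by norm_num) tr11571 (by decide +kernel) hin (H.t11571 8 n hin)

theorem hl12903 (H : AllTB) {n : ℕ} {e : ℕ → Bool} (hA : AllBit10 n e)
    (hin : ∀ l ∈ ({23, 17, 11, 3} : Finset ℕ), jacobiSym ((n : ℤ) ^ 2 + 4) l = -1) :
    Hol n e 23 17 11 3 TT12903 0x1008 :=
  hol_of hA (by
    intro l hl
    simp only [List.mem_cons, List.not_mem_nil, or_false] at hl
    rcases hl with rfl | rfl | rfl | rfl <;> norm_num) (by decide) (by decide)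
    (by unfold oddB; decide) (by norm_num) tr12903 (by decide +kernel) hin (H.t12903 8 n hin)

theorem hl13299 (H : AllTB) {n : ℕ} {e : ℕ → Bool} (hA : AllBit10 n e)
    (hin : ∀ l ∈ ({31, 13, 11, 3} : Finset ℕ), jacobiSym ((n : ℤ) ^ 2 + 4) l = -1) :
    Hol n e 31 13 11 3 TT13299 0xfbdf :=
  hol_of hA (by
    intro l hl
    simp only [List.mem_cons, List.not_mem_nil, or_false] at hl
    rcases hl with rfl | rfl | rfl | rfl <;> norm_num) (by decide) (by decide)
    (by unfold oddB; decide) (by norm_num) tr13299 (by decide +kernel) hin (H.t13299 8 n hin)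

theorem hl14007 (H : AllTB) {n : ℕ} {e : ℕ → Bool} (hA : AllBit10 n e)
    (hin : ∀ l ∈ ({29, 23, 7, 3} : Finset ℕ), jacobiSym ((n : ℤ) ^ 2 + 4) l = -1) :
    Hol n e 29 23 7 3 TT14007 0x0 :=
  hol_of hA (by
    intro l hl
    simp only [List.mem_cons, List.not_mem_nil, or_false] at hl
    rcases hl with rfl | rfl | rfl | rfl <;> norm_num) (by decide) (by decide)
    (by unfold oddB; decide) (by norm_num) tr14007 (by decide +kernel) hin (H.t14007 8 n hin)

theorem hl19019 (H : AllTB) {n : ℕ} {e : ℕ → Bool} (hA : AllBit10 n e)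
    (hin : ∀ l ∈ ({19, 13, 11, 7} : Finset ℕ), jacobiSym ((n : ℤ) ^ 2 + 4) l = -1) :
    Hol n e 19 13 11 7 TT19019 0x420 :=
  hol_of hA (by
    intro l hl
    simp only [List.mem_cons, List.not_mem_nil, or_false] at hl
    rcases hl with rfl | rfl | rfl | rfl <;> norm_num) (by decide) (by decide)
    (by unfold oddB; decide) (by norm_num) tr19019 (by decide +kernel) hin (H.t19019 8 n hin)

theorem hl19227 (H : AllTB) {n : ℕ} {e : ℕ → Bool} (hA : AllBit10 n e)
    (hin : ∀ l ∈ ({29, 17, 13, 3} : Finset ℕ), jacobiSym ((n : ℤ) ^ 2 + 4) l = -1) :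
    Hol n e 29 17 13 3 TT19227 0x0 :=
  hol_of hA (by
    intro l hl
    simp only [List.mem_cons, List.not_mem_nil, or_false] at hl
    rcases hl with rfl | rfl | rfl | rfl <;> norm_num) (by decide) (by decide)
    (by unfold oddB; decide) (by norm_num) tr19227 (by decide +kernel) hin (H.t19227 8 n hin)

theorem hl22011 (H : AllTB) {n : ℕ} {e : ℕ → Bool} (hA : AllBit10 n e)
    (hin : ∀ l ∈ ({29, 23, 11, 3} : Finset ℕ), jacobiSym ((n : ℤ) ^ 2 + 4) l = -1) :
    Hol n e 29 23 11 3 TT22011 0xeff7 :=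
  hol_of hA (by
    intro l hl
    simp only [List.mem_cons, List.not_mem_nil, or_false] at hl
    rcases hl with rfl | rfl | rfl | rfl <;> norm_num) (by decide) (by decide)
    (by unfold oddB; decide) (by norm_num) tr22011 (by decide +kernel) hin (H.t22011 8 n hin)

theorem hl22287 (H : AllTB) {n : ℕ} {e : ℕ → Bool} (hA : AllBit10 n e)
    (hin : ∀ l ∈ ({23, 19, 17, 3} : Finset ℕ), jacobiSym ((n : ℤ) ^ 2 + 4) l = -1) :
    Hol n e 23 19 17 3 TT22287 0x240 :=
  hol_of hA (by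
    intro l hl
    simp only [List.mem_cons, List.not_mem_nil, or_false] at hl
    rcases hl with rfl | rfl | rfl | rfl <;> norm_num) (by decide) (by decide)
    (by unfold oddB; decide) (by norm_num) tr22287 (by decide +kernel) hin (H.t22287 8 n hin)

theorem hl24871 (H : AllTB) {n : ℕ} {e : ℕ → Bool} (hA : AllBit10 n e)
    (hin : ∀ l ∈ ({19, 17, 11, 7} : Finset ℕ), jacobiSym ((n : ℤ) ^ 2 + 4) l = -1) :
    Hol n e 19 17 11 7 TT24871 0x0 :=
  hol_of hA (by
    intro l hl
    simp only [List.mem_cons, List.not_mem_nil, or_false] at hl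
    rcases hl with rfl | rfl | rfl | rfl <;> norm_num) (by decide) (by decide)
    (by unfold oddB; decide) (by norm_num) tr24871 (by decide +kernel) hin (H.t24871 8 n hin)

end Pool.Agent.N911.L
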