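import Pool.Agent.N911.L.S4

/-! The ramified searches. -/

namespace Pool.Agent.N911.L

open H419R2 Pool.Agent.N911

theorem sr5 : srch VR5 0 = true := by decide +kernel

theorem sr13 : srch VR13 0 = true := by decide +kernel

theorem sr17 : srch VR17 0 = true := by decide +kernel

theorem sr29 : srch VR29 0 = true := by decide +kernel

end Pool.Agent.N911.L
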