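import Pool.Agent.N911.L.S1b

/-! The inert search. -/

namespace Pool.Agent.N911.L

open H419R2 Pool.Agent.N911

theorem v7_66 : srch V7 66 = true := by decide +kernel

theorem v7_67 : srch V7 67 = true := by decide +kernel

theorem v7_98 : srch V7 98 = true := by decide +kernel

theorem v7_99 : srch V7 99 = true := by decide +kernel

theorem v7_2114 : srch V7 2114 = true := by decide +kernel

theorem v7_2115 : srch V7 2115 = true := by decide +kernel

theorem v7_2146 : srch V7 2146 = true := by decide +kernel

theorem v7_2147 : srch V7 2147 = true := by decide +kernel

theorem v7_130 : srch V7 130 = true := by decide +kernel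

theorem v7_131 : srch V7 131 = true := by decide +kernel

theorem v7_162 : srch V7 162 = true := by decide +kernel

theorem v7_163 : srch V7 163 = true := by decide +kernel

theorem v7_2178 : srch V7 2178 = true := by decide +kernel

theorem v7_2179 : srch V7 2179 = true := by decide +kernel

theorem v7_2210 : srch V7 2210 = true := by decide +kernel

theorem v7_2211 : srch V7 2211 = true := by decide +kernel

theorem sI1 : srch (VI 2) 0 = true := by
  apply srch_VI2
  intro s hs
  simp only [List.mem_cons, List.not_mem_nil, or_false] at hs
  rcases hs with rfl | rfl | rfl | rfl | rfl | rfl | rfl | rfl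
  · exact v7_66
  · exact v7_67
  · exact v7_98
  · exact v7_99
  · exact v7_2114
  · exact v7_2115
  · exact v7_2146
  · exact v7_2147

theorem sI2 : srch (VI 4) 0 = true := by
  apply srch_VI4
  intro s hs
  simp only [List.mem_cons, List.not_mem_nil, or_false] at hs
  rcases hs with rfl | rfl | rfl | rfl | rfl | rfl | rfl | rfl
  · exact v7_130
  · exact v7_131
  · exact v7_162
  · exact v7_163
  · exact v7_2178
  · exact v7_2179
  · exact v7_2210
  · exact v7_2211

end Pool.Agent.N911.L
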