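import Pool.Agent.N911.L.R2
import Pool.Agent.N911.L.S5
import Pool.Agent.N911.L.S6

/-! The two searches: final theorems. -/

namespace Pool.Agent.N911.L

open H419R2 Pool.Agent.N911 Pool.Agent.N367.LE Pool.Agent.N156.HT Finset

theorem im_ok {l im : ℕ} (hl : l.Prime) (h : ∀ r < l, im.testBit r = true ∨
    ∃ x < l, (x * x) % l = (r * r + 4) % l) {n : ℕ} (hn : jacobiSym ((n : ℤ) ^ 2 + 4) l = -1) :
    im.testBit (n % l) = true := by
  rcases h (n % l) (Nat.mod_lt n hl.pos) with h1 | ⟨x, -, h1⟩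
  · exact h1
  · exfalso
    have h2 : ((x * x : ℕ) : ZMod l) = ((n % l * (n % l) + 4 : ℕ) : ZMod l) :=
      (ZMod.natCast_eq_natCast_iff _ _ l).mpr h1
    push_cast at h2
    rw [ZMod.natCast_mod] at h2
    have h3 : ((((n : ℤ) ^ 2 + 4) - (x : ℤ) ^ 2 : ℤ) : ZMod l) = 0 := by
      push_cast
      linear_combination (-1) * h2
    have h4 : (l : ℤ) ∣ ((n : ℤ) ^ 2 + 4) - (x : ℤ) ^ 2 := (ZMod.intCast_zmod_eq_zero_iff_dvd _ l).mp h3
    have h5 : jacobiSym ((n : ℤ) ^ 2 + 4) l = jacobiSym ((x : ℤ) ^ 2) l :=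
      jacobiSym.mod_left' ((Int.modEq_iff_dvd.mpr h4).symm)
    rw [h5, jacobiSym.pow_left] at hn
    nlinarith [sq_nonneg (jacobiSym (x : ℤ) l)]

theorem LvOK.mk' {n : ℕ} {e : ℕ → Bool} {ps : List ℕ} {l W F im : ℕ} {f0 f1 : Bool} {L : RLL} {tl : LVs}
    (h1 : 0 < l) (h2 : l ≤ 32) (h3 : W = 2 ^ l) (h4 : F = 2 ^ l - 1) (h5 : im.testBit (n % l) = true)
    (h6 : e l = false → f0 = true) (h7 : e l = true → f1 = true) (h8 : RelOK n e l ps L)
    (h9 : LvOK n e (l :: ps) tl) : LvOK n e ps (LVs.cons l W F im f0 f1 L tl) :=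
  ⟨⟨h1, h2, h3, h4, h5, h6, h7⟩, h8, h9⟩

theorem RelOK.mk' {n : ℕ} {e : ℕ → Bool} {l1 : ℕ} {ps : List ℕ} {l3 l4 P2 P3 P4 T R : ℕ} {tl : RLL}
    (l2 k2 k3 k4 : ℕ) (a2 : P2 = 6 * k2) (a3 : P3 = 6 * k3) (a4 : P4 = 6 * k4)
    (g2 : ps[k2]? = some l2) (g3 : ps[k3]? = some l3) (g4 : ps[k4]? = some l4)
    (h : Hol n e l1 l2 l3 l4 T R) (ht : RelOK n e l1 ps tl) :
    RelOK n e l1 ps (RLL.cons l3 l4 P2 P3 P4 T R tl) :=
  ⟨⟨l2, k2, k3, k4, a2, a3, a4, g2, g3, g4, h⟩, ht⟩

theorem im3 {n : ℕ} (h : jacobiSym ((n : ℤ) ^ 2 + 4) 3 = -1) : (6).testBit (n % 3) = true :=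
  im_ok (by norm_num) (by decide +kernel) h

theorem im5 {n : ℕ} (h : jacobiSym ((n : ℤ) ^ 2 + 4) 5 = -1) : (12).testBit (n % 5) = true :=
  im_ok (by norm_num) (by decide +kernel) h

theorem im7 {n : ℕ} (h : jacobiSym ((n : ℤ) ^ 2 + 4) 7 = -1) : (90).testBit (n % 7) = true :=
  im_ok (by norm_num) (by decide +kernel) h

theorem im11 {n : ℕ} (h : jacobiSym ((n : ℤ) ^ 2 + 4) 11 = -1) : (876).testBit (n % 11) = true :=
  im_ok (by norm_num) (by decide +kernel) h

theorem im13 {n : ℕ} (h : jacobiSym ((n : ℤ) ^ 2 + 4) 13 = -1) : (6678).testBit (n % 13) = true :=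
  im_ok (by norm_num) (by decide +kernel) h

theorem im17 {n : ℕ} (h : jacobiSym ((n : ℤ) ^ 2 + 4) 17 = -1) : (79986).testBit (n % 17) = true :=
  im_ok (by norm_num) (by decide +kernel) h

theorem im19 {n : ℕ} (h : jacobiSym ((n : ℤ) ^ 2 + 4) 19 = -1) : (225516).testBit (n % 19) = true :=
  im_ok (by norm_num) (by decide +kernel) h

theorem im23 {n : ℕ} (h : jacobiSym ((n : ℤ) ^ 2 + 4) 23 = -1) : (4954578).testBit (n % 23) = true :=
  im_ok (by norm_num) (by decide +kernel) h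

theorem im29 {n : ℕ} (h : jacobiSym ((n : ℤ) ^ 2 + 4) 29 = -1) : (146462532).testBit (n % 29) = true :=
  im_ok (by norm_num) (by decide +kernel) h

theorem im31 {n : ℕ} (h : jacobiSym ((n : ℤ) ^ 2 + 4) 31 = -1) : (367630248).testBit (n % 31) = true :=
  im_ok (by norm_num) (by decide +kernel) h

theorem lvI (H : AllTB) {n : ℕ} {e : ℕ → Bool} {im : ℕ} (hA : AllBit10 n e)
    (hin : ∀ l ∈ ({3, 5, 7, 11, 13, 17, 19, 23, 29, 31} : Finset ℕ), jacobiSym ((n : ℤ) ^ 2 + 4) l = -1)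
    (h3i : im.testBit (n % 3) = true) : LvOK n e [] (VI im) := by
  have g : ∀ S : Finset ℕ, S ⊆ ({3, 5, 7, 11, 13, 17, 19, 23, 29, 31} : Finset ℕ) → ∀ l ∈ S, jacobiSym ((n : ℤ) ^ 2 + 4) l = -1 :=
    fun S hS l hl => hin l (hS hl)
  have h1155 := hl1155 H hA (g {11, 7, 5, 3} (by decide))
  have h1995 := hl1995 H hA (g {19, 7, 5, 3} (by decide))
  have h2415 := hl2415 H hA (g {23, 7, 5, 3} (by decide))
  have h3003 := hl3003 H hA (g {13, 11, 7, 3} (by decide))
  have h3135 := hl3135 H hA (g {19, 11, 5, 3} (by decide))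
  have h3255 := hl3255 H hA (g {31, 7, 5, 3} (by decide))
  have h3315 := hl3315 H hA (g {17, 13, 5, 3} (by decide))
  have h3795 := hl3795 H hA (g {23, 11, 5, 3} (by decide))
  have h3927 := hl3927 H hA (g {17, 11, 7, 3} (by decide))
  have h5115 := hl5115 H hA (g {31, 11, 5, 3} (by decide))
  have h5187 := hl5187 H hA (g {19, 13, 7, 3} (by decide))
  have h5655 := hl5655 H hA (g {29, 13, 5, 3} (by decide))
  have h6279 := hl6279 H hA (g {23, 13, 7, 3} (by decide))
  have h6699 := hl6699 H hA (g {29, 11, 7, 3} (by decide))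
  have h6783 := hl6783 H hA (g {19, 17, 7, 3} (by decide))
  have h7395 := hl7395 H hA (g {29, 17, 5, 3} (by decide))
  have h8151 := hl8151 H hA (g {19, 13, 11, 3} (by decide))
  have h8211 := hl8211 H hA (g {23, 17, 7, 3} (by decide))
  have h8463 := hl8463 H hA (g {31, 13, 7, 3} (by decide))
  have h8835 := hl8835 H hA (g {31, 19, 5, 3} (by decide))
  have h8855 := hl8855 H hA (g {23, 11, 7, 5} (by decide))
  have h9867 := hl9867 H hA (g {23, 13, 11, 3} (by decide))
  have h10659 := hl10659 H hA (g {19, 17, 11, 3} (by decide))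
  have h10695 := hl10695 H hA (g {31, 23, 5, 3} (by decide))
  have h11067 := hl11067 H hA (g {31, 17, 7, 3} (by decide))
  have h11571 := hl11571 H hA (g {29, 19, 7, 3} (by decide))
  have h12903 := hl12903 H hA (g {23, 17, 11, 3} (by decide))
  have h13299 := hl13299 H hA (g {31, 13, 11, 3} (by decide))
  have h14007 := hl14007 H hA (g {29, 23, 7, 3} (by decide))
  have h19019 := hl19019 H hA (g {19, 13, 11, 7} (by decide))
  have h19227 := hl19227 H hA (g {29, 17, 13, 3} (by decide))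
  have h22011 := hl22011 H hA (g {29, 23, 11, 3} (by decide))
  have h22287 := hl22287 H hA (g {23, 19, 17, 3} (by decide))
  have h24871 := hl24871 H hA (g {19, 17, 11, 7} (by decide))
  exact
    (LvOK.mk' (by norm_num) (by norm_num) (by norm_num) (by norm_num) h3i
    (fun _ => rfl) (fun _ => rfl) trivial
    (LvOK.mk' (by norm_num) (by norm_num) (by norm_num) (by norm_num) (im5 (hin 5 (by decide)))
    (fun _ => rfl) (fun _ => rfl) trivial
    (LvOK.mk' (by norm_num) (by norm_num) (by norm_num) (by norm_num) (im7 (hin 7 (by decide)))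
    (fun _ => rfl) (fun _ => rfl) trivial
    (LvOK.mk' (by norm_num) (by norm_num) (by norm_num) (by norm_num) (im11 (hin 11 (by decide)))
    (fun _ => rfl) (fun _ => rfl) (RelOK.mk' 7 0 1 2 rfl rfl rfl rfl rfl rfl h1155
      trivial)
    (LvOK.mk' (by norm_num) (by norm_num) (by norm_num) (by norm_num) (im13 (hin 13 (by decide)))
    (fun _ => rfl) (fun _ => rfl) (RelOK.mk' 11 0 1 3 rfl rfl rfl rfl rfl rfl h3003
      trivial)
    (LvOK.mk' (by norm_num) (by norm_num) (by norm_num) (by norm_num) (im17 (hin 17 (by decide)))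
    (fun _ => rfl) (fun _ => rfl) (RelOK.mk' 13 0 3 4 rfl rfl rfl rfl rfl rfl h3315
      (RelOK.mk' 11 1 2 4 rfl rfl rfl rfl rfl rfl h3927
      trivial))
    (LvOK.mk' (by norm_num) (by norm_num) (by norm_num) (by norm_num) (im19 (hin 19 (by decide)))
    (fun _ => rfl) (fun _ => rfl) (RelOK.mk' 7 3 4 5 rfl rfl rfl rfl rfl rfl h1995
      (RelOK.mk' 11 2 4 5 rfl rfl rfl rfl rfl rfl h3135
      (RelOK.mk' 13 1 3 5 rfl rfl rfl rfl rfl rfl h5187
      (RelOK.mk' 17 0 3 5 rfl rfl rfl rfl rfl rfl h6783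
      (RelOK.mk' 13 1 2 5 rfl rfl rfl rfl rfl rfl h8151
      (RelOK.mk' 17 0 2 5 rfl rfl rfl rfl rfl rfl h10659
      (RelOK.mk' 13 1 2 3 rfl rfl rfl rfl rfl rfl h19019
      (RelOK.mk' 17 0 2 3 rfl rfl rfl rfl rfl rfl h24871
      trivial))))))))
    (LvOK.mk' (by norm_num) (by norm_num) (by norm_num) (by norm_num) (im23 (hin 23 (by decide)))
    (fun _ => rfl) (fun _ => rfl) (RelOK.mk' 7 4 5 6 rfl rfl rfl rfl rfl rfl h2415
      (RelOK.mk' 11 3 5 6 rfl rfl rfl rfl rfl rfl h3795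
      (RelOK.mk' 13 2 4 6 rfl rfl rfl rfl rfl rfl h6279
      (RelOK.mk' 17 1 4 6 rfl rfl rfl rfl rfl rfl h8211
      (RelOK.mk' 11 3 4 5 rfl rfl rfl rfl rfl rfl h8855
      (RelOK.mk' 13 2 3 6 rfl rfl rfl rfl rfl rfl h9867
      (RelOK.mk' 17 1 3 6 rfl rfl rfl rfl rfl rfl h12903
      (RelOK.mk' 19 0 1 6 rfl rfl rfl rfl rfl rfl h22287
      trivial))))))))
    (LvOK.mk' (by norm_num) (by norm_num) (by norm_num) (by norm_num) (im29 (hin 29 (by decide)))
    (fun _ => rfl) (fun _ => rfl) (RelOK.mk' 13 3 6 7 rfl rfl rfl rfl rfl rfl h5655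
      (RelOK.mk' 11 4 5 7 rfl rfl rfl rfl rfl rfl h6699
      (RelOK.mk' 17 2 6 7 rfl rfl rfl rfl rfl rfl h7395
      (RelOK.mk' 19 1 5 7 rfl rfl rfl rfl rfl rfl h11571
      (RelOK.mk' 23 0 5 7 rfl rfl rfl rfl rfl rfl h14007
      (RelOK.mk' 17 2 3 7 rfl rfl rfl rfl rfl rfl h19227
      (RelOK.mk' 23 0 4 7 rfl rfl rfl rfl rfl rfl h22011
      trivial)))))))
    (LvOK.mk' (by norm_num) (by norm_num) (by norm_num) (by norm_num) (im31 (hin 31 (by decide)))
    (fun _ => rfl) (fun _ => rfl) (RelOK.mk' 7 6 7 8 rfl rfl rfl rfl rfl rfl h3255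
      (RelOK.mk' 11 5 7 8 rfl rfl rfl rfl rfl rfl h5115
      (RelOK.mk' 13 4 6 8 rfl rfl rfl rfl rfl rfl h8463
      (RelOK.mk' 19 2 7 8 rfl rfl rfl rfl rfl rfl h8835
      (RelOK.mk' 23 1 7 8 rfl rfl rfl rfl rfl rfl h10695
      (RelOK.mk' 17 3 6 8 rfl rfl rfl rfl rfl rfl h11067
      (RelOK.mk' 13 4 5 8 rfl rfl rfl rfl rfl rfl h13299
      trivial)))))))
    trivial))))))))))

theorem lv5 (H : AllTB) {n : ℕ} {e : ℕ → Bool} (hA : AllBit10 n e)
    (hin : ∀ l ∈ ({3, 7, 11, 13, 17, 19, 23, 29, 31} : Finset ℕ), jacobiSym ((n : ℤ) ^ 2 + 4) l = -1)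
    (e3 : e 3 = true)
    (e7 : e 7 = true)
    (e11 : e 11 = false)
    (e13 : e 13 = true)
    (e17 : e 17 = true)
    (e19 : e 19 = false)
    (e23 : e 23 = true)
    (e29 : e 29 = false)
    (e31 : e 31 = false)
    : LvOK n e [] VR5 := by
  have g : ∀ S : Finset ℕ, S ⊆ ({3, 7, 11, 13, 17, 19, 23, 29, 31} : Finset ℕ) → ∀ l ∈ S, jacobiSym ((n : ℤ) ^ 2 + 4) l = -1 :=
    fun S hS l hl => hin l (hS hl)
  have h3003 := hl3003 H hA (g {13, 11, 7, 3} (by decide))
  have h3927 := hl3927 H hA (g {17, 11, 7, 3} (by decide))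
  have h5187 := hl5187 H hA (g {19, 13, 7, 3} (by decide))
  have h6279 := hl6279 H hA (g {23, 13, 7, 3} (by decide))
  have h6699 := hl6699 H hA (g {29, 11, 7, 3} (by decide))
  have h6783 := hl6783 H hA (g {19, 17, 7, 3} (by decide))
  have h8151 := hl8151 H hA (g {19, 13, 11, 3} (by decide))
  have h8211 := hl8211 H hA (g {23, 17, 7, 3} (by decide))
  have h8463 := hl8463 H hA (g {31, 13, 7, 3} (by decide))
  have h9867 := hl9867 H hA (g {23, 13, 11, 3} (by decide))
  have h10659 := hl10659 H hA (g {19, 17, 11, 3} (by decide))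
  have h11067 := hl11067 H hA (g {31, 17, 7, 3} (by decide))
  have h11571 := hl11571 H hA (g {29, 19, 7, 3} (by decide))
  have h12903 := hl12903 H hA (g {23, 17, 11, 3} (by decide))
  have h13299 := hl13299 H hA (g {31, 13, 11, 3} (by decide))
  have h14007 := hl14007 H hA (g {29, 23, 7, 3} (by decide))
  have h19019 := hl19019 H hA (g {19, 13, 11, 7} (by decide))
  have h19227 := hl19227 H hA (g {29, 17, 13, 3} (by decide))
  have h22011 := hl22011 H hA (g {29, 23, 11, 3} (by decide))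
  have h22287 := hl22287 H hA (g {23, 19, 17, 3} (by decide))
  have h24871 := hl24871 H hA (g {19, 17, 11, 7} (by decide))
  exact
    (LvOK.mk' (by norm_num) (by norm_num) (by norm_num) (by norm_num) (im3 (hin 3 (by decide)))
    (fun h => absurd h (by rw [e3]; decide)) (fun _ => rfl) trivial
    (LvOK.mk' (by norm_num) (by norm_num) (by norm_num) (by norm_num) (im7 (hin 7 (by decide)))
    (fun h => absurd h (by rw [e7]; decide)) (fun _ => rfl) trivial
    (LvOK.mk' (by norm_num) (by norm_num) (by norm_num) (by norm_num) (im11 (hin 11 (by decide)))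
    (fun _ => rfl) (fun h => absurd h (by rw [e11]; decide)) trivial
    (LvOK.mk' (by norm_num) (by norm_num) (by norm_num) (by norm_num) (im13 (hin 13 (by decide)))
    (fun h => absurd h (by rw [e13]; decide)) (fun _ => rfl) (RelOK.mk' 11 0 1 2 rfl rfl rfl rfl rfl rfl h3003
      trivial)
    (LvOK.mk' (by norm_num) (by norm_num) (by norm_num) (by norm_num) (im17 (hin 17 (by decide)))
    (fun h => absurd h (by rw [e17]; decide)) (fun _ => rfl) (RelOK.mk' 11 1 2 3 rfl rfl rfl rfl rfl rfl h3927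
      trivial)
    (LvOK.mk' (by norm_num) (by norm_num) (by norm_num) (by norm_num) (im19 (hin 19 (by decide)))
    (fun _ => rfl) (fun h => absurd h (by rw [e19]; decide)) (RelOK.mk' 13 1 3 4 rfl rfl rfl rfl rfl rfl h5187
      (RelOK.mk' 17 0 3 4 rfl rfl rfl rfl rfl rfl h6783
      (RelOK.mk' 13 1 2 4 rfl rfl rfl rfl rfl rfl h8151
      (RelOK.mk' 17 0 2 4 rfl rfl rfl rfl rfl rfl h10659
      (RelOK.mk' 13 1 2 3 rfl rfl rfl rfl rfl rfl h19019
      (RelOK.mk' 17 0 2 3 rfl rfl rfl rfl rfl rfl h24871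
      trivial))))))
    (LvOK.mk' (by norm_num) (by norm_num) (by norm_num) (by norm_num) (im23 (hin 23 (by decide)))
    (fun h => absurd h (by rw [e23]; decide)) (fun _ => rfl) (RelOK.mk' 13 2 4 5 rfl rfl rfl rfl rfl rfl h6279
      (RelOK.mk' 17 1 4 5 rfl rfl rfl rfl rfl rfl h8211
      (RelOK.mk' 13 2 3 5 rfl rfl rfl rfl rfl rfl h9867
      (RelOK.mk' 17 1 3 5 rfl rfl rfl rfl rfl rfl h12903
      (RelOK.mk' 19 0 1 5 rfl rfl rfl rfl rfl rfl h22287
      trivial)))))
    (LvOK.mk' (by norm_num) (by norm_num) (by norm_num) (by norm_num) (im29 (hin 29 (by decide)))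
    (fun _ => rfl) (fun h => absurd h (by rw [e29]; decide)) (RelOK.mk' 11 4 5 6 rfl rfl rfl rfl rfl rfl h6699
      (RelOK.mk' 19 1 5 6 rfl rfl rfl rfl rfl rfl h11571
      (RelOK.mk' 23 0 5 6 rfl rfl rfl rfl rfl rfl h14007
      (RelOK.mk' 17 2 3 6 rfl rfl rfl rfl rfl rfl h19227
      (RelOK.mk' 23 0 4 6 rfl rfl rfl rfl rfl rfl h22011
      trivial)))))
    (LvOK.mk' (by norm_num) (by norm_num) (by norm_num) (by norm_num) (im31 (hin 31 (by decide)))
    (fun _ => rfl) (fun h => absurd h (by rw [e31]; decide)) (RelOK.mk' 13 4 6 7 rfl rfl rfl rfl rfl rfl h8463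
      (RelOK.mk' 17 3 6 7 rfl rfl rfl rfl rfl rfl h11067
      (RelOK.mk' 13 4 5 7 rfl rfl rfl rfl rfl rfl h13299
      trivial)))
    trivial)))))))))

theorem lv13 (H : AllTB) {n : ℕ} {e : ℕ → Bool} (hA : AllBit10 n e)
    (hin : ∀ l ∈ ({3, 5, 7, 11, 17, 19, 23, 29, 31} : Finset ℕ), jacobiSym ((n : ℤ) ^ 2 + 4) l = -1)
    (e3 : e 3 = false)
    (e5 : e 5 = true)
    (e7 : e 7 = true)
    (e11 : e 11 = true)
    (e17 : e 17 = false)
    (e19 : e 19 = true)
    (e23 : e 23 = false)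
    (e29 : e 29 = false)
    (e31 : e 31 = true)
    : LvOK n e [] VR13 := by
  have g : ∀ S : Finset ℕ, S ⊆ ({3, 5, 7, 11, 17, 19, 23, 29, 31} : Finset ℕ) → ∀ l ∈ S, jacobiSym ((n : ℤ) ^ 2 + 4) l = -1 :=
    fun S hS l hl => hin l (hS hl)
  have h1155 := hl1155 H hA (g {11, 7, 5, 3} (by decide))
  have h1995 := hl1995 H hA (g {19, 7, 5, 3} (by decide))
  have h2415 := hl2415 H hA (g {23, 7, 5, 3} (by decide))
  have h3135 := hl3135 H hA (g {19, 11, 5, 3} (by decide))
  have h3255 := hl3255 H hA (g {31, 7, 5, 3} (by decide))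
  have h3795 := hl3795 H hA (g {23, 11, 5, 3} (by decide))
  have h3927 := hl3927 H hA (g {17, 11, 7, 3} (by decide))
  have h5115 := hl5115 H hA (g {31, 11, 5, 3} (by decide))
  have h6699 := hl6699 H hA (g {29, 11, 7, 3} (by decide))
  have h6783 := hl6783 H hA (g {19, 17, 7, 3} (by decide))
  have h7395 := hl7395 H hA (g {29, 17, 5, 3} (by decide))
  have h8211 := hl8211 H hA (g {23, 17, 7, 3} (by decide))
  have h8835 := hl8835 H hA (g {31, 19, 5, 3} (by decide))
  have h8855 := hl8855 H hA (g {23, 11, 7, 5} (by decide))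
  have h10659 := hl10659 H hA (g {19, 17, 11, 3} (by decide))
  have h10695 := hl10695 H hA (g {31, 23, 5, 3} (by decide))
  have h11067 := hl11067 H hA (g {31, 17, 7, 3} (by decide))
  have h11571 := hl11571 H hA (g {29, 19, 7, 3} (by decide))
  have h12903 := hl12903 H hA (g {23, 17, 11, 3} (by decide))
  have h14007 := hl14007 H hA (g {29, 23, 7, 3} (by decide))
  have h22011 := hl22011 H hA (g {29, 23, 11, 3} (by decide))
  have h22287 := hl22287 H hA (g {23, 19, 17, 3} (by decide))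
  have h24871 := hl24871 H hA (g {19, 17, 11, 7} (by decide))
  exact
    (LvOK.mk' (by norm_num) (by norm_num) (by norm_num) (by norm_num) (im3 (hin 3 (by decide)))
    (fun _ => rfl) (fun h => absurd h (by rw [e3]; decide)) trivial
    (LvOK.mk' (by norm_num) (by norm_num) (by norm_num) (by norm_num) (im5 (hin 5 (by decide)))
    (fun h => absurd h (by rw [e5]; decide)) (fun _ => rfl) trivial
    (LvOK.mk' (by norm_num) (by norm_num) (by norm_num) (by norm_num) (im7 (hin 7 (by decide)))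
    (fun h => absurd h (by rw [e7]; decide)) (fun _ => rfl) trivial
    (LvOK.mk' (by norm_num) (by norm_num) (by norm_num) (by norm_num) (im11 (hin 11 (by decide)))
    (fun h => absurd h (by rw [e11]; decide)) (fun _ => rfl) (RelOK.mk' 7 0 1 2 rfl rfl rfl rfl rfl rfl h1155
      trivial)
    (LvOK.mk' (by norm_num) (by norm_num) (by norm_num) (by norm_num) (im17 (hin 17 (by decide)))
    (fun _ => rfl) (fun h => absurd h (by rw [e17]; decide)) (RelOK.mk' 11 0 1 3 rfl rfl rfl rfl rfl rfl h3927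
      trivial)
    (LvOK.mk' (by norm_num) (by norm_num) (by norm_num) (by norm_num) (im19 (hin 19 (by decide)))
    (fun h => absurd h (by rw [e19]; decide)) (fun _ => rfl) (RelOK.mk' 7 2 3 4 rfl rfl rfl rfl rfl rfl h1995
      (RelOK.mk' 11 1 3 4 rfl rfl rfl rfl rfl rfl h3135
      (RelOK.mk' 17 0 2 4 rfl rfl rfl rfl rfl rfl h6783
      (RelOK.mk' 17 0 1 4 rfl rfl rfl rfl rfl rfl h10659
      (RelOK.mk' 17 0 1 2 rfl rfl rfl rfl rfl rfl h24871
      trivial)))))
    (LvOK.mk' (by norm_num) (by norm_num) (by norm_num) (by norm_num) (im23 (hin 23 (by decide)))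
    (fun _ => rfl) (fun h => absurd h (by rw [e23]; decide)) (RelOK.mk' 7 3 4 5 rfl rfl rfl rfl rfl rfl h2415
      (RelOK.mk' 11 2 4 5 rfl rfl rfl rfl rfl rfl h3795
      (RelOK.mk' 17 1 3 5 rfl rfl rfl rfl rfl rfl h8211
      (RelOK.mk' 11 2 3 4 rfl rfl rfl rfl rfl rfl h8855
      (RelOK.mk' 17 1 2 5 rfl rfl rfl rfl rfl rfl h12903
      (RelOK.mk' 19 0 1 5 rfl rfl rfl rfl rfl rfl h22287
      trivial))))))
    (LvOK.mk' (by norm_num) (by norm_num) (by norm_num) (by norm_num) (im29 (hin 29 (by decide)))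
    (fun _ => rfl) (fun h => absurd h (by rw [e29]; decide)) (RelOK.mk' 11 3 4 6 rfl rfl rfl rfl rfl rfl h6699
      (RelOK.mk' 17 2 5 6 rfl rfl rfl rfl rfl rfl h7395
      (RelOK.mk' 19 1 4 6 rfl rfl rfl rfl rfl rfl h11571
      (RelOK.mk' 23 0 4 6 rfl rfl rfl rfl rfl rfl h14007
      (RelOK.mk' 23 0 3 6 rfl rfl rfl rfl rfl rfl h22011
      trivial)))))
    (LvOK.mk' (by norm_num) (by norm_num) (by norm_num) (by norm_num) (im31 (hin 31 (by decide)))
    (fun h => absurd h (by rw [e31]; decide)) (fun _ => rfl) (RelOK.mk' 7 5 6 7 rfl rfl rfl rfl rfl rfl h3255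
      (RelOK.mk' 11 4 6 7 rfl rfl rfl rfl rfl rfl h5115
      (RelOK.mk' 19 2 6 7 rfl rfl rfl rfl rfl rfl h8835
      (RelOK.mk' 23 1 6 7 rfl rfl rfl rfl rfl rfl h10695
      (RelOK.mk' 17 3 5 7 rfl rfl rfl rfl rfl rfl h11067
      trivial)))))
    trivial)))))))))

theorem lv17 (H : AllTB) {n : ℕ} {e : ℕ → Bool} (hA : AllBit10 n e)
    (hin : ∀ l ∈ ({3, 5, 7, 11, 13, 19, 23, 29, 31} : Finset ℕ), jacobiSym ((n : ℤ) ^ 2 + 4) l = -1)
    (e3 : e 3 = true)
    (e5 : e 5 = true)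
    (e7 : e 7 = true)
    (e11 : e 11 = true)
    (e13 : e 13 = false)
    (e19 : e 19 = false)
    (e23 : e 23 = true)
    (e29 : e 29 = true)
    (e31 : e 31 = true)
    : LvOK n e [] VR17 := by
  have g : ∀ S : Finset ℕ, S ⊆ ({3, 5, 7, 11, 13, 19, 23, 29, 31} : Finset ℕ) → ∀ l ∈ S, jacobiSym ((n : ℤ) ^ 2 + 4) l = -1 :=
    fun S hS l hl => hin l (hS hl)
  have h1155 := hl1155 H hA (g {11, 7, 5, 3} (by decide))
  have h1995 := hl1995 H hA (g {19, 7, 5, 3} (by decide))
  have h2415 := hl2415 H hA (g {23, 7, 5, 3} (by decide))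
  have h3003 := hl3003 H hA (g {13, 11, 7, 3} (by decide))
  have h3135 := hl3135 H hA (g {19, 11, 5, 3} (by decide))
  have h3255 := hl3255 H hA (g {31, 7, 5, 3} (by decide))
  have h3795 := hl3795 H hA (g {23, 11, 5, 3} (by decide))
  have h5115 := hl5115 H hA (g {31, 11, 5, 3} (by decide))
  have h5187 := hl5187 H hA (g {19, 13, 7, 3} (by decide))
  have h5655 := hl5655 H hA (g {29, 13, 5, 3} (by decide))
  have h6279 := hl6279 H hA (g {23, 13, 7, 3} (by decide))
  have h6699 := hl6699 H hA (g {29, 11, 7, 3} (by decide))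
  have h8151 := hl8151 H hA (g {19, 13, 11, 3} (by decide))
  have h8463 := hl8463 H hA (g {31, 13, 7, 3} (by decide))
  have h8835 := hl8835 H hA (g {31, 19, 5, 3} (by decide))
  have h8855 := hl8855 H hA (g {23, 11, 7, 5} (by decide))
  have h9867 := hl9867 H hA (g {23, 13, 11, 3} (by decide))
  have h10695 := hl10695 H hA (g {31, 23, 5, 3} (by decide))
  have h11571 := hl11571 H hA (g {29, 19, 7, 3} (by decide))
  have h13299 := hl13299 H hA (g {31, 13, 11, 3} (by decide))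
  have h14007 := hl14007 H hA (g {29, 23, 7, 3} (by decide))
  have h19019 := hl19019 H hA (g {19, 13, 11, 7} (by decide))
  have h22011 := hl22011 H hA (g {29, 23, 11, 3} (by decide))
  exact
    (LvOK.mk' (by norm_num) (by norm_num) (by norm_num) (by norm_num) (im3 (hin 3 (by decide)))
    (fun h => absurd h (by rw [e3]; decide)) (fun _ => rfl) trivial
    (LvOK.mk' (by norm_num) (by norm_num) (by norm_num) (by norm_num) (im5 (hin 5 (by decide)))
    (fun h => absurd h (by rw [e5]; decide)) (fun _ => rfl) trivial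
    (LvOK.mk' (by norm_num) (by norm_num) (by norm_num) (by norm_num) (im7 (hin 7 (by decide)))
    (fun h => absurd h (by rw [e7]; decide)) (fun _ => rfl) trivial
    (LvOK.mk' (by norm_num) (by norm_num) (by norm_num) (by norm_num) (im11 (hin 11 (by decide)))
    (fun h => absurd h (by rw [e11]; decide)) (fun _ => rfl) (RelOK.mk' 7 0 1 2 rfl rfl rfl rfl rfl rfl h1155
      trivial)
    (LvOK.mk' (by norm_num) (by norm_num) (by norm_num) (by norm_num) (im13 (hin 13 (by decide)))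
    (fun _ => rfl) (fun h => absurd h (by rw [e13]; decide)) (RelOK.mk' 11 0 1 3 rfl rfl rfl rfl rfl rfl h3003
      trivial)
    (LvOK.mk' (by norm_num) (by norm_num) (by norm_num) (by norm_num) (im19 (hin 19 (by decide)))
    (fun _ => rfl) (fun h => absurd h (by rw [e19]; decide)) (RelOK.mk' 7 2 3 4 rfl rfl rfl rfl rfl rfl h1995
      (RelOK.mk' 11 1 3 4 rfl rfl rfl rfl rfl rfl h3135
      (RelOK.mk' 13 0 2 4 rfl rfl rfl rfl rfl rfl h5187
      (RelOK.mk' 13 0 1 4 rfl rfl rfl rfl rfl rfl h8151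
      (RelOK.mk' 13 0 1 2 rfl rfl rfl rfl rfl rfl h19019
      trivial)))))
    (LvOK.mk' (by norm_num) (by norm_num) (by norm_num) (by norm_num) (im23 (hin 23 (by decide)))
    (fun h => absurd h (by rw [e23]; decide)) (fun _ => rfl) (RelOK.mk' 7 3 4 5 rfl rfl rfl rfl rfl rfl h2415
      (RelOK.mk' 11 2 4 5 rfl rfl rfl rfl rfl rfl h3795
      (RelOK.mk' 13 1 3 5 rfl rfl rfl rfl rfl rfl h6279
      (RelOK.mk' 11 2 3 4 rfl rfl rfl rfl rfl rfl h8855
      (RelOK.mk' 13 1 2 5 rfl rfl rfl rfl rfl rfl h9867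
      trivial)))))
    (LvOK.mk' (by norm_num) (by norm_num) (by norm_num) (by norm_num) (im29 (hin 29 (by decide)))
    (fun h => absurd h (by rw [e29]; decide)) (fun _ => rfl) (RelOK.mk' 13 2 5 6 rfl rfl rfl rfl rfl rfl h5655
      (RelOK.mk' 11 3 4 6 rfl rfl rfl rfl rfl rfl h6699
      (RelOK.mk' 19 1 4 6 rfl rfl rfl rfl rfl rfl h11571
      (RelOK.mk' 23 0 4 6 rfl rfl rfl rfl rfl rfl h14007
      (RelOK.mk' 23 0 3 6 rfl rfl rfl rfl rfl rfl h22011
      trivial)))))
    (LvOK.mk' (by norm_num) (by norm_num) (by norm_num) (by norm_num) (im31 (hin 31 (by decide)))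
    (fun h => absurd h (by rw [e31]; decide)) (fun _ => rfl) (RelOK.mk' 7 5 6 7 rfl rfl rfl rfl rfl rfl h3255
      (RelOK.mk' 11 4 6 7 rfl rfl rfl rfl rfl rfl h5115
      (RelOK.mk' 13 3 5 7 rfl rfl rfl rfl rfl rfl h8463
      (RelOK.mk' 19 2 6 7 rfl rfl rfl rfl rfl rfl h8835
      (RelOK.mk' 23 1 6 7 rfl rfl rfl rfl rfl rfl h10695
      (RelOK.mk' 13 3 4 7 rfl rfl rfl rfl rfl rfl h13299
      trivial))))))
    trivial)))))))))

theorem lv29 (H : AllTB) {n : ℕ} {e : ℕ → Bool} (hA : AllBit10 n e)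
    (hin : ∀ l ∈ ({3, 5, 7, 11, 13, 17, 19, 23, 31} : Finset ℕ), jacobiSym ((n : ℤ) ^ 2 + 4) l = -1)
    (e3 : e 3 = true)
    (e5 : e 5 = false)
    (e7 : e 7 = false)
    (e11 : e 11 = true)
    (e13 : e 13 = false)
    (e17 : e 17 = true)
    (e19 : e 19 = true)
    (e23 : e 23 = false)
    (e31 : e 31 = true)
    : LvOK n e [] VR29 := by
  have g : ∀ S : Finset ℕ, S ⊆ ({3, 5, 7, 11, 13, 17, 19, 23, 31} : Finset ℕ) → ∀ l ∈ S, jacobiSym ((n : ℤ) ^ 2 + 4) l = -1 :=
    fun S hS l hl => hin l (hS hl)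
  have h1155 := hl1155 H hA (g {11, 7, 5, 3} (by decide))
  have h1995 := hl1995 H hA (g {19, 7, 5, 3} (by decide))
  have h2415 := hl2415 H hA (g {23, 7, 5, 3} (by decide))
  have h3003 := hl3003 H hA (g {13, 11, 7, 3} (by decide))
  have h3135 := hl3135 H hA (g {19, 11, 5, 3} (by decide))
  have h3255 := hl3255 H hA (g {31, 7, 5, 3} (by decide))
  have h3315 := hl3315 H hA (g {17, 13, 5, 3} (by decide))
  have h3795 := hl3795 H hA (g {23, 11, 5, 3} (by decide))
  have h3927 := hl3927 H hA (g {17, 11, 7, 3} (by decide))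
  have h5115 := hl5115 H hA (g {31, 11, 5, 3} (by decide))
  have h5187 := hl5187 H hA (g {19, 13, 7, 3} (by decide))
  have h6279 := hl6279 H hA (g {23, 13, 7, 3} (by decide))
  have h6783 := hl6783 H hA (g {19, 17, 7, 3} (by decide))
  have h8151 := hl8151 H hA (g {19, 13, 11, 3} (by decide))
  have h8211 := hl8211 H hA (g {23, 17, 7, 3} (by decide))
  have h8463 := hl8463 H hA (g {31, 13, 7, 3} (by decide))
  have h8835 := hl8835 H hA (g {31, 19, 5, 3} (by decide))
  have h8855 := hl8855 H hA (g {23, 11, 7, 5} (by decide))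
  have h9867 := hl9867 H hA (g {23, 13, 11, 3} (by decide))
  have h10659 := hl10659 H hA (g {19, 17, 11, 3} (by decide))
  have h10695 := hl10695 H hA (g {31, 23, 5, 3} (by decide))
  have h11067 := hl11067 H hA (g {31, 17, 7, 3} (by decide))
  have h12903 := hl12903 H hA (g {23, 17, 11, 3} (by decide))
  have h13299 := hl13299 H hA (g {31, 13, 11, 3} (by decide))
  have h19019 := hl19019 H hA (g {19, 13, 11, 7} (by decide))
  have h22287 := hl22287 H hA (g {23, 19, 17, 3} (by decide))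
  have h24871 := hl24871 H hA (g {19, 17, 11, 7} (by decide))
  exact
    (LvOK.mk' (by norm_num) (by norm_num) (by norm_num) (by norm_num) (im3 (hin 3 (by decide)))
    (fun h => absurd h (by rw [e3]; decide)) (fun _ => rfl) trivial
    (LvOK.mk' (by norm_num) (by norm_num) (by norm_num) (by norm_num) (im5 (hin 5 (by decide)))
    (fun _ => rfl) (fun h => absurd h (by rw [e5]; decide)) trivial
    (LvOK.mk' (by norm_num) (by norm_num) (by norm_num) (by norm_num) (im7 (hin 7 (by decide)))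
    (fun _ => rfl) (fun h => absurd h (by rw [e7]; decide)) trivial
    (LvOK.mk' (by norm_num) (by norm_num) (by norm_num) (by norm_num) (im11 (hin 11 (by decide)))
    (fun h => absurd h (by rw [e11]; decide)) (fun _ => rfl) (RelOK.mk' 7 0 1 2 rfl rfl rfl rfl rfl rfl h1155
      trivial)
    (LvOK.mk' (by norm_num) (by norm_num) (by norm_num) (by norm_num) (im13 (hin 13 (by decide)))
    (fun _ => rfl) (fun h => absurd h (by rw [e13]; decide)) (RelOK.mk' 11 0 1 3 rfl rfl rfl rfl rfl rfl h3003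
      trivial)
    (LvOK.mk' (by norm_num) (by norm_num) (by norm_num) (by norm_num) (im17 (hin 17 (by decide)))
    (fun h => absurd h (by rw [e17]; decide)) (fun _ => rfl) (RelOK.mk' 13 0 3 4 rfl rfl rfl rfl rfl rfl h3315
      (RelOK.mk' 11 1 2 4 rfl rfl rfl rfl rfl rfl h3927
      trivial))
    (LvOK.mk' (by norm_num) (by norm_num) (by norm_num) (by norm_num) (im19 (hin 19 (by decide)))
    (fun h => absurd h (by rw [e19]; decide)) (fun _ => rfl) (RelOK.mk' 7 3 4 5 rfl rfl rfl rfl rfl rfl h1995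
      (RelOK.mk' 11 2 4 5 rfl rfl rfl rfl rfl rfl h3135
      (RelOK.mk' 13 1 3 5 rfl rfl rfl rfl rfl rfl h5187
      (RelOK.mk' 17 0 3 5 rfl rfl rfl rfl rfl rfl h6783
      (RelOK.mk' 13 1 2 5 rfl rfl rfl rfl rfl rfl h8151
      (RelOK.mk' 17 0 2 5 rfl rfl rfl rfl rfl rfl h10659
      (RelOK.mk' 13 1 2 3 rfl rfl rfl rfl rfl rfl h19019
      (RelOK.mk' 17 0 2 3 rfl rfl rfl rfl rfl rfl h24871
      trivial))))))))
    (LvOK.mk' (by norm_num) (by norm_num) (by norm_num) (by norm_num) (im23 (hin 23 (by decide)))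
    (fun _ => rfl) (fun h => absurd h (by rw [e23]; decide)) (RelOK.mk' 7 4 5 6 rfl rfl rfl rfl rfl rfl h2415
      (RelOK.mk' 11 3 5 6 rfl rfl rfl rfl rfl rfl h3795
      (RelOK.mk' 13 2 4 6 rfl rfl rfl rfl rfl rfl h6279
      (RelOK.mk' 17 1 4 6 rfl rfl rfl rfl rfl rfl h8211
      (RelOK.mk' 11 3 4 5 rfl rfl rfl rfl rfl rfl h8855
      (RelOK.mk' 13 2 3 6 rfl rfl rfl rfl rfl rfl h9867
      (RelOK.mk' 17 1 3 6 rfl rfl rfl rfl rfl rfl h12903
      (RelOK.mk' 19 0 1 6 rfl rfl rfl rfl rfl rfl h22287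
      trivial))))))))
    (LvOK.mk' (by norm_num) (by norm_num) (by norm_num) (by norm_num) (im31 (hin 31 (by decide)))
    (fun h => absurd h (by rw [e31]; decide)) (fun _ => rfl) (RelOK.mk' 7 5 6 7 rfl rfl rfl rfl rfl rfl h3255
      (RelOK.mk' 11 4 6 7 rfl rfl rfl rfl rfl rfl h5115
      (RelOK.mk' 13 3 5 7 rfl rfl rfl rfl rfl rfl h8463
      (RelOK.mk' 19 1 6 7 rfl rfl rfl rfl rfl rfl h8835
      (RelOK.mk' 23 0 6 7 rfl rfl rfl rfl rfl rfl h10695
      (RelOK.mk' 17 2 5 7 rfl rfl rfl rfl rfl rfl h11067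
      (RelOK.mk' 13 3 4 7 rfl rfl rfl rfl rfl rfl h13299
      trivial)))))))
    trivial)))))))))

theorem si10 (H : AllTB) : S_SI10 := by
  intro n e hn hin hA
  have hin' : ∀ l ∈ ({3, 5, 7, 11, 13, 17, 19, 23, 29, 31} : Finset ℕ),
      jacobiSym ((n : ℤ) ^ 2 + 4) l = -1 := by
    intro l hl
    have h1 : ∀ l ∈ ({3, 5, 7, 11, 13, 17, 19, 23, 29, 31} : Finset ℕ), l ∈ P10 ∧ l ≠ 2 := by decide
    exact hin l (h1 l hl).1 (h1 l hl).2
  have h3 := im3 (hin' 3 (by decide))
  have h4 : n % 3 = 1 ∨ n % 3 = 2 := by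
    have : n % 3 < 3 := Nat.mod_lt n (by norm_num)
    generalize n % 3 = r at h3 this
    interval_cases r
    · exact absurd h3 (by decide)
    · left; rfl
    · right; rfl
  rcases h4 with h4 | h4
  · exact srch_sound (V := VI 2) (ps := []) (by simp) (lvI H hA hin' (by rw [h4]; decide)) sI1
  · exact srch_sound (V := VI 4) (ps := []) (by simp) (lvI H hA hin' (by rw [h4]; decide)) sI2

theorem etrue {e : ℕ → Bool} {l p : ℕ} (h : e l = true ↔ jacobiSym l p = -1) (h1 : jacobiSym l p = -1) :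
    e l = true := h.mpr h1

theorem efalse {e : ℕ → Bool} {l p : ℕ} (h : e l = true ↔ jacobiSym l p = -1) (h1 : jacobiSym l p = 1) :
    e l = false := by
  cases he : e l with
  | false => rfl
  | true => rw [h.mp he] at h1; norm_num at h1

theorem sr10 (H : AllTB) : S_SR10 := by
  intro n e p hn hp hd hin he hA
  rcases hp with rfl | rfl | rfl | rfl
  · refine srch_sound (V := VR5) (ps := []) (by simp) (lv5 H hA ?_
      (etrue (he 3 (by decide) (by decide)) (by norm_num)) (etrue (he 7 (by decide) (by decide)) (by norm_num)) (efalse (he 11 (by decide) (by decide)) (by norm_num)) (etrue (he 13 (by decide) (by decide)) (by norm_num)) (etrue (he 17 (by decide) (by decide)) (by norm_num)) (efalse (he 19 (by decide) (by decide)) (by norm_num)) (etrue (he 23 (by decide) (by decide)) (by norm_num)) (efalse (he 29 (by decide) (by decide)) (by norm_num)) (efalse (he 31 (by decide) (by decide)) (by norm_num))) sr5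
    intro l hl
    have h1 : ∀ l ∈ ({3, 7, 11, 13, 17, 19, 23, 29, 31} : Finset ℕ), l ∈ P10 ∧ l ≠ 2 ∧ l ≠ 5 := by decide
    exact hin l (h1 l hl).1 (h1 l hl).2.1 (h1 l hl).2.2
  · refine srch_sound (V := VR13) (ps := []) (by simp) (lv13 H hA ?_
      (efalse (he 3 (by decide) (by decide)) (by norm_num)) (etrue (he 5 (by decide) (by decide)) (by norm_num)) (etrue (he 7 (by decide) (by decide)) (by norm_num)) (etrue (he 11 (by decide) (by decide)) (by norm_num)) (efalse (he 17 (by decide) (by decide)) (by norm_num)) (etrue (he 19 (by decide) (by decide)) (by norm_num)) (efalse (he 23 (by decide) (by decide)) (by norm_num)) (efalse (he 29 (by decide) (by decide)) (by norm_num)) (etrue (he 31 (by decide) (by decide)) (by norm_num))) sr13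
    intro l hl
    have h1 : ∀ l ∈ ({3, 5, 7, 11, 17, 19, 23, 29, 31} : Finset ℕ), l ∈ P10 ∧ l ≠ 2 ∧ l ≠ 13 := by decide
    exact hin l (h1 l hl).1 (h1 l hl).2.1 (h1 l hl).2.2
  · refine srch_sound (V := VR17) (ps := []) (by simp) (lv17 H hA ?_
      (etrue (he 3 (by decide) (by decide)) (by norm_num)) (etrue (he 5 (by decide) (by decide)) (by norm_num)) (etrue (he 7 (by decide) (by decide)) (by norm_num)) (etrue (he 11 (by decide) (by decide)) (by norm_num)) (efalse (he 13 (by decide) (by decide)) (by norm_num)) (efalse (he 19 (by decide) (by decide)) (by norm_num)) (etrue (he 23 (by decide) (by decide)) (by norm_num)) (etrue (he 29 (by decide) (by decide)) (by norm_num)) (etrue (he 31 (by decide) (by decide)) (by norm_num))) sr17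
    intro l hl
    have h1 : ∀ l ∈ ({3, 5, 7, 11, 13, 19, 23, 29, 31} : Finset ℕ), l ∈ P10 ∧ l ≠ 2 ∧ l ≠ 17 := by decide
    exact hin l (h1 l hl).1 (h1 l hl).2.1 (h1 l hl).2.2
  · refine srch_sound (V := VR29) (ps := []) (by simp) (lv29 H hA ?_
      (etrue (he 3 (by decide) (by decide)) (by norm_num)) (efalse (he 5 (by decide) (by decide)) (by norm_num)) (efalse (he 7 (by decide) (by decide)) (by norm_num)) (etrue (he 11 (by decide) (by decide)) (by norm_num)) (efalse (he 13 (by decide) (by decide)) (by norm_num)) (etrue (he 17 (by decide) (by decide)) (by norm_num)) (etrue (he 19 (by decide) (by decide)) (by norm_num)) (efalse (he 23 (by decide) (by decide)) (by norm_num)) (etrue (he 31 (by decide) (by decide)) (by norm_num))) sr29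
    intro l hl
    have h1 : ∀ l ∈ ({3, 5, 7, 11, 13, 17, 19, 23, 31} : Finset ℕ), l ∈ P10 ∧ l ≠ 2 ∧ l ≠ 29 := by decide
    exact hin l (h1 l hl).1 (h1 l hl).2.1 (h1 l hl).2.2

end Pool.Agent.N911.L
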