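import Pool.Agent.N911.K4

/-! Tree search over residues and signs: kernel functions and soundness. -/

namespace Pool.Agent.N911.L

open H419R2 Pool.Agent.N911

/-- lists of relations: `l2 l3 l4`, positions `P2 P3 P4` in the state, table, sixteen bits -/
inductive RLL where
  | nil : RLL
  | cons (l3 l4 P2 P3 P4 T R : ℕ) (tl : RLL) : RLL

/-- the mask of the residues allowed by the relations -/
noncomputable def msk (l W F s c : ℕ) (k : ℕ → Bool) (L : RLL) : ℕ → Bool :=
  @RLL.rec (fun _ => ℕ → Bool) (fun M => k M)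
    (fun l3 l4 P2 P3 P4 T R _ ih M =>
      force (Nat.mod (Nat.shiftRight s P2) 64) (fun f2 =>
      force (Nat.mod (Nat.shiftRight s P3) 64) (fun f3 =>
      force (Nat.mod (Nat.shiftRight s P4) 64) (fun f4 =>
      force (Nat.mod (Nat.shiftRight R (Nat.add c (Nat.add (Nat.mul (Nat.div f2 32) 4)
        (Nat.add (Nat.mul (Nat.div f3 32) 2) (Nat.div f4 32))))) 2) (fun b =>
      force (Nat.land M (Nat.xor (Nat.mod (Nat.shiftRight T (Nat.mul l (Nat.add (Nat.mul
        (Nat.add (Nat.mul (Nat.mod f2 32) l3) (Nat.mod f3 32)) l4) (Nat.mod f4 32)))) W)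
        (Nat.mul (Nat.sub 1 b) F))) (fun M' =>
      @Nat.rec (fun _ => Bool) true (fun _ _ => ih M') M')))))) L

/-- loop over the bits of `M` -/
def bl (f : ℕ → Bool) (n : ℕ) : ℕ → Bool :=
  @Nat.rec (fun _ => ℕ → Bool) (fun M => Nat.beq M 0)
    (fun _ ih M => @Nat.rec (fun _ => Bool) true (fun _ _ => force (Nat.log2 M) (fun r =>
      force (Nat.sub M (Nat.pow 2 r)) (fun M' => cj (f r) (ih M')))) M) n

/-- lists of levels -/
inductive LVs where
  | nil : LVs
  | cons (l W F im : ℕ) (f0 f1 : Bool) (L : RLL) (tl : LVs) : LVs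

/-- the search -/
noncomputable def srch (V : LVs) : ℕ → Bool :=
  @LVs.rec (fun _ => ℕ → Bool) (fun _ => false)
    (fun l W F im f0 f1 L _ ih s =>
      cj (imp f0 (msk l W F s 0 (fun M => bl (fun r => force (Nat.add (Nat.mul s 64) r) ih) l M) L im))
        (imp f1 (msk l W F s 8 (fun M => bl (fun r => force (Nat.add (Nat.mul s 64) (Nat.add r 32)) ih)
          l M) L im))) V

/-! ### Soundness -/

theorem bl_sound {f : ℕ → Bool} {n M : ℕ} (h : bl f n M = true) {r : ℕ} (hr : M.testBit r = true) :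
    f r = true := by
  induction n generalizing M with
  | zero =>
    have h1 : Nat.beq M 0 = true := h
    have h2 : M = 0 := Nat.eq_of_beq_eq_true h1
    subst h2
    simp at hr
  | succ k ih =>
    rcases Nat.eq_zero_or_pos M with h0 | h0
    · subst h0; simp at hr
    · obtain ⟨M0, rfl⟩ : ∃ M0, M = M0 + 1 := ⟨M - 1, by omega⟩
      have h1 : force (Nat.log2 (M0 + 1)) (fun r =>
        force (Nat.sub (M0 + 1) (Nat.pow 2 r)) (fun M' => cj (f r) (bl f k M'))) = true := h
      rw [force_eq, force_eq, cj_true] at h1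
      obtain ⟨h2, h3⟩ := h1
      by_cases hr2 : r = Nat.log2 (M0 + 1)
      · rw [hr2]; exact h2
      · apply ih h3
        have e1 : 2 ^ Nat.log2 (M0 + 1) ≤ M0 + 1 := Nat.log2_self_le (by omega)
        have e2 : M0 + 1 < 2 ^ (Nat.log2 (M0 + 1) + 1) := Nat.lt_log2_self
        have e3 : (M0 + 1) - 2 ^ Nat.log2 (M0 + 1) = (M0 + 1) % 2 ^ Nat.log2 (M0 + 1) := by
          rw [Nat.mod_eq_sub_mod e1, Nat.mod_eq_of_lt]
          rw [pow_succ] at e2
          omega
        show ((M0 + 1) - 2 ^ Nat.log2 (M0 + 1)).testBit r = true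
        rw [e3, Nat.testBit_mod_two_pow, hr]
        have : r < Nat.log2 (M0 + 1) := by
          by_contra hc
          have h5 : Nat.log2 (M0 + 1) + 1 ≤ r := by omega
          have h6 : M0 + 1 < 2 ^ r := lt_of_lt_of_le e2 (Nat.pow_le_pow_right (by norm_num) h5)
          rw [Nat.testBit_lt_two_pow h6] at hr
          exact Bool.false_ne_true hr
        simp [this]

/-- value of the field of the prime `l` -/
def fv (n : ℕ) (e : ℕ → Bool) (l : ℕ) : ℕ := n % l + 32 * (if e l = true then 1 else 0)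

/-- the relation for the table `T` and the sixteen bits `R` -/
def Hol (n : ℕ) (e : ℕ → Bool) (l1 l2 l3 l4 T R : ℕ) : Prop :=
  (T >>> (l1 * ((n % l2 * l3 + n % l3) * l4 + n % l4) + n % l1)) % 2 =
    (R >>> ((if e l1 = true then 8 else 0) + ((if e l2 = true then 1 else 0) * 4 +
      ((if e l3 = true then 1 else 0) * 2 + (if e l4 = true then 1 else 0))))) % 2

/-- the state -/
def st (n : ℕ) (e : ℕ → Bool) : List ℕ → ℕ
  | [] => 0
  | l :: t => st n e t * 64 + fv n e l

/-- all relations of the list hold -/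
def RelOK (n : ℕ) (e : ℕ → Bool) (l1 : ℕ) (ps : List ℕ) : RLL → Prop
  | RLL.nil => True
  | RLL.cons l3 l4 P2 P3 P4 T R tl => (∃ l2 k2 k3 k4, P2 = 6 * k2 ∧ P3 = 6 * k3 ∧ P4 = 6 * k4 ∧
      ps[k2]? = some l2 ∧ ps[k3]? = some l3 ∧ ps[k4]? = some l4 ∧ Hol n e l1 l2 l3 l4 T R) ∧
      RelOK n e l1 ps tl

/-- the levels are correct -/
def LvOK (n : ℕ) (e : ℕ → Bool) : List ℕ → LVs → Prop
  | _, LVs.nil => True
  | ps, LVs.cons l W F im f0 f1 L tl => (0 < l ∧ l ≤ 32 ∧ W = 2 ^ l ∧ F = 2 ^ l - 1 ∧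
      im.testBit (n % l) = true ∧ (e l = false → f0 = true) ∧ (e l = true → f1 = true)) ∧
      RelOK n e l ps L ∧ LvOK n e (l :: ps) tl

theorem fv_lt {n : ℕ} {e : ℕ → Bool} {l : ℕ} (h0 : 0 < l) (h : l ≤ 32) : fv n e l < 64 := by
  unfold fv
  have := Nat.mod_lt n h0
  split_ifs <;> omega

theorem st_get {n : ℕ} {e : ℕ → Bool} {ps : List ℕ} (h : ∀ l ∈ ps, 0 < l ∧ l ≤ 32) {k l : ℕ}
    (hk : ps[k]? = some l) : (st n e ps >>> (6 * k)) % 64 = fv n e l := by
  induction ps generalizing k with
  | nil => simp at hk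
  | cons a t ih =>
    have ha : fv n e a < 64 := fv_lt (h a (by simp)).1 (h a (by simp)).2
    cases k with
    | zero =>
      simp only [List.getElem?_cons_zero, Option.some.injEq] at hk
      subst hk
      simp only [st, mul_zero, Nat.shiftRight_zero]
      omega
    | succ k =>
      have h1 := ih (fun l hl => h l (List.mem_cons_of_mem _ hl)) (k := k) (by simpa using hk)
      have h2 : 6 * (k + 1) = 6 + 6 * k := by ring
      rw [h2, Nat.shiftRight_add]
      have h3 : st n e (a :: t) >>> 6 = st n e t := by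
        rw [Nat.shiftRight_eq_div_pow]
        simp only [st]
        omega
      rw [h3]
      exact h1

theorem fv_mod {n : ℕ} {e : ℕ → Bool} {l : ℕ} (h0 : 0 < l) (h : l ≤ 32) : fv n e l % 32 = n % l := by
  unfold fv
  have := Nat.mod_lt n h0
  split_ifs <;> omega

theorem fv_div {n : ℕ} {e : ℕ → Bool} {l : ℕ} (h0 : 0 < l) (h : l ≤ 32) :
    fv n e l / 32 = if e l = true then 1 else 0 := by
  unfold fv
  have := Nat.mod_lt n h0
  split_ifs <;> omega

theorem testBit_iff (M r : ℕ) : M.testBit r = true ↔ (M >>> r) % 2 = 1 := by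
  rw [Nat.testBit_eq_decide_div_mod_eq, Nat.shiftRight_eq_div_pow]
  simp

theorem msk_sound {n : ℕ} {e : ℕ → Bool} {ps : List ℕ} (hps : ∀ l ∈ ps, 0 < l ∧ l ≤ 32) {l W F c : ℕ}
    (l0 : 0 < l) (hW : W = 2 ^ l) (hF : F = 2 ^ l - 1) (hc : c = if e l = true then 8 else 0)
    {k : ℕ → Bool} {L : RLL} (hL : RelOK n e l ps L) {M : ℕ}
    (h : msk l W F (st n e ps) c k L M = true) (hM : M.testBit (n % l) = true) :
    ∃ M' : ℕ, M'.testBit (n % l) = true ∧ k M' = true := by
  induction L generalizing M with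
  | nil => exact ⟨M, hM, h⟩
  | cons l3 l4 P2 P3 P4 T R tl ih =>
    obtain ⟨⟨l2, k2, k3, k4, hP2, hP3, hP4, g2, g3, g4, hH⟩, hT⟩ := hL
    have m2 := hps l2 (List.mem_of_getElem? g2)
    have m3 := hps l3 (List.mem_of_getElem? g3)
    have m4 := hps l4 (List.mem_of_getElem? g4)
    have h1 : force (Nat.mod (Nat.shiftRight (st n e ps) P2) 64) (fun f2 =>
      force (Nat.mod (Nat.shiftRight (st n e ps) P3) 64) (fun f3 =>
      force (Nat.mod (Nat.shiftRight (st n e ps) P4) 64) (fun f4 =>
      force (Nat.mod (Nat.shiftRight R (Nat.add c (Nat.add (Nat.mul (Nat.div f2 32) 4)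
        (Nat.add (Nat.mul (Nat.div f3 32) 2) (Nat.div f4 32))))) 2) (fun b =>
      force (Nat.land M (Nat.xor (Nat.mod (Nat.shiftRight T (Nat.mul l (Nat.add (Nat.mul
        (Nat.add (Nat.mul (Nat.mod f2 32) l3) (Nat.mod f3 32)) l4) (Nat.mod f4 32)))) W)
        (Nat.mul (Nat.sub 1 b) F))) (fun M' =>
      @Nat.rec (fun _ => Bool) true (fun _ _ => msk l W F (st n e ps) c k tl M') M'))))) = true := h
    rw [force_eq, force_eq, force_eq, force_eq, force_eq] at h1
    have q2 : Nat.mod (Nat.shiftRight (st n e ps) P2) 64 = fv n e l2 := by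
      rw [hP2]; exact st_get hps g2
    have q3 : Nat.mod (Nat.shiftRight (st n e ps) P3) 64 = fv n e l3 := by
      rw [hP3]; exact st_get hps g3
    have q4 : Nat.mod (Nat.shiftRight (st n e ps) P4) 64 = fv n e l4 := by
      rw [hP4]; exact st_get hps g4
    rw [q2, q3, q4] at h1
    set b := Nat.mod (Nat.shiftRight R (Nat.add c (Nat.add (Nat.mul (Nat.div (fv n e l2) 32) 4)
        (Nat.add (Nat.mul (Nat.div (fv n e l3) 32) 2) (Nat.div (fv n e l4) 32))))) 2 with hb
    set row := Nat.mod (Nat.shiftRight T (Nat.mul l (Nat.add (Nat.mul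
        (Nat.add (Nat.mul (Nat.mod (fv n e l2) 32) l3) (Nat.mod (fv n e l3) 32)) l4)
        (Nat.mod (fv n e l4) 32)))) W with hrow
    have hb2 : b = (R >>> ((if e l = true then 8 else 0) + ((if e l2 = true then 1 else 0) * 4 +
      ((if e l3 = true then 1 else 0) * 2 + (if e l4 = true then 1 else 0))))) % 2 := by
      rw [hb]
      show (R >>> (c + (fv n e l2 / 32 * 4 + (fv n e l3 / 32 * 2 + fv n e l4 / 32)))) % 2 = _
      rw [fv_div m2.1 m2.2, fv_div m3.1 m3.2, fv_div m4.1 m4.2, hc]
    have hrow2 : row = (T >>> (l * ((n % l2 * l3 + n % l3) * l4 + n % l4))) % 2 ^ l := by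
      rw [hrow]
      show (T >>> (l * ((fv n e l2 % 32 * l3 + fv n e l3 % 32) * l4 + fv n e l4 % 32))) % W = _
      rw [fv_mod m2.1 m2.2, fv_mod m3.1 m3.2, fv_mod m4.1 m4.2, hW]
    have hlt : n % l < l := Nat.mod_lt n l0
    have hrb : row.testBit (n % l) = true ↔ b = 1 := by
      rw [hrow2, Nat.testBit_mod_two_pow, hb2, ← hH, Nat.shiftRight_add, ← testBit_iff]
      simp [hlt]
    have hb01 : b = 0 ∨ b = 1 := by
      have : b < 2 := by rw [hb2]; exact Nat.mod_lt _ (by norm_num)
      omega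
    have hnew : (Nat.land M (Nat.xor row (Nat.mul (Nat.sub 1 b) F))).testBit (n % l) = true := by
      show (M &&& (row ^^^ ((1 - b) * F))).testBit (n % l) = true
      rw [Nat.testBit_and, Nat.testBit_xor, hM]
      rcases hb01 with h0 | h0
      · have : row.testBit (n % l) = false := by
          by_contra hh
          have := hrb.mp (by simpa using hh)
          omega
        rw [this, h0, hF]
        simp [Nat.testBit_two_pow_sub_one, hlt]
      · rw [hrb.mpr h0, h0]
        simp
    set M' := Nat.land M (Nat.xor row (Nat.mul (Nat.sub 1 b) F)) with hM'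
    have h2 : msk l W F (st n e ps) c k tl M' = true := by
      rcases Nat.eq_zero_or_pos M' with h0 | h0
      · rw [h0] at hnew; simp at hnew
      · obtain ⟨M0, hM0⟩ : ∃ M0, M' = M0 + 1 := ⟨M' - 1, by omega⟩
        rw [hM0] at h1 ⊢
        exact h1
    exact ih hT h2 hnew

theorem srch_sound {n : ℕ} {e : ℕ → Bool} {V : LVs} {ps : List ℕ} (hps : ∀ l ∈ ps, 0 < l ∧ l ≤ 32)
    (hV : LvOK n e ps V) (h : srch V (st n e ps) = true) : False := by
  induction V generalizing ps with
  | nil => exact absurd h (by simp [srch])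
  | cons l W F im f0 f1 L tl ih =>
    obtain ⟨⟨l0, l32, hW, hF, him, h0, h1⟩, hR, hT⟩ := hV
    have hps' : ∀ x ∈ l :: ps, 0 < x ∧ x ≤ 32 := by
      intro x hx
      rcases List.mem_cons.mp hx with rfl | hx
      · exact ⟨l0, l32⟩
      · exact hps x hx
    have hs : cj (imp f0 (msk l W F (st n e ps) 0 (fun M => bl (fun r =>
        force (Nat.add (Nat.mul (st n e ps) 64) r) (srch tl)) l M) L im))
        (imp f1 (msk l W F (st n e ps) 8 (fun M => bl (fun r =>
          force (Nat.add (Nat.mul (st n e ps) 64) (Nat.add r 32)) (srch tl))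
          l M) L im)) = true := h
    rw [cj_true] at hs
    obtain ⟨hs0, hs1⟩ := hs
    cases hel : e l with
    | false =>
      obtain ⟨M', hM', hk⟩ := msk_sound hps l0 hW hF (by simp [hel]) hR (imp_true hs0 (h0 hel)) him
      have h2 := bl_sound hk hM'
      rw [force_eq] at h2
      apply ih hps' hT
      have : st n e (l :: ps) = Nat.add (Nat.mul (st n e ps) 64) (n % l) := by
        show st n e ps * 64 + fv n e l = st n e ps * 64 + n % l
        unfold fv
        simp [hel]
      rw [this]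
      exact h2
    | true =>
      obtain ⟨M', hM', hk⟩ := msk_sound hps l0 hW hF (by simp [hel]) hR (imp_true hs1 (h1 hel)) him
      have h2 := bl_sound hk hM'
      rw [force_eq] at h2
      apply ih hps' hT
      have : st n e (l :: ps) = Nat.add (Nat.mul (st n e ps) 64) (Nat.add (n % l) 32) := by
        show st n e ps * 64 + fv n e l = st n e ps * 64 + (n % l + 32)
        unfold fv
        simp [hel]
      rw [this]
      exact h2

end Pool.Agent.N911.L
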