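import Pool.Agent.N911.L.S4

/-! Splitting the inert search into small kernel checks. -/

namespace Pool.Agent.N911.L

open H419R2 Pool.Agent.N911

theorem bl_complete {f : ℕ → Bool} {n M : ℕ} (hM : M < 2 ^ n) (h : ∀ r, M.testBit r = true → f r = true) :
    bl f n M = true := by
  induction n generalizing M with
  | zero =>
    have : M = 0 := by simpa using hM
    subst this
    rfl
  | succ k ih =>
    rcases Nat.eq_zero_or_pos M with h0 | h0
    · subst h0; rfl
    · obtain ⟨M0, rfl⟩ : ∃ M0, M = M0 + 1 := ⟨M - 1, by omega⟩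
      have e1 : 2 ^ Nat.log2 (M0 + 1) ≤ M0 + 1 := Nat.log2_self_le (by omega)
      have e2 : M0 + 1 < 2 ^ (Nat.log2 (M0 + 1) + 1) := Nat.lt_log2_self
      have e3 : (M0 + 1) - 2 ^ Nat.log2 (M0 + 1) = (M0 + 1) % 2 ^ Nat.log2 (M0 + 1) := by
        rw [Nat.mod_eq_sub_mod e1, Nat.mod_eq_of_lt]
        rw [pow_succ] at e2
        omega
      have hk : Nat.log2 (M0 + 1) ≤ k := by
        by_contra hc
        have h5 : k + 1 ≤ Nat.log2 (M0 + 1) := by omega
        have h6 : 2 ^ (k + 1) ≤ 2 ^ Nat.log2 (M0 + 1) := Nat.pow_le_pow_right (by norm_num) h5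
        omega
      have key : force (Nat.log2 (M0 + 1)) (fun r =>
          force (Nat.sub (M0 + 1) (Nat.pow 2 r)) (fun M' => cj (f r) (bl f k M'))) = true := by
        rw [force_eq, force_eq, cj_true]
        refine ⟨h _ ?_, ?_⟩
        · have h7 : (M0 + 1).testBit (Nat.log2 (M0 + 1)) = true := by
            rw [Nat.testBit_eq_decide_div_mod_eq]
            have h8 : (M0 + 1) / 2 ^ Nat.log2 (M0 + 1) = 1 := by
              apply Nat.div_eq_of_lt_le
              · simpa using e1
              · rw [pow_succ] at e2; omega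
            simp [h8]
          exact h7
        · apply ih
          · show (M0 + 1) - 2 ^ Nat.log2 (M0 + 1) < 2 ^ k
            rw [e3]
            exact lt_of_lt_of_le (Nat.mod_lt _ (by positivity)) (Nat.pow_le_pow_right (by norm_num) hk)
          · intro r hr
            apply h
            have hr' : ((M0 + 1) - 2 ^ Nat.log2 (M0 + 1)).testBit r = true := hr
            rw [e3, Nat.testBit_mod_two_pow] at hr'
            simp only [Bool.and_eq_true, decide_eq_true_eq] at hr'
            exact hr'.2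
      exact key

theorem srch_step {l W F im : ℕ} {f0 f1 : Bool} {tl : LVs} {s : ℕ} (him : im < 2 ^ l)
    (h0 : ∀ r, im.testBit r = true → srch tl (s * 64 + r) = true)
    (h1 : ∀ r, im.testBit r = true → srch tl (s * 64 + (r + 32)) = true) :
    srch (LVs.cons l W F im f0 f1 RLL.nil tl) s = true := by
  have hs : cj (imp f0 (bl (fun r => force (Nat.add (Nat.mul s 64) r) (srch tl)) l im))
      (imp f1 (bl (fun r => force (Nat.add (Nat.mul s 64) (Nat.add r 32)) (srch tl)) l im)) = true := by
    rw [cj_true]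
    have a0 : bl (fun r => force (Nat.add (Nat.mul s 64) r) (srch tl)) l im = true := by
      apply bl_complete him
      intro r hr
      rw [force_eq]
      exact h0 r hr
    have a1 : bl (fun r => force (Nat.add (Nat.mul s 64) (Nat.add r 32)) (srch tl)) l im = true := by
      apply bl_complete him
      intro r hr
      rw [force_eq]
      exact h1 r hr
    rw [a0, a1]
    cases f0 <;> cases f1 <;> simp [imp]
  exact hs

theorem tb2 {r : ℕ} (h : Nat.testBit 2 r = true) : r = 1 := by
  have : r < 3 := by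
    by_contra hc
    have h6 : 2 < 2 ^ r := lt_of_lt_of_le (by norm_num : 2 < 2 ^ 3) (Nat.pow_le_pow_right (by norm_num) (by omega))
    rw [Nat.testBit_lt_two_pow h6] at h
    exact Bool.false_ne_true h
  interval_cases r <;> revert h <;> decide

theorem tb4 {r : ℕ} (h : Nat.testBit 4 r = true) : r = 2 := by
  have : r < 3 := by
    by_contra hc
    have h6 : 4 < 2 ^ r := lt_of_lt_of_le (by norm_num : 4 < 2 ^ 3) (Nat.pow_le_pow_right (by norm_num) (by omega))
    rw [Nat.testBit_lt_two_pow h6] at h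
    exact Bool.false_ne_true h
  interval_cases r <;> revert h <;> decide

theorem tb12 {r : ℕ} (h : Nat.testBit 12 r = true) : r = 2 ∨ r = 3 := by
  have : r < 4 := by
    by_contra hc
    have h6 : 12 < 2 ^ r := lt_of_lt_of_le (by norm_num : 12 < 2 ^ 4) (Nat.pow_le_pow_right (by norm_num) (by omega))
    rw [Nat.testBit_lt_two_pow h6] at h
    exact Bool.false_ne_true h
  interval_cases r <;> revert h <;> decide

/-- the levels from 7 on -/
def V7 : LVs :=
  LVs.cons 7 128 127 90 true true RLL.nil (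
  LVs.cons 11 2048 2047 876 true true (RLL.cons 5 3 0 6 12 TT1155 0x420
      RLL.nil) (
  LVs.cons 13 8192 8191 6678 true true (RLL.cons 7 3 0 6 18 TT3003 0x240
      RLL.nil) (
  LVs.cons 17 131072 131071 79986 true true (RLL.cons 5 3 0 18 24 TT3315 0x1428
      (RLL.cons 7 3 6 12 24 TT3927 0xe997
      RLL.nil)) (
  LVs.cons 19 524288 524287 225516 true true (RLL.cons 5 3 18 24 30 TT1995 0xfbdf
      (RLL.cons 5 3 12 24 30 TT3135 0x0
      (RLL.cons 7 3 6 18 30 TT5187 0x0
      (RLL.cons 7 3 0 18 30 TT6783 0xeff7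
      (RLL.cons 11 3 6 12 30 TT8151 0x420
      (RLL.cons 11 3 0 12 30 TT10659 0x1008
      (RLL.cons 11 7 6 12 18 TT19019 0x420
      (RLL.cons 11 7 0 12 18 TT24871 0x0
      RLL.nil)))))))) (
  LVs.cons 23 8388608 8388607 4954578 true true (RLL.cons 5 3 24 30 36 TT2415 0xe997
      (RLL.cons 5 3 18 30 36 TT3795 0x0
      (RLL.cons 7 3 12 24 36 TT6279 0x0
      (RLL.cons 7 3 6 24 36 TT8211 0xe997
      (RLL.cons 7 5 18 24 30 TT8855 0xfbdf
      (RLL.cons 11 3 12 18 36 TT9867 0x0
      (RLL.cons 11 3 6 18 36 TT12903 0x1008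
      (RLL.cons 17 3 0 6 36 TT22287 0x240
      RLL.nil)))))))) (
  LVs.cons 29 536870912 536870911 146462532 true true (RLL.cons 5 3 18 36 42 TT5655 0xebd7
      (RLL.cons 7 3 24 30 42 TT6699 0x420
      (RLL.cons 5 3 12 36 42 TT7395 0x1248
      (RLL.cons 7 3 6 30 42 TT11571 0x0
      (RLL.cons 7 3 0 30 42 TT14007 0x0
      (RLL.cons 13 3 12 18 42 TT19227 0x0
      (RLL.cons 11 3 0 24 42 TT22011 0xeff7
      RLL.nil))))))) (
  LVs.cons 31 2147483648 2147483647 367630248 true true (RLL.cons 5 3 36 42 48 TT3255 0xfbdf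
      (RLL.cons 5 3 30 42 48 TT5115 0x0
      (RLL.cons 7 3 24 36 48 TT8463 0x0
      (RLL.cons 5 3 12 42 48 TT8835 0x0
      (RLL.cons 5 3 6 42 48 TT10695 0x0
      (RLL.cons 7 3 18 36 48 TT11067 0x1008
      (RLL.cons 11 3 24 30 48 TT13299 0xfbdf
      RLL.nil))))))) (
  LVs.nil))))))))

theorem VI_eq (im : ℕ) : VI im = LVs.cons 3 8 7 im true true RLL.nil
    (LVs.cons 5 32 31 12 true true RLL.nil V7) := rfl

theorem srch_VI2 (h : ∀ s ∈ [66, 67, 98, 99, 2114, 2115, 2146, 2147], srch V7 s = true) : srch (VI 2) 0 = true := by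
  rw [VI_eq]
  refine srch_step (by norm_num) (fun r hr => ?_) (fun r hr => ?_) <;>
  obtain rfl := tb2 hr <;>
  refine srch_step (by norm_num) (fun r hr => ?_) (fun r hr => ?_) <;>
  rcases tb12 hr with rfl | rfl <;> exact h _ (by norm_num)

theorem srch_VI4 (h : ∀ s ∈ [130, 131, 162, 163, 2178, 2179, 2210, 2211], srch V7 s = true) : srch (VI 4) 0 = true := by
  rw [VI_eq]
  refine srch_step (by norm_num) (fun r hr => ?_) (fun r hr => ?_) <;>
  obtain rfl := tb4 hr <;>
  refine srch_step (by norm_num) (fun r hr => ?_) (fun r hr => ?_) <;>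
  rcases tb12 hr with rfl | rfl <;> exact h _ (by norm_num)

end Pool.Agent.N911.L
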